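import Pool.Agent.Lib.MP_8b2ae4_lc.Defs

/-! # Elementary facts about systems and joins -/

set_option autoImplicit false

namespace NLC

variable {V W : Type} {adj : V → V → Prop} {k : ℕ}

theorem sys_refl (X : Set V) (u : V) : sys adj X u u := fun _ _ => Iff.rfl

theorem sys_symm {X : Set V} {u v : V} (h : sys adj X u v) : sys adj X v u :=
  fun w hw => (h w hw).symm

theorem sys_trans {X : Set V} {u v w : V} (h : sys adj X u v) (h' : sys adj X v w) :
    sys adj X u w :=
  fun z hz => (h z hz).trans (h' z hz)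

theorem sys_mono {X Y : Set V} (hXY : X ⊆ Y) {u v : V} (h : sys adj X u v) : sys adj Y u v :=
  fun w hw => h w (fun hx => hw (hXY hx))

theorem sys_iff_row {X : Set V} {u v : V} : sys adj X u v ↔ row adj X u = row adj X v := by
  constructor
  · intro h
    ext w
    constructor
    · rintro ⟨h1, h2⟩
      exact ⟨h1, (h w h1).1 h2⟩
    · rintro ⟨h1, h2⟩
      exact ⟨h1, (h w h1).2 h2⟩
  · intro h w hw
    constructor
    · intro h2
      have h3 : w ∈ row adj X u := ⟨hw, h2⟩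
      rw [h] at h3
      exact h3.2
    · intro h2
      have h3 : w ∈ row adj X v := ⟨hw, h2⟩
      rw [← h] at h3
      exact h3.2

theorem JoinOK.symm {E : Sys V} (hE : ∀ X u v, E X u v → E X v u) {X Y : Set V}
    (h : JoinOK E k X Y) : JoinOK E k Y X := by
  obtain ⟨l, h1, h2, h3⟩ := h
  refine ⟨l, h2, h1, ?_⟩
  intro u hu v hv huv
  rw [Set.union_comm]
  exact hE _ _ _ (h3 v hv u hu huv.symm)

/-- two vertices of `X ∪ Y` with the same label are not distinguished from outside `X ∪ Y`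
(`sys_mono` for two vertices of the same part, `sys_symm` for `u ∈ Y`, `v ∈ X`) -/
theorem JoinOK.all {X Y : Set V} (h : JoinOK (sys adj) k X Y) :
    ∃ l : V → Fin k, (∀ u ∈ X, ∀ v ∈ X, l u = l v → sys adj X u v) ∧
    (∀ u ∈ Y, ∀ v ∈ Y, l u = l v → sys adj Y u v) ∧
    (∀ u ∈ X ∪ Y, ∀ v ∈ X ∪ Y, l u = l v → sys adj (X ∪ Y) u v) := by
  obtain ⟨l, h1, h2, h3⟩ := h
  refine ⟨l, h1, h2, ?_⟩
  rintro u (hu | hu) v (hv | hv) huv
  · exact sys_mono Set.subset_union_left (h1 u hu v hv huv)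
  · exact h3 u hu v hv huv
  · exact sys_symm (h3 v hv u hu huv.symm)
  · exact sys_mono Set.subset_union_right (h2 u hu v hv huv)

/-- pulling back a labelling along a map: the labelling `l ∘ f` -/
theorem joinOK_map {E : Sys V} {F : Sys W} {X Y : Set V} {X' Y' : Set W} (f : W → V)
    (hX : ∀ u ∈ X', f u ∈ X) (hY : ∀ u ∈ Y', f u ∈ Y)
    (h1 : ∀ u ∈ X', ∀ v ∈ X', E X (f u) (f v) → F X' u v)
    (h2 : ∀ u ∈ Y', ∀ v ∈ Y', E Y (f u) (f v) → F Y' u v)
    (h3 : ∀ u ∈ X', ∀ v ∈ Y', E (X ∪ Y) (f u) (f v) → F (X' ∪ Y') u v)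
    (h : JoinOK E k X Y) : JoinOK F k X' Y' := by
  obtain ⟨l, g1, g2, g3⟩ := h
  refine ⟨fun w => l (f w), ?_, ?_, ?_⟩
  · intro u hu v hv huv
    exact h1 u hu v hv (g1 _ (hX u hu) _ (hX v hv) huv)
  · intro u hu v hv huv
    exact h2 u hu v hv (g2 _ (hY u hu) _ (hY v hv) huv)
  · intro u hu v hv huv
    exact h3 u hu v hv (g3 _ (hX u hu) _ (hY v hv) huv)

theorem Con.nonempty {E : Sys V} {X : Set V} (h : Con E k X) : X.Nonempty := by
  induction h with
  | single v => exact Set.singleton_nonempty v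
  | join _ _ _ _ ih _ => exact ih.mono Set.subset_union_left

end NLC
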