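import Pool.Agent.Lib.MP_8b2ae4_lc.A1a

/-! # Restriction and transport of constructible sets -/

set_option autoImplicit false

namespace NLC

variable {V W : Type} {adj : V → V → Prop} {k : ℕ}

/-- restriction of a constructible set to a subset. Induction on `h`; in the case of a join
`X ∪ Y`, if `Y ∩ S = ∅` then `(X ∪ Y) ∩ S = X ∩ S`, etc.; if both are nonempty use the same
labelling. -/
theorem Con.inter {E F : Sys V} {X S : Set V} (h : Con E k X)
    (hEF : ∀ Z ⊆ X, ∀ u ∈ Z ∩ S, ∀ v ∈ Z ∩ S, E Z u v → F (Z ∩ S) u v)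
    (hne : (X ∩ S).Nonempty) : Con F k (X ∩ S) := by
  induction h with
  | single v =>
    obtain ⟨w, hw, hwS⟩ := hne
    have hwv : w = v := hw
    subst hwv
    have : ({w} : Set V) ∩ S = {w} := Set.inter_eq_left.2 (Set.singleton_subset_iff.2 hwS)
    rw [this]
    exact Con.single w
  | @join X Y hX hY hd hJ ihX ihY =>
    have hEX : ∀ Z ⊆ X, ∀ u ∈ Z ∩ S, ∀ v ∈ Z ∩ S, E Z u v → F (Z ∩ S) u v :=
      fun Z hZ => hEF Z (hZ.trans Set.subset_union_left)
    have hEY : ∀ Z ⊆ Y, ∀ u ∈ Z ∩ S, ∀ v ∈ Z ∩ S, E Z u v → F (Z ∩ S) u v :=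
      fun Z hZ => hEF Z (hZ.trans Set.subset_union_right)
    have hu : (X ∪ Y) ∩ S = (X ∩ S) ∪ (Y ∩ S) := Set.union_inter_distrib_right X Y S
    rcases Set.eq_empty_or_nonempty (X ∩ S) with hXe | hXn
    · rw [hu, hXe, Set.empty_union] at hne ⊢
      exact ihY hEY hne
    rcases Set.eq_empty_or_nonempty (Y ∩ S) with hYe | hYn
    · rw [hu, hYe, Set.union_empty] at hne ⊢
      exact ihX hEX hne
    obtain ⟨l, h1, h2, h3⟩ := hJ
    rw [hu]
    refine Con.join (ihX hEX hXn) (ihY hEY hYn)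
      (hd.mono Set.inter_subset_left Set.inter_subset_left) ⟨l, ?_, ?_, ?_⟩
    · intro u hu v hv hl
      exact hEF X Set.subset_union_left u hu v hv (h1 u hu.1 v hv.1 hl)
    · intro u hu v hv hl
      exact hEF Y Set.subset_union_right u hu v hv (h2 u hu.1 v hv.1 hl)
    · intro u hu' v hv hl
      rw [← hu]
      exact hEF (X ∪ Y) le_rfl u ⟨Or.inl hu'.1, hu'.2⟩ v ⟨Or.inr hv.1, hv.2⟩
        (h3 u hu'.1 v hv.1 hl)

/-- the image of a constructible set under an injective map (labelling: `Function.extend f l`,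
all sets are nonempty) -/
theorem Con.image {E : Sys V} {F : Sys W} (f : V → W) (hf : Function.Injective f)
    (hEF : ∀ (Z : Set V), ∀ u ∈ Z, ∀ v ∈ Z, E Z u v → F (f '' Z) (f u) (f v)) {X : Set V}
    (h : Con E k X) : Con F k (f '' X) := by
  induction h with
  | single v =>
    rw [Set.image_singleton]
    exact Con.single (f v)
  | @join X Y hX hY hd hJ ihX ihY =>
    obtain ⟨x0, _⟩ := hX.nonempty
    have : Nonempty V := ⟨x0⟩
    have hinv : ∀ x, Function.invFun f (f x) = x := Function.leftInverse_invFun hf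
    obtain ⟨l, h1, h2, h3⟩ := hJ
    rw [Set.image_union]
    refine Con.join ihX ihY ((Set.disjoint_image_iff hf).2 hd)
      ⟨fun w => l (Function.invFun f w), ?_, ?_, ?_⟩
    · rintro _ ⟨u, hu, rfl⟩ _ ⟨v, hv, rfl⟩ hl
      simp only [hinv] at hl
      exact hEF X u hu v hv (h1 u hu v hv hl)
    · rintro _ ⟨u, hu, rfl⟩ _ ⟨v, hv, rfl⟩ hl
      simp only [hinv] at hl
      exact hEF Y u hu v hv (h2 u hu v hv hl)
    · rintro _ ⟨u, hu, rfl⟩ _ ⟨v, hv, rfl⟩ hl
      simp only [hinv] at hl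
      rw [← Set.image_union]
      exact hEF (X ∪ Y) u (Or.inl hu) v (Or.inr hv) (h3 u hu v hv hl)

/-- the preimage of a constructible set under an injective map (labelling: `l ∘ f`; if one of the
two preimages is empty drop it) -/
theorem Con.preimage {E : Sys V} {F : Sys W} (f : W → V) (hf : Function.Injective f) {X : Set V}
    (hEF : ∀ Z ⊆ X, ∀ u v, f u ∈ Z → f v ∈ Z → E Z (f u) (f v) → F (f ⁻¹' Z) u v)
    (h : Con E k X) (hne : (f ⁻¹' X).Nonempty) : Con F k (f ⁻¹' X) := by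
  induction h with
  | single v =>
    obtain ⟨w, hw⟩ := hne
    have hwv : f w = v := hw
    subst hwv
    have : f ⁻¹' {f w} = {w} := by
      ext x
      exact ⟨fun hx => hf hx, fun hx => congrArg f hx⟩
    rw [this]
    exact Con.single w
  | @join X Y hX hY hd hJ ihX ihY =>
    have hEX : ∀ Z ⊆ X, ∀ u v, f u ∈ Z → f v ∈ Z → E Z (f u) (f v) → F (f ⁻¹' Z) u v :=
      fun Z hZ => hEF Z (hZ.trans Set.subset_union_left)
    have hEY : ∀ Z ⊆ Y, ∀ u v, f u ∈ Z → f v ∈ Z → E Z (f u) (f v) → F (f ⁻¹' Z) u v :=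
      fun Z hZ => hEF Z (hZ.trans Set.subset_union_right)
    rcases Set.eq_empty_or_nonempty (f ⁻¹' X) with hXe | hXn
    · rw [Set.preimage_union, hXe, Set.empty_union] at hne ⊢
      exact ihY hEY hne
    rcases Set.eq_empty_or_nonempty (f ⁻¹' Y) with hYe | hYn
    · rw [Set.preimage_union, hYe, Set.union_empty] at hne ⊢
      exact ihX hEX hne
    obtain ⟨l, h1, h2, h3⟩ := hJ
    rw [Set.preimage_union]
    refine Con.join (ihX hEX hXn) (ihY hEY hYn) (hd.preimage f)
      ⟨fun w => l (f w), ?_, ?_, ?_⟩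
    · intro u hu v hv hl
      exact hEF X Set.subset_union_left u v hu hv (h1 _ hu _ hv hl)
    · intro u hu v hv hl
      exact hEF Y Set.subset_union_right u v hu hv (h2 _ hu _ hv hl)
    · intro u hu v hv hl
      rw [← Set.preimage_union]
      exact hEF (X ∪ Y) le_rfl u v (Or.inl hu) (Or.inr hv) (h3 _ hu _ hv hl)

end NLC
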