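import Pool.Agent.Lib.MP_8b2ae4_lc.A1a

/-! # A constructible set has at most `k` rows -/

set_option autoImplicit false

namespace NLC

variable {V W : Type} {adj : V → V → Prop} {k : ℕ}

/-- if equal values of `l : V → Fin k` on `X` imply equal values of `f` then `f` has at most `k`
values on `X` -/
theorem ncard_image_le_of_label {β : Type} {X : Set V} (l : V → Fin k) (f : V → β)
    (h : ∀ u ∈ X, ∀ v ∈ X, l u = l v → f u = f v) : (f '' X).Finite ∧ (f '' X).ncard ≤ k := by
  classical
  have hch : ∀ y : (f '' X : Set β), ∃ x, x ∈ X ∧ f x = y := fun y => y.2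
  choose g hg1 hg2 using hch
  have hinj : Function.Injective (fun y : (f '' X : Set β) => l (g y)) := by
    intro y y' hy
    apply Subtype.ext
    rw [← hg2 y, ← hg2 y']
    exact h _ (hg1 y) _ (hg1 y') hy
  have hfin : Finite (f '' X : Set β) := Finite.of_injective _ hinj
  refine ⟨hfin, ?_⟩
  have h1 := Nat.card_le_card_of_injective _ hinj
  rw [Nat.card_fin] at h1
  exact h1

/-- the classes of a constructible set can be labelled by `k` labels (case distinction on `h`;
singleton: constant label; join: `JoinOK.all`) -/
theorem Con.label (hk : 1 ≤ k) {X : Set V} (h : Con (sys adj) k X) :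
    ∃ l : V → Fin k, ∀ u ∈ X, ∀ v ∈ X, l u = l v → sys adj X u v := by
  cases h with
  | single v =>
    refine ⟨fun _ => ⟨0, hk⟩, ?_⟩
    intro u hu v' hv _
    rw [Set.mem_singleton_iff] at hu hv
    subst hu
    subst hv
    exact sys_refl _ _
  | join hX hY hd hj =>
    obtain ⟨l, -, -, h3⟩ := JoinOK.all hj
    exact ⟨l, h3⟩

/-- a constructible set has at most `k` rows (`Con.label`, `sys_iff_row` and the first lemma) -/
theorem Con.rows (hk : 1 ≤ k) {X : Set V} (h : Con (sys adj) k X) :
    (row adj X '' X).Finite ∧ (row adj X '' X).ncard ≤ k := by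
  obtain ⟨l, hl⟩ := Con.label hk h
  exact ncard_image_le_of_label l (row adj X) (fun u hu v hv huv => sys_iff_row.1 (hl u hu v hv huv))

end NLC
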