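import Pool.Agent.Lib.MP_17a834_lc.Msr.Ops

/-! # The algorithm

Vertices are numbers; all sets of vertices are increasing lists. `a : ℕ → ℕ → Bool` is the
adjacency of the graph, `U` the list of all its vertices. -/

set_option autoImplicit false

namespace NLC

open Pool.Agent.MSR

/-- adjacency read off from an adjacency matrix -/
def ad (M : List (List Bool)) (u w : ℕ) : Bool := (M.getD u []).getD w false

variable (a : ℕ → ℕ → Bool) (U : List ℕ)

/-- `u` and `v` have the same neighbours outside `X` -/
def same (X : List ℕ) (u v : ℕ) : Bool :=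
  !((U.filter (fun w => !decide (w ∈ X))).any (fun w => !decide (a u w = a v w)))

/-- the representatives of the classes of `X` -/
def reps (X : List ℕ) : List ℕ :=
  X.filter (fun u => !(X.any (fun v => ltb v u && same a U X u v)))

/-- the number of the class of `u` -/
def idx (X : List ℕ) (u : ℕ) : ℕ :=
  ((reps a U X).filter (fun v => !((reps a U X).any (fun w => leb w v && same a U X u w)))).length

/-- union of two sets of vertices -/
def uni (X Y : List ℕ) : List ℕ := U.filter (fun v => decide (v ∈ X) || decide (v ∈ Y))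

/-- a table look-up with the operation and the states of the two parts -/
abbrev Tab := List (List Bool) → List ℕ → List ℕ → ℕ → ℕ → ℕ

/-- the state of a set in the environment -/
def look (env : List (List ℕ × ℕ)) (X : List ℕ) : ℕ :=
  ((env.filter (fun p => decide (p.1 = X))).headD ([], 0)).2

/-- attributes: `2` for the vertices of `A₁`, `3` for those of `A₂`, `1` for the others in `X`,
`0` outside `X` -/
def att (X A₁ A₂ : List ℕ) (v : ℕ) : ℕ :=
  bif decide (v ∈ A₁) then 2 else bif decide (v ∈ A₂) then 3 else bif decide (v ∈ X) then 1 else 0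

/-- the state of a set which is a single vertex or occurs in the environment -/
def stOf (lf : ℕ → ℕ) (X A₁ A₂ : List ℕ) (env : List (List ℕ × ℕ)) (Z : List ℕ) : ℕ :=
  bif leb Z.length 1 then lf (att X A₁ A₂ (Z.headD 0)) else look env Z

/-- one join -/
def rstep (lf : ℕ → ℕ) (T : Tab) (X A₁ A₂ : List ℕ) (env : List (List ℕ × ℕ))
    (p : List ℕ × List ℕ) : List (List ℕ × ℕ) :=
  (uni U p.1 p.2, T ((reps a U p.1).map (fun u => (reps a U p.2).map (fun v => a u v)))
    ((reps a U p.1).map (idx a U (uni U p.1 p.2))) ((reps a U p.2).map (idx a U (uni U p.1 p.2)))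
    (stOf lf X A₁ A₂ env p.1) (stOf lf X A₁ A₂ env p.2)) :: env

/-- the run of the automaton along a tree (a list of joins, bottom-up) -/
def run (lf : ℕ → ℕ) (T : Tab) (tr : List (List ℕ × List ℕ)) (X A₁ A₂ : List ℕ) : ℕ :=
  ((tr.foldl (rstep a U lf T X A₁ A₂) []).headD ([], 0)).2

/-- the answer of the automaton -/
def orc (lf : ℕ → ℕ) (T : Tab) (acc : ℕ → Bool) (tr : List (List ℕ × List ℕ))
    (X A₁ A₂ : List ℕ) : Bool := acc (run a U lf T tr X A₁ A₂)

variable (o : List ℕ → List ℕ → List ℕ → Bool)

/-- one step of the splitting -/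
def sstep (X : List ℕ) (p : List ℕ × List ℕ) (v : ℕ) : List ℕ × List ℕ :=
  bif o X (v :: p.1) p.2 then (v :: p.1, p.2) else (p.1, v :: p.2)

/-- split `X` with the help of the oracle `o` -/
def spl (X : List ℕ) : List ℕ × List ℕ :=
  (X.filter (fun v => decide (v ∈ (X.foldl (sstep o X) ([], [])).1)),
    X.filter (fun v => !decide (v ∈ (X.foldl (sstep o X) ([], [])).1)))

/-- one step of the construction of a tree; the state consists of the sets to be split and of the
joins found -/
def grow (s : List (List ℕ) × List (List ℕ × List ℕ)) :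
    List (List ℕ) × List (List ℕ × List ℕ) :=
  lcase s.1 s (fun X rest => bif leb X.length 1 then (rest, s.2) else
    ((spl o X).1 :: (spl o X).2 :: rest, spl o X :: s.2))

/-- construction of a tree for `U` -/
def build : List (List ℕ × List ℕ) := ((grow o)^[2 * U.length] ([U], [])).2

/-- one step of the main loop; the state is `(flag, i, tree for 0, ..., i-1)` -/
def mstep (lf : ℕ → ℕ) (T : Tab) (acc : ℕ → Bool)
    (s : Bool × ℕ × List (List ℕ × List ℕ)) : Bool × ℕ × List (List ℕ × List ℕ) :=
  bif s.1 && orc a (List.range (s.2.1 + 1)) lf T acc (s.2.2 ++ [(List.range s.2.1, [s.2.1])])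
      (List.range (s.2.1 + 1)) [] [] then
    (true, s.2.1 + 1, build (List.range (s.2.1 + 1))
      (orc a (List.range (s.2.1 + 1)) lf T acc (s.2.2 ++ [(List.range s.2.1, [s.2.1])])))
  else (false, s.2.1 + 1, s.2.2)

/-- the algorithm: `n` is the number of vertices -/
def algo (lf : ℕ → ℕ) (T : Tab) (acc : ℕ → Bool) (n : ℕ) : Bool :=
  ltb 0 n && ((mstep a lf T acc)^[n - 1] (true, 1, [])).1

end NLC
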