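import Pool.Agent.Lib.MP_8b2ae4_lc.Cut
import Pool.Agent.Lib.MP_8b2ae4_lc.A1b
import Pool.Agent.Lib.MP_8b2ae4_lc.A1c

/-! # Non-core sets can be split along the cut -/

set_option autoImplicit false

namespace NLC

variable {V T : Type} {adj : V → V → Prop} {k : ℕ} {S : Set V} {t : V → T}

theorem Cut.compl (hc : Cut adj S t) : Cut adj Sᶜ t := by
  intro u v h
  obtain ⟨h1, h2⟩ := hc u v h
  refine ⟨not_congr h1, fun w hw => h2 w ?_⟩
  simp only [Set.mem_compl_iff, not_not] at hw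
  by_cases hu : u ∈ S <;> by_cases hw' : w ∈ S <;> simp_all

theorem NonCore.subset {X Y : Set V} (h : NonCore t X) (hYX : Y ⊆ X) : NonCore t Y := by
  intro v
  obtain ⟨w, hw, hwv⟩ := h v
  exact ⟨w, fun hY => hw (hYX hY), hwv⟩

/-- (2.1): let `w ∉ X ∩ S`. If `w ∈ S` then `w ∉ X`. If `w ∉ S` take `w' ∉ X` with `t w' = t w`
(`NonCore`); then `adj u w ↔ adj u w' ↔ adj v w' ↔ adj v w` by `hc`, `hs`. -/
theorem sys_inter (hs : ∀ u v, adj u v → adj v u) (hc : Cut adj S t) {X : Set V}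
    (hX : NonCore t X) {u v : V} (hu : u ∈ S) (hv : v ∈ S) (h : sys adj X u v) :
    sys adj (X ∩ S) u v := by
  intro w hw
  by_cases hwS : w ∈ S
  · exact h w fun hwX => hw ⟨hwX, hwS⟩
  · obtain ⟨w', hw', ht⟩ := hX w
    obtain ⟨h1, h2⟩ := hc w' w ht
    have hw'S : w' ∉ S := fun h' => hwS (h1.1 h')
    have hu' : adj w' u ↔ adj w u := h2 u ⟨fun h' => absurd h' hw'S, fun h' => absurd hu h'⟩
    have hv' : adj w' v ↔ adj w v := h2 v ⟨fun h' => absurd h' hw'S, fun h' => absurd hv h'⟩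
    constructor
    · intro hw1
      exact hs _ _ (hv'.1 (hs _ _ ((h w' hw').1 (hs _ _ (hu'.2 (hs _ _ hw1))))))
    · intro hw1
      exact hs _ _ (hu'.1 (hs _ _ ((h w' hw').2 (hs _ _ (hv'.2 (hs _ _ hw1))))))

/-- (2.2), first part: `Con.inter` and `sys_inter` -/
theorem con_inter (hs : ∀ u v, adj u v → adj v u) (hc : Cut adj S t) {X : Set V}
    (hX : NonCore t X) (h : Con (sys adj) k X) (hne : (X ∩ S).Nonempty) :
    Con (sys adj) k (X ∩ S) :=
  Con.inter h (fun _ hZ _ hu _ hv hE =>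
    sys_inter hs hc (hX.subset hZ) hu.2 hv.2 hE) hne

/-- (2.2), second part: cases on `h`; for a singleton the two parts cannot both be nonempty; for a
join take the labelling of `JoinOK.all` and use `sys_inter` (for `S` and for `Sᶜ`). -/
theorem joinOK_inter (hs : ∀ u v, adj u v → adj v u) (hc : Cut adj S t) {X : Set V}
    (hX : NonCore t X) (h : Con (sys adj) k X) (hne : (X ∩ S).Nonempty)
    (hne' : (X ∩ Sᶜ).Nonempty) : JoinOK (sys adj) k (X ∩ S) (X ∩ Sᶜ) := by
  cases h with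
  | single v =>
    obtain ⟨x, hx, hxS⟩ := hne
    obtain ⟨y, hy, hyS⟩ := hne'
    rw [Set.mem_singleton_iff] at hx hy
    subst hx; subst hy
    exact absurd hxS hyS
  | join h1 h2 hd hj =>
    obtain ⟨l, -, -, hl⟩ := hj.all
    refine ⟨l, fun u hu v hv huv => sys_inter hs hc hX hu.2 hv.2 (hl u hu.1 v hv.1 huv),
      fun u hu v hv huv => sys_inter hs hc.compl hX hu.2 hv.2 (hl u hu.1 v hv.1 huv),
      fun u hu v hv huv => ?_⟩
    rw [Set.inter_union_compl]
    exact hl u hu.1 v hv.1 huv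

theorem Mac.mono {n m : ℕ} (hnm : n ≤ m) {X : Set V} (h : Mac adj k S n X) : Mac adj k S m X := by
  induction hnm with
  | refl => exact h
  | step _ ih => exact Or.inl ih

private theorem Chain.con {S X Y : Set V} (h : Chain adj k S X Y) (hX : Con (sys adj) k X) :
    Con (sys adj) k Y := by
  unfold Chain at h
  induction h with
  | refl => exact hX
  | tail _ hst ih =>
    obtain ⟨A, -, hA, hd, hj, rfl⟩ := hst
    exact Con.join ih hA hd hj

theorem Mac.con {n : ℕ} {X : Set V} (h : Mac adj k S n X) : Con (sys adj) k X := by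
  induction n generalizing X with
  | zero => exact h.2
  | succ n ih =>
    rcases h with h | ⟨X₁, X₂, h1, h2, hd, hj, rfl⟩ | ⟨X', h', hch⟩ | ⟨X', h', hch⟩
    · exact ih h
    · exact Con.join (ih h1) (ih h2) hd hj
    · exact Chain.con hch (ih h')
    · exact Chain.con hch (ih h')

/-- (2.3): if `X ∩ S` or `X ∩ Sᶜ` is empty then `X` is pure; otherwise join of the two parts. -/
theorem mac_one (hs : ∀ u v, adj u v → adj v u) (hc : Cut adj S t) {X : Set V}
    (hX : NonCore t X) (h : Con (sys adj) k X) : Mac adj k S 1 X := by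
  by_cases h1 : (X ∩ S).Nonempty
  · by_cases h2 : (X ∩ Sᶜ).Nonempty
    · refine Or.inr (Or.inl ⟨X ∩ S, X ∩ Sᶜ, ⟨Or.inl Set.inter_subset_right,
        con_inter hs hc hX h h1⟩, ⟨Or.inr Set.inter_subset_right,
        con_inter hs hc.compl hX h h2⟩, ?_, joinOK_inter hs hc hX h h1 h2,
        (Set.inter_union_compl X S).symm⟩)
      exact disjoint_compl_right.mono Set.inter_subset_right Set.inter_subset_right
    · refine Or.inl ⟨Or.inl fun x hx => ?_, h⟩
      by_contra hxS
      exact h2 ⟨x, hx, hxS⟩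
  · refine Or.inl ⟨Or.inr fun x hx hxS => h1 ⟨x, hx, hxS⟩, h⟩

end NLC
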