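import Pool.Agent.Lib.MP_8b2ae4_lc.C1

/-! # Stages -/

set_option autoImplicit false

namespace NLC

variable {V T : Type} {adj : V → V → Prop} {k : ℕ} {S : Set V} {t : V → T}

theorem out_anti {X X' : Set V} (h : X ⊆ X') : out t X' ⊆ out t X := by
  rintro τ ⟨v, hv, rfl⟩
  exact ⟨v, fun hx => hv (h hx), rfl⟩

theorem bet_mono {P X X' : Set V} (h : X ⊆ X') : bet adj S t P X ⊆ bet adj S t P X' := by
  rintro q ⟨x, y, u, hx, hy, h1, h2, hu, huP, h3, h4⟩
  exact ⟨x, y, u, hx, hy, h1, h2, h hu, huP, fun w hw hwS => h3 w (fun hx' => hw (h hx')) hwS,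
    fun w hw hwS => h4 w (fun hx' => hw (h hx')) hwS⟩

theorem bet_swap {P X : Set V} :
    bet adj Sᶜ t P X = Prod.swap '' bet adj S t P X := by
  apply Set.Subset.antisymm
  · rintro ⟨q1, q2⟩ ⟨x, y, u, hx, hy, h1, h2, hu, huP, h3, h4⟩
    refine ⟨(q2, q1), ⟨y, x, u, not_not.1 hy, hx, h2, h1, hu, huP, ?_, ?_⟩, rfl⟩
    · intro w hw hwS
      exact h4 w hw hwS
    · intro w hw hwS
      exact h3 w hw (fun hc => hc hwS)
  · rintro q ⟨⟨q1, q2⟩, ⟨x, y, u, hx, hy, h1, h2, hu, huP, h3, h4⟩, rfl⟩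
    refine ⟨y, x, u, hy, fun hc => hc hx, h2, h1, hu, huP, ?_, ?_⟩
    · intro w hw hwS
      exact h4 w hw (not_not.1 hwS)
    · intro w hw hwS
      exact h3 w hw hwS

/-- stages do not depend on the order of the two sides (`bet_swap`) -/
theorem SameStage.compl {X X' : Set V} (h : SameStage adj S t X X') :
    SameStage adj Sᶜ t X X' := by
  refine ⟨h.sub, h.out, ?_, ?_⟩
  · rw [bet_swap, bet_swap]
    exact Set.image_mono h.bet2
  · rw [bet_swap, bet_swap, compl_compl]
    exact Set.image_mono h.bet1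

/-- every pair of sets between two sets of the same stage is in the same stage -/
theorem SameStage.between {X X' Z Z' : Set V} (h : SameStage adj S t X X') (h1 : X ⊆ Z)
    (h2 : Z ⊆ Z') (h3 : Z' ⊆ X') : SameStage adj S t Z Z' :=
  ⟨h2, ((out_anti h1).trans h.out).trans (out_anti h3),
    ((bet_mono h3).trans h.bet1).trans (bet_mono h1),
    ((bet_mono h3).trans h.bet2).trans (bet_mono h1)⟩

end NLC
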