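import Pool.Agent.Lib.MP_8b2ae4_lc.C2a

/-! # The stage counter -/

set_option autoImplicit false

namespace NLC

/-- the stage counter: bounded, monotone, and constant only inside a stage.
`z X = (card T - (out t X).ncard) + (bet adj S t S X).ncard + (bet adj S t Sᶜ X).ncard`,
`B = card T + 2 * (card T)^2`. Use `out_anti`, `bet_mono`, `Set.ncard_le_ncard`,
`Set.eq_of_subset_of_ncard_le`. -/
theorem exists_stage_counter (T : Type) [Finite T] :
    ∃ B : ℕ, ∀ (V : Type) (adj : V → V → Prop) (S : Set V) (t : V → T),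
      ∃ z : Set V → ℕ, (∀ X, z X ≤ B) ∧ (∀ X X', X ⊆ X' → z X ≤ z X') ∧
        ∀ X X', X ⊆ X' → z X = z X' → SameStage adj S t X X' := by
  refine ⟨Nat.card T + (Nat.card (T × T) + Nat.card (T × T)), fun V adj S t => ?_⟩
  have hT : ∀ A : Set T, A.ncard ≤ Nat.card T := fun A => by
    rw [← Set.ncard_univ]; exact Set.ncard_le_ncard (Set.subset_univ A) (Set.toFinite _)
  have hTT : ∀ A : Set (T × T), A.ncard ≤ Nat.card (T × T) := fun A => by
    rw [← Set.ncard_univ]; exact Set.ncard_le_ncard (Set.subset_univ A) (Set.toFinite _)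
  have ho : ∀ X X' : Set V, X ⊆ X' → (out t X').ncard ≤ (out t X).ncard := fun X X' h =>
    Set.ncard_le_ncard (out_anti h) (Set.toFinite _)
  have hb : ∀ (P X X' : Set V), X ⊆ X' → (bet adj S t P X).ncard ≤ (bet adj S t P X').ncard :=
    fun P X X' h => Set.ncard_le_ncard (bet_mono h) (Set.toFinite _)
  refine ⟨fun X => (Nat.card T - (out t X).ncard) +
    ((bet adj S t S X).ncard + (bet adj S t Sᶜ X).ncard), ?_, ?_, ?_⟩
  · intro X
    have h1 := hTT (bet adj S t S X)
    have h2 := hTT (bet adj S t Sᶜ X)
    simp only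
    omega
  · intro X X' h
    have h1 := ho X X' h
    have h2 := hb S X X' h
    have h3 := hb Sᶜ X X' h
    simp only
    omega
  · intro X X' h hz
    have h1 := ho X X' h
    have h2 := hb S X X' h
    have h3 := hb Sᶜ X X' h
    have h4 := hT (out t X)
    simp only at hz
    refine ⟨h, ?_, ?_, ?_⟩
    · have he : out t X' = out t X :=
        Set.eq_of_subset_of_ncard_le (out_anti h) (by omega) (Set.toFinite _)
      exact he.symm.subset
    · have he : bet adj S t S X = bet adj S t S X' :=
        Set.eq_of_subset_of_ncard_le (bet_mono h) (by omega) (Set.toFinite _)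
      exact he.symm.subset
    · have he : bet adj S t Sᶜ X = bet adj S t Sᶜ X' :=
        Set.eq_of_subset_of_ncard_le (bet_mono h) (by omega) (Set.toFinite _)
      exact he.symm.subset

end NLC
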