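import Pool.Agent.Lib.MP_8b2ae4_lc.C2a

/-! # The two integers `p` and `q`: elementary facts -/

set_option autoImplicit false

namespace NLC

variable {V T : Type} {adj : V → V → Prop} {k : ℕ} {S : Set V} {t : V → T}

/-- `Con.rows` and `Set.ncard_le_ncard` -/
theorem po_le (hk : 1 ≤ k) {X : Set V} (h : Con (sys adj) k X) : po adj S X ≤ k := by
  obtain ⟨hf, hc⟩ := Con.rows hk h
  refine (Set.ncard_le_ncard ?_ hf).trans hc
  rintro _ ⟨⟨u, hu, rfl⟩, _⟩
  exact ⟨u, hu.1, rfl⟩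

/-- (2.5): every row outside `X'` is the restriction of a row outside `X`. Map a row
`ρ' = row adj X' w` (`w ∈ X' \ S = X \ S`, `ρ'` not a row of a vertex of `X' ∩ S`) to
`row adj X w` for a chosen `w`. It is not the row of a vertex `u ∈ X ∩ S`: else
`row adj X' w = row adj X' u`. Injective: `row adj X' w = row adj X w \ X'`.
(`Set.ncard_le_ncard_of_injOn`, or: the set on the left is contained in the image of the set on
the right under `ρ ↦ ρ \ X'`.) -/
theorem po_anti [Finite V] {X X' : Set V} (hXX' : X ⊆ X') (hS : X' \ S = X \ S) :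
    po adj Sᶜ X' ≤ po adj Sᶜ X := by
  have hrow : ∀ w, row adj X' w = row adj X w \ X' := by
    intro w
    ext x
    constructor
    · rintro ⟨h1, h2⟩
      exact ⟨⟨fun h => h1 (hXX' h), h2⟩, h1⟩
    · rintro ⟨⟨_, h2⟩, h1⟩
      exact ⟨h1, h2⟩
  unfold po
  refine (Set.ncard_le_ncard ?_ (Set.toFinite _)).trans
    (Set.ncard_image_le (f := fun ρ : Set V => ρ \ X') (Set.toFinite _))
  rintro _ ⟨⟨w, hw, rfl⟩, hn⟩
  have hwX : w ∈ X \ S := by
    rw [← hS]
    exact hw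
  refine ⟨row adj X w, ⟨⟨w, ⟨hwX.1, hwX.2⟩, rfl⟩, ?_⟩, (hrow w).symm⟩
  rintro ⟨u, hu, hue⟩
  exact hn ⟨u, ⟨hXX' hu.1, hu.2⟩, by rw [hrow, hrow, hue]⟩

end NLC
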