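import Pool.Agent.Lib.MP_8b2ae4_lc.C2a

/-! # `p` inside a stage -/

set_option autoImplicit false

namespace NLC

variable {V T : Type} {adj : V → V → Prop} {k : ℕ} {S : Set V} {t : V → T}

private theorem C3b_row {X : Set V} {u v : V} :
    row adj X u = row adj X v ↔ ∀ w, w ∉ X → (adj u w ↔ adj v w) := by
  constructor
  · intro h w hw
    have h1 : w ∈ row adj X u ↔ w ∈ row adj X v := by rw [h]
    constructor
    · intro h2
      exact (h1.mp ⟨hw, h2⟩).2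
    · intro h2
      exact (h1.mpr ⟨hw, h2⟩).2
  · intro h
    ext w
    constructor
    · rintro ⟨h1, h2⟩
      exact ⟨h1, (h w h1).mp h2⟩
    · rintro ⟨h1, h2⟩
      exact ⟨h1, (h w h1).mpr h2⟩

private theorem C3b_f {X X' : Set V} (h : X ⊆ X') (u : V) :
    {w | w ∈ row adj X u ∧ w ∉ X'} = row adj X' u := by
  ext w
  constructor
  · rintro ⟨⟨_, h2⟩, h3⟩
    exact ⟨h3, h2⟩
  · rintro ⟨h1, h2⟩
    exact ⟨⟨fun h3 => h1 (h h3), h2⟩, h1⟩

/-- (2.6): the map `ρ ↦ ρ \ X'` sends the rows (outside `X`) of vertices of `X ∩ S` which are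
not rows of vertices of `X \ S` injectively to the rows (outside `X'`) of vertices of `X' ∩ S`
which are not rows of vertices of `X' \ S`.
Injective: let `u, v ∈ X ∩ S` have the same row outside `X'`, let `w ∉ X`. If `w ∈ S` then
`w ∉ X'` (as `X' ∩ S = X ∩ S`). If `w ∉ S` then `t w ∈ out t X ⊆ out t X'`, so there is `w' ∉ X'`
with `t w' = t w`, and `adj u w ↔ adj u w' ↔ adj v w' ↔ adj v w`.
Not a row of `w ∈ X' \ S`: suppose `row adj X' w = row adj X' u`, `u ∈ X ∩ S`. Then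
`(t u, t w) ∈ bet adj S t Sᶜ X'` (witnesses `x = u`, `y = w`, `u = w`), hence
`(t u, t w) ∈ bet adj S t Sᶜ X` by `h.bet2`: there are `x ∈ S`, `y ∉ S`, `w' ∈ X \ S` with
`t x = t u`, `t y = t w`, and outside `X` the vertex `w'` has the neighbours of `x` in `Sᶜ` (these
are the neighbours of `u`, by `hc`) and the neighbours of `y` in `S` (these are the neighbours of
`w` in `S`, by `hc`, and for `z ∈ S`, `z ∉ X` we have `z ∉ X'`, so they are the neighbours of `u`).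
So `row adj X w' = row adj X u`, a contradiction. -/
theorem po_stage [Finite V] (hs : ∀ u v, adj u v → adj v u) (hc : Cut adj S t) {X X' : Set V}
    (h : SameStage adj S t X X') (hS : X' ∩ S = X ∩ S) : po adj S X ≤ po adj S X' := by
  have hXX := h.sub
  have key : ∀ z, z ∈ S → z ∉ X → z ∉ X' := by
    intro z hz hzX hzX'
    have h1 : z ∈ X' ∩ S := ⟨hzX', hz⟩
    rw [hS] at h1
    exact hzX h1.1
  refine Set.ncard_le_ncard_of_injOn (fun ρ => {w | w ∈ ρ ∧ w ∉ X'}) ?_ ?_ (Set.toFinite _)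
  · rintro _ ⟨⟨u, ⟨huX, huS⟩, rfl⟩, hnot⟩
    show {w | w ∈ row adj X u ∧ w ∉ X'} ∈ _
    rw [C3b_f hXX]
    refine ⟨⟨u, ⟨hXX huX, huS⟩, rfl⟩, ?_⟩
    rintro ⟨w, ⟨hwX, hwS⟩, hw⟩
    have hrow := C3b_row.mp hw
    have hb : (t u, t w) ∈ bet adj S t Sᶜ X' :=
      ⟨u, w, w, huS, hwS, rfl, rfl, hwX, hwS, fun z hz _ => hrow z hz, fun z _ _ => Iff.rfl⟩
    obtain ⟨x, y, w', hx, hy, htx, hty, hw'X, hw'S, h1, h2⟩ := h.bet2 hb
    refine hnot ⟨w', ⟨hw'X, hw'S⟩, C3b_row.mpr ?_⟩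
    intro z hz
    by_cases hzS : z ∈ S
    · have h3 := (hc y w hty).2 z
        ⟨fun h4 => absurd h4 hy, fun h4 => absurd hzS h4⟩
      exact ((h2 z hz hzS).trans h3).trans (hrow z (key z hzS hz))
    · have h3 := (hc x u htx).2 z ⟨fun _ => hzS, fun _ => hx⟩
      exact (h1 z hz hzS).trans h3
  · rintro _ ⟨⟨u, ⟨huX, huS⟩, rfl⟩, _⟩ _ ⟨⟨v, ⟨hvX, hvS⟩, rfl⟩, _⟩ huv
    have huv' : {w | w ∈ row adj X u ∧ w ∉ X'} = {w | w ∈ row adj X v ∧ w ∉ X'} := huv
    rw [C3b_f hXX, C3b_f hXX] at huv'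
    have hrow := C3b_row.mp huv'
    refine C3b_row.mpr ?_
    intro w hw
    by_cases hwS : w ∈ S
    · exact hrow w (key w hwS hw)
    · obtain ⟨w', hw', ht⟩ := h.out ⟨w, hw, rfl⟩
      have h1 : ∀ z, z ∈ S → (adj z w ↔ adj z w') := by
        intro z hz
        have h2 := (hc w' w ht).2 z ⟨fun h4 => absurd ((hc w' w ht).1.mp h4) hwS,
          fun h4 => absurd hz h4⟩
        exact ⟨fun h3 => hs _ _ (h2.mpr (hs _ _ h3)), fun h3 => hs _ _ (h2.mp (hs _ _ h3))⟩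
      exact ((h1 u huS).trans (hrow w' hw')).trans (h1 v hvS).symm

end NLC
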