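import Pool.Agent.Lib.MP_8b2ae4_lc.C1

/-! # The transfer lemma -/

set_option autoImplicit false

namespace NLC

variable {V T : Type} {adj : V → V → Prop} {k : ℕ} {S : Set V} {t : V → T}

/-- (2.7). Let `l` be the labelling of `JoinOK.all` for `X`, `Y`; `Z = X ∪ Y`, `C = X ∩ S`,
`A = Y ∩ S`, `F` = labels not used by `l` on `C ∪ A`.
(i) `(rows outside Z of Z \ S that are not rows of Z ∩ S).ncard ≤ F.ncard`: for every such row
choose `w ∈ Z \ S` with this row; `l w ∈ F`, because `l w = l u` with `u ∈ C ∪ A = Z ∩ S` gives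
`sys adj Z w u`, i.e. the row of `w` is the row of `u`; different rows give different labels.
(ii) By `hq` there is an injection `g` from the set of rows (outside `X₀`) of `X₀ \ S` which are
not rows of `X₀ ∩ S` into `F` (e.g. `Set.exists_injOn_of_ncard_le` / `Finset` / `Function.Embedding`
on subtypes).
(iii) New labelling: `l' u = l u` for `u ∈ S`; for `w ∉ S`: if there is `u ∈ C` with
`row adj X₀ u = row adj X₀ w`, then `l' w = l u` for a chosen such `u`, otherwise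
`l' w = g (row adj X₀ w)`.
Check: (a) `u, v ∈ X₀`, `l' u = l' v`: for `u, v ∈ S` by `h1`; if `w ∉ S` has a chosen `u` replace
`w` by `u` (`sys_trans`); two vertices of the second kind: `g` injective; first against second
kind: `F` contains no label of `C`.
(b) `u, v ∈ A`: `l u = l v` gives `sys adj Y u v`, then `sys_inter` (`hY`).
(c) `u ∈ X₀`, `v ∈ A`: `u ∈ S`: `l u = l v` gives `sys adj Z u v`, then `h2`; `u ∉ S` with a chosen
`c ∈ C`: `sys adj (X₀ ∪ A) c v` as before and `sys adj X₀ u c`, `sys_mono`, `sys_trans`; second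
kind: impossible because `l v ∉ F`. -/
theorem transfer [Finite V] (hs : ∀ u v, adj u v → adj v u) (hc : Cut adj S t) {X Y X₀ : Set V}
    (hY : NonCore t Y) (hJ : JoinOK (sys adj) k X Y)
    (hS : X₀ ∩ S = X ∩ S)
    (h1 : ∀ u ∈ S, ∀ v ∈ S, sys adj X u v → sys adj X₀ u v)
    (h2 : ∀ u ∈ S, ∀ v ∈ S, sys adj (X ∪ Y) u v → sys adj (X₀ ∪ (Y ∩ S)) u v)
    (hq : po adj Sᶜ X₀ ≤ po adj Sᶜ (X ∪ Y)) : JoinOK (sys adj) k X₀ (Y ∩ S) := by
  classical
  obtain ⟨l, hl1, hl2, hl3⟩ := hJ.all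
  rcases isEmpty_or_nonempty V with hV | ⟨⟨v0⟩⟩
  · exact ⟨l, fun u _ => (hV.false u).elim, fun u _ => (hV.false u).elim,
      fun u _ => (hV.false u).elim⟩
  have : Nonempty (Fin k) := ⟨l v0⟩
  set P : Set (Set V) := (row adj (X ∪ Y) '' ((X ∪ Y) ∩ Sᶜ)) \ (row adj (X ∪ Y) '' ((X ∪ Y) \ Sᶜ))
    with hP
  set P₀ : Set (Set V) := (row adj X₀ '' (X₀ ∩ Sᶜ)) \ (row adj X₀ '' (X₀ \ Sᶜ)) with hP₀
  set F : Set (Fin k) := {a | ∀ u ∈ X ∪ Y, u ∈ S → l u ≠ a} with hF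
  have hPF : P.ncard ≤ F.ncard := by
    have hch : ∀ ρ : Set V, ∃ w : V, ρ ∈ P → w ∈ X ∪ Y ∧ row adj (X ∪ Y) w = ρ := by
      intro ρ
      by_cases hρ : ρ ∈ P
      · obtain ⟨w, hw, e⟩ := hρ.1
        exact ⟨w, fun _ => ⟨hw.1, e⟩⟩
      · exact ⟨v0, fun h => (hρ h).elim⟩
    choose w hw using hch
    refine Set.ncard_le_ncard_of_injOn (fun ρ => l (w ρ)) ?_ ?_ (Set.toFinite _)
    · intro ρ hρ u hu huS he
      obtain ⟨hw1, hw2⟩ := hw ρ hρ
      apply hρ.2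
      refine ⟨u, ⟨hu, fun h => h huS⟩, ?_⟩
      rw [← hw2]
      exact sys_iff_row.1 (hl3 u hu (w ρ) hw1 he)
    · intro ρ hρ ρ' hρ' he
      obtain ⟨hw1, hw2⟩ := hw ρ hρ
      obtain ⟨hw1', hw2'⟩ := hw ρ' hρ'
      rw [← hw2, ← hw2']
      exact sys_iff_row.1 (hl3 _ hw1 _ hw1' he)
  have hle : P₀.encard ≤ F.encard := by
    have h3 : P₀.ncard ≤ F.ncard := le_trans hq hPF
    rw [← (Set.toFinite P₀).cast_ncard_eq, ← (Set.toFinite F).cast_ncard_eq]
    exact_mod_cast h3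
  obtain ⟨g, hg1, hg2⟩ := (Set.toFinite P₀).exists_injOn_of_encard_le hle
  set l' : V → Fin k := fun w => if w ∈ S then l w else
    if h : ∃ u ∈ X ∩ S, row adj X₀ u = row adj X₀ w then l (Classical.choose h)
    else g (row adj X₀ w) with hl'
  have hcase : ∀ w ∈ X₀, (∃ c ∈ X, c ∈ S ∧ sys adj X₀ w c ∧ l' w = l c) ∨
      (row adj X₀ w ∈ P₀ ∧ l' w = g (row adj X₀ w)) := by
    intro w hw
    by_cases hwS : w ∈ S
    · have hwX : w ∈ X ∩ S := by rw [← hS]; exact ⟨hw, hwS⟩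
      exact Or.inl ⟨w, hwX.1, hwS, sys_refl _ _, by simp only [hl', if_pos hwS]⟩
    · by_cases h : ∃ u ∈ X ∩ S, row adj X₀ u = row adj X₀ w
      · left
        obtain ⟨hc1, hc2⟩ := Classical.choose_spec h
        exact ⟨Classical.choose h, hc1.1, hc1.2, sys_symm (sys_iff_row.2 hc2), by
          simp only [hl', if_neg hwS, dif_pos h]⟩
      · right
        refine ⟨⟨⟨w, ⟨hw, hwS⟩, rfl⟩, ?_⟩, by simp only [hl', if_neg hwS, dif_neg h]⟩
        rintro ⟨u, ⟨hu1, hu2⟩, e⟩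
        apply h
        have huS : u ∈ S := not_not.1 hu2
        refine ⟨u, ?_, e⟩
        rw [← hS]
        exact ⟨hu1, huS⟩
  have hlY : ∀ v ∈ Y ∩ S, l' v = l v := fun v hv => by simp only [hl', if_pos hv.2]
  refine ⟨l', ?_, ?_, ?_⟩
  · intro u hu v hv he
    rcases hcase u hu with ⟨c, hc1, hc2, hc3, hc4⟩ | ⟨hu1, hu2⟩
    · rcases hcase v hv with ⟨c', hc1', hc2', hc3', hc4'⟩ | ⟨hv1, hv2⟩
      · have h3 : sys adj X c c' := hl1 c hc1 c' hc1' (by rw [← hc4, ← hc4', he])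
        exact sys_trans hc3 (sys_trans (h1 c hc2 c' hc2' h3) (sys_symm hc3'))
      · exact (hg1 hv1 c (Or.inl hc1) hc2 (by rw [← hc4, ← hv2, he])).elim
    · rcases hcase v hv with ⟨c', hc1', hc2', hc3', hc4'⟩ | ⟨hv1, hv2⟩
      · exact (hg1 hu1 c' (Or.inl hc1') hc2' (by rw [← hc4', ← hu2, he])).elim
      · exact sys_iff_row.2 (hg2 hu1 hv1 (by rw [← hu2, ← hv2, he]))
  · intro u hu v hv he
    rw [hlY u hu, hlY v hv] at he
    exact sys_inter hs hc hY hu.2 hv.2 (hl2 u hu.1 v hv.1 he)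
  · intro u hu v hv he
    rw [hlY v hv] at he
    rcases hcase u hu with ⟨c, hc1, hc2, hc3, hc4⟩ | ⟨hu1, hu2⟩
    · have h3 : sys adj (X ∪ Y) c v := hl3 c (Or.inl hc1) v (Or.inr hv.1) (by rw [← hc4, he])
      exact sys_trans (sys_mono Set.subset_union_left hc3) (h2 c hc2 v hv.2 h3)
    · exact (hg1 hu1 v (Or.inr hv.1) hv.2 (by rw [← hu2, he])).elim

end NLC
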