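import Pool.Agent.Lib.MP_8b2ae4_lc.C3a
import Pool.Agent.Lib.MP_8b2ae4_lc.C4

/-! # Jumps: first chain -/

set_option autoImplicit false

namespace NLC

variable {V T : Type} {adj : V → V → Prop} {k : ℕ} {S : Set V} {t : V → T} {X Y : ℕ → Set V}
  {r : ℕ}

theorem HookSeq.compl (h : HookSeq adj k S t X Y r) : HookSeq adj k Sᶜ t X Y r :=
  ⟨h.step, h.con, h.nc, h.disj, h.join, h.stage.compl⟩

theorem HookSeq.sub (h : HookSeq adj k S t X Y r) {i j : ℕ} (hij : i ≤ j) (hj : j ≤ r) :
    X i ⊆ X j := by
  induction j, hij using Nat.le_induction with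
  | base => exact subset_rfl
  | succ j _ ih =>
    rw [h.step j (by omega)]
    exact (ih (by omega)).trans Set.subset_union_left

private theorem c5a_tr (hs : ∀ u v, adj u v → adj v u) (hc : Cut adj S t) {P Q Z : Set V}
    (hout : out t P ⊆ out t Q) (hZ : ∀ w, w ∉ Z → w ∈ S → w ∉ Q)
    (hZ' : ∀ w, w ∉ Z → w ∉ S → w ∉ P) {u v : V} (hu : u ∈ S) (hv : v ∈ S)
    (h : sys adj Q u v) : sys adj Z u v := by
  intro w hw
  by_cases hwS : w ∈ S
  · exact h w (hZ w hw hwS)
  · obtain ⟨w', hw', ht⟩ := hout ⟨w, hZ' w hw hwS, rfl⟩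
    have h1 : ∀ x ∈ S, (adj x w ↔ adj x w') := by
      intro x hx
      have h2 := (hc w w' ht.symm).2 x ⟨fun h3 => absurd h3 hwS, fun h3 => absurd hx h3⟩
      exact ⟨fun h3 => hs _ _ (h2.1 (hs _ _ h3)), fun h3 => hs _ _ (h2.2 (hs _ _ h3))⟩
    rw [h1 u hu, h1 v hv]
    exact h w' hw'

/-- (2.8), first chain. Induction on `l` from `j` to `i`: `Chain adj k S (X j) ((X l ∩ S) ∪
(X j \ S))`. Step `l < i`: if `Y l ∩ S = ∅` nothing changes (`h.step`). Otherwise one `Step` with
`A = Y l ∩ S` (`con_inter`, `h.disj`), where `JoinOK` comes from `transfer` with `X := X l`,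
`Y := Y l`, `X₀ := (X l ∩ S) ∪ (X j \ S)`:
`h1`: `u, v ∈ S` with `sys adj (X l) u v`, `w ∉ X₀`: if `w ∈ S` then `w ∉ X l`; if `w ∉ S` then
`w ∉ X j`, `t w ∈ out t (X j) ⊆ out t (X l)` (stage: `h.stage.between`, or `h.stage.out` and
`out_anti`), so `w` has a twin `w' ∉ X l`, `adj u w ↔ adj u w' ↔ adj v w' ↔ adj v w`.
`h2`: the same with `X (l+1) = X l ∪ Y l`.
`hq`: `po adj Sᶜ X₀ ≤ po adj Sᶜ (X j)` by `po_anti` and `≤ po adj Sᶜ (X (l+1))` by `hq`. -/
theorem HookSeq.jump1 [Finite V] (hs : ∀ u v, adj u v → adj v u) (hc : Cut adj S t)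
    (h : HookSeq adj k S t X Y r) {j i : ℕ} (hji : j ≤ i) (hi : i ≤ r)
    (hq : ∀ x, j ≤ x → x ≤ i → po adj Sᶜ (X j) ≤ po adj Sᶜ (X x)) :
    Chain adj k S (X j) ((X i ∩ S) ∪ (X j \ S)) := by
  have key : ∀ l, j ≤ l → l ≤ i → Chain adj k S (X j) ((X l ∩ S) ∪ (X j \ S)) := by
    intro l hl
    induction l, hl using Nat.le_induction with
    | base =>
      intro _
      rw [Set.inter_union_sdiff]
      exact Relation.ReflTransGen.refl
    | succ l hjl ih =>
      intro hli
      have ih' := ih (by omega)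
      have hlr : l < r := by omega
      have hstep := h.step l hlr
      have hsub : X j ⊆ X l := h.sub hjl hlr.le
      have hW : (X (l + 1) ∩ S) ∪ (X j \ S) = ((X l ∩ S) ∪ (X j \ S)) ∪ (Y l ∩ S) := by
        rw [hstep, Set.union_inter_distrib_right, Set.union_assoc, Set.union_assoc,
          Set.union_comm (Y l ∩ S)]
      rcases Set.eq_empty_or_nonempty (Y l ∩ S) with he | hne
      · rw [hW, he, Set.union_empty]
        exact ih'
      · refine Relation.ReflTransGen.tail ih' ⟨Y l ∩ S, Set.inter_subset_right,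
          con_inter hs hc (h.nc l hlr) (h.con l hlr) hne, ?_, ?_, hW⟩
        · rw [Set.disjoint_left]
          rintro w (hw | hw) hw'
          · exact Set.disjoint_left.1 (h.disj l hlr) hw.1 hw'.1
          · exact hw.2 hw'.2
        · have hst := h.stage
          refine transfer hs hc (h.nc l hlr) (h.join l hlr) ?_ ?_ ?_ ?_
          · ext w
            constructor
            · rintro ⟨hw | hw, hwS⟩
              · exact hw
              · exact absurd hwS hw.2
            · intro hw
              exact ⟨Or.inl hw, hw.2⟩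
          · intro u hu v hv huv
            have hst1 := hst.between (h.sub (Nat.zero_le j) (by omega)) hsub
              (h.sub hlr.le le_rfl)
            exact c5a_tr hs hc hst1.out (fun w hw hwS hwX => hw (Or.inl ⟨hwX, hwS⟩))
              (fun w hw hwS hwX => hw (Or.inr ⟨hwX, hwS⟩)) hu hv huv
          · intro u hu v hv huv
            have hst1 := hst.between (h.sub (Nat.zero_le j) (by omega))
              (h.sub (show j ≤ l + 1 by omega) (by omega)) (h.sub (show l + 1 ≤ r by omega) le_rfl)
            rw [← hstep] at huv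
            refine c5a_tr hs hc hst1.out (fun w hw hwS hwX => ?_)
              (fun w hw hwS hwX => hw (Or.inl (Or.inr ⟨hwX, hwS⟩))) hu hv huv
            rw [hstep] at hwX
            rcases hwX with hwX | hwX
            · exact hw (Or.inl (Or.inl ⟨hwX, hwS⟩))
            · exact hw (Or.inr ⟨hwX, hwS⟩)
          · rw [← hstep]
            refine le_trans (po_anti (X := X j) ?_ ?_) (hq (l + 1) (by omega) hli)
            · intro w hw
              by_cases hwS : w ∈ S
              · exact Or.inl ⟨hsub hw, hwS⟩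
              · exact Or.inr ⟨hw, hwS⟩
            · ext w
              constructor
              · rintro ⟨hw | hw, hwS⟩
                · exact absurd hw.2 hwS
                · exact hw
              · intro hw
                exact ⟨Or.inr hw, hw.2⟩
  exact key i hji le_rfl

end NLC
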