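import Pool.Agent.Lib.MP_8b2ae4_lc.C5a
import Pool.Agent.Lib.MP_8b2ae4_lc.C3b

/-! # Jumps: second chain -/

set_option autoImplicit false

namespace NLC

variable {V T : Type} {adj : V → V → Prop} {k : ℕ} {S : Set V} {t : V → T} {X Y : ℕ → Set V}
  {r : ℕ}

/-- (2.8), second chain. Induction on `l` from `j` to `i`: `Chain adj k Sᶜ ((X i ∩ S) ∪ (X j \ S))
((X i ∩ S) ∪ (X l \ S))`. Step `l < i`: if `Y l ∩ Sᶜ = ∅` nothing changes. Otherwise one `Step`
with `A = Y l ∩ Sᶜ` (`con_inter` for `hc.compl`), where `JoinOK` comes from `transfer` for `Sᶜ`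
(`hc.compl`) with `X := X l`, `Y := Y l`, `X₀ := (X i ∩ S) ∪ (X l \ S)`; here `X l ⊆ X₀` and
`X l ∪ Y l ⊆ X₀ ∪ (Y l ∩ Sᶜ)`, so `h1`, `h2` are `sys_mono`;
`hq`: `po adj Sᶜᶜ X₀ = po adj S X₀ ≤ po adj S (X i)` by `po_stage` (stage of `X₀ ⊆ X i`:
`h.stage.between`, as `X 0 ⊆ X l ⊆ X₀ ⊆ X i ⊆ X r`) and `≤ po adj S (X (l+1))` by `hp`. -/
theorem HookSeq.jump2 [Finite V] (hs : ∀ u v, adj u v → adj v u) (hc : Cut adj S t)
    (h : HookSeq adj k S t X Y r) {j i : ℕ} (hji : j ≤ i) (hi : i ≤ r)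
    (hp : ∀ x, j ≤ x → x ≤ i → po adj S (X i) ≤ po adj S (X x)) :
    Chain adj k Sᶜ ((X i ∩ S) ∪ (X j \ S)) (X i) := by
  have key : ∀ l, j ≤ l → l ≤ i →
      Chain adj k Sᶜ ((X i ∩ S) ∪ (X j \ S)) ((X i ∩ S) ∪ (X l \ S)) := by
    intro l hjl
    induction l, hjl using Nat.le_induction with
    | base => intro _; exact Relation.ReflTransGen.refl
    | succ l hjl ih =>
      intro hli
      have hlr : l < r := lt_of_lt_of_le hli hi
      have hch := ih (by omega)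
      have hst := h.step l hlr
      have hZ : (X i ∩ S) ∪ (X (l + 1) \ S) = ((X i ∩ S) ∪ (X l \ S)) ∪ (Y l ∩ Sᶜ) := by
        rw [hst, Set.union_sdiff_distrib, ← Set.union_assoc]
        rfl
      rcases Set.eq_empty_or_nonempty (Y l ∩ Sᶜ) with h0 | hne
      · rw [hZ, h0, Set.union_empty]
        exact hch
      · have hsl : X l ⊆ X i := h.sub (by omega) hi
        have hsl1 : X (l + 1) ⊆ X i := h.sub hli hi
        have hZi : (X i ∩ S) ∪ (X l \ S) ⊆ X i :=
          Set.union_subset Set.inter_subset_left (Set.sdiff_subset.trans hsl)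
        have hlZ : X l ⊆ (X i ∩ S) ∪ (X l \ S) := by
          intro v hv
          by_cases hvS : v ∈ S
          · exact Or.inl ⟨hsl hv, hvS⟩
          · exact Or.inr ⟨hv, hvS⟩
        have hl1Z : X l ∪ Y l ⊆ ((X i ∩ S) ∪ (X l \ S)) ∪ (Y l ∩ Sᶜ) := by
          rw [← hst, ← hZ]
          intro v hv
          by_cases hvS : v ∈ S
          · exact Or.inl ⟨hsl1 hv, hvS⟩
          · exact Or.inr ⟨hv, hvS⟩
        have hstage : SameStage adj S t ((X i ∩ S) ∪ (X l \ S)) (X i) :=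
          h.stage.between ((h.sub (Nat.zero_le _) hlr.le).trans hlZ) hZi (h.sub hi le_rfl)
        have hpo : po adj Sᶜᶜ ((X i ∩ S) ∪ (X l \ S)) ≤ po adj Sᶜᶜ (X l ∪ Y l) := by
          rw [compl_compl, ← hst]
          refine (po_stage hs hc hstage ?_).trans (hp (l + 1) (by omega) hli)
          ext v
          constructor
          · rintro ⟨hv, hvS⟩
            exact ⟨Or.inl ⟨hv, hvS⟩, hvS⟩
          · rintro ⟨hv, hvS⟩
            exact ⟨hZi hv, hvS⟩
        have hjoin : JoinOK (sys adj) k ((X i ∩ S) ∪ (X l \ S)) (Y l ∩ Sᶜ) := by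
          refine transfer hs hc.compl (h.nc l hlr) (h.join l hlr) ?_
            (fun u _ v _ huv => sys_mono hlZ huv) (fun u _ v _ huv => sys_mono hl1Z huv) hpo
          ext v
          constructor
          · rintro ⟨hv | hv, hvS⟩
            · exact absurd hv.2 hvS
            · exact ⟨hv.1, hvS⟩
          · rintro ⟨hv, hvS⟩
            exact ⟨Or.inr ⟨hv, hvS⟩, hvS⟩
        refine hch.tail ⟨Y l ∩ Sᶜ, Set.inter_subset_right,
          con_inter hs hc.compl (h.nc l hlr) (h.con l hlr) hne, ?_, hjoin, hZ⟩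
        rw [Set.disjoint_left]
        rintro v (hv | hv) hv'
        · exact hv'.2 hv.2
        · exact Set.disjoint_left.1 (h.disj l hlr) hv.1 hv'.1
  have h1 := key i hji le_rfl
  have h2 : (X i ∩ S) ∪ (X i \ S) = X i := Set.inter_union_sdiff _ _
  rw [h2] at h1
  exact h1

/-- (2.8) in terms of macro derivations -/
theorem HookSeq.jump [Finite V] (hs : ∀ u v, adj u v → adj v u) (hc : Cut adj S t)
    (h : HookSeq adj k S t X Y r) {j i : ℕ} (hji : j ≤ i) (hi : i ≤ r)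
    (hq : ∀ x, j ≤ x → x ≤ i → po adj Sᶜ (X j) ≤ po adj Sᶜ (X x))
    (hp : ∀ x, j ≤ x → x ≤ i → po adj S (X i) ≤ po adj S (X x)) {n : ℕ}
    (hM : Mac adj k S n (X j)) : Mac adj k S (n + 2) (X i) :=
  Or.inr (Or.inr (Or.inr ⟨_, Or.inr (Or.inr (Or.inl ⟨_, hM, h.jump1 hs hc hji hi hq⟩)),
    h.jump2 hs hc hji hi hp⟩))

/-- (2.8) with the two sides exchanged: the two chains for `h.compl`, `hc.compl`; the first one is
a `Sᶜ`-chain, the second one a `Sᶜᶜ`-chain. -/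
theorem HookSeq.jump' [Finite V] (hs : ∀ u v, adj u v → adj v u) (hc : Cut adj S t)
    (h : HookSeq adj k S t X Y r) {j i : ℕ} (hji : j ≤ i) (hi : i ≤ r)
    (hp : ∀ x, j ≤ x → x ≤ i → po adj S (X j) ≤ po adj S (X x))
    (hq : ∀ x, j ≤ x → x ≤ i → po adj Sᶜ (X i) ≤ po adj Sᶜ (X x)) {n : ℕ}
    (hM : Mac adj k S n (X j)) : Mac adj k S (n + 2) (X i) := by
  have h1 := h.compl.jump1 hs hc.compl hji hi (by rw [compl_compl]; exact hp)
  have h2 := h.compl.jump2 hs hc.compl hji hi hq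
  rw [compl_compl] at h2
  exact Or.inr (Or.inr (Or.inl ⟨_, Or.inr (Or.inr (Or.inr ⟨_, hM, h1⟩)), h2⟩))

end NLC
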