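import Pool.Agent.Lib.MP_8b2ae4_lc.Defs

/-! # The covering argument (pure arithmetic) -/

set_option autoImplicit false

namespace NLC

/-- the cost of a stage: `c 0 = 0`, `c (d + 1) = 2 * c d + 6` -/
def cst : ℕ → ℕ
  | 0 => 0
  | d + 1 => 2 * cst d + 6

/-- (2.9) abstract covering argument: `R n i` is to be read '`X i` has a macro derivation of
depth `n`'. Induction on `d` (for all `s`, `e`, `n`). `d = 0` is impossible (`p s ≤ k`).
Step: if all `p x ≥ k + 1 - d` on `[s, e]` use the induction hypothesis (and `hmono`). Otherwise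
the minimum of `p` on `[s, e]` is `m = k - d`; let `i₁`, `i₂` be the first and the last position
in `[s, e]` where `p` takes the value `m`. On `[s, i₁ - 1]` (if `s < i₁`) and on `[i₂ + 1, e]`
(if `i₂ < e`) we have `p ≥ m + 1`: induction hypothesis, together with one `hone` step from
`i₁ - 1` to `i₁` and one from `i₂` to `i₂ + 1`. From `i₁` to `i₂`: let `j ∈ [i₁, i₂]` be a position
where `q` is minimal on `[i₁, i₂]`; `hjump'` from `i₁` to `j` and `hjump` from `j` to `i₂`. Total
cost `c + 1 + 2 + 2 + 1 + c`. -/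
theorem cover_abstract (R : ℕ → ℕ → Prop) (p q : ℕ → ℕ) (k r : ℕ)
    (hmono : ∀ n m i, n ≤ m → R n i → R m i)
    (hone : ∀ n i, 1 ≤ n → i < r → R n i → R (n + 1) (i + 1))
    (hjump : ∀ n j i, j ≤ i → i ≤ r → (∀ x, j ≤ x → x ≤ i → q j ≤ q x) →
      (∀ x, j ≤ x → x ≤ i → p i ≤ p x) → R n j → R (n + 2) i)
    (hjump' : ∀ n j i, j ≤ i → i ≤ r → (∀ x, j ≤ x → x ≤ i → p j ≤ p x) →
      (∀ x, j ≤ x → x ≤ i → q i ≤ q x) → R n j → R (n + 2) i)
    (d s e : ℕ) (hse : s ≤ e) (he : e ≤ r) (hp : ∀ x, s ≤ x → x ≤ e → p x ≤ k ∧ k + 1 ≤ p x + d)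
    {n : ℕ} (hn : 1 ≤ n) (h : R n s) : R (n + cst d) e := by
  induction d generalizing s e n with
  | zero =>
    exfalso
    have := hp s le_rfl hse
    omega
  | succ d ih =>
    have hc : cst (d + 1) = 2 * cst d + 6 := rfl
    rw [hc]
    by_cases hall : ∀ x, s ≤ x → x ≤ e → k + 1 ≤ p x + d
    · have h1 := ih s e hse he (fun x hx hx' => ⟨(hp x hx hx').1, hall x hx hx'⟩) hn h
      exact hmono _ _ _ (by omega) h1
    · push Not at hall
      obtain ⟨x₀, hx₀, hx₀', hx₀p⟩ := hall
      set T : Finset ℕ := (Finset.Icc s e).filter (fun x => p x + d < k + 1) with hT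
      have hmem : ∀ x, x ∈ T ↔ (s ≤ x ∧ x ≤ e) ∧ p x + d < k + 1 := by
        intro x
        rw [hT, Finset.mem_filter, Finset.mem_Icc]
      have hne : T.Nonempty := ⟨x₀, (hmem x₀).2 ⟨⟨hx₀, hx₀'⟩, hx₀p⟩⟩
      obtain ⟨i₁, hi₁, hmin⟩ := Finset.exists_min_image T id hne
      obtain ⟨i₂, hi₂, hmax⟩ := Finset.exists_max_image T id hne
      simp only [id] at hmin hmax
      obtain ⟨⟨hs1, he1⟩, hp1⟩ := (hmem i₁).1 hi₁
      obtain ⟨⟨hs2, he2⟩, hp2⟩ := (hmem i₂).1 hi₂
      have h12 : i₁ ≤ i₂ := hmin i₂ hi₂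
      obtain ⟨j, hj, hjmin⟩ := Finset.exists_min_image (Finset.Icc i₁ i₂) q
        ⟨i₁, Finset.mem_Icc.2 ⟨le_rfl, h12⟩⟩
      rw [Finset.mem_Icc] at hj
      have hA : R (n + cst d + 1) i₁ := by
        rcases Nat.eq_or_lt_of_le hs1 with h1 | h1
        · rw [← h1]
          exact hmono _ _ _ (by omega) h
        · have h2 := ih s (i₁ - 1) (by omega) (by omega) (fun x hx hx' => by
            refine ⟨(hp x hx (by omega)).1, ?_⟩
            by_contra hcon
            have := hmin x ((hmem x).2 ⟨⟨hx, by omega⟩, by omega⟩)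
            omega) hn h
          have h3 := hone (n + cst d) (i₁ - 1) (by omega) (by omega) h2
          rwa [Nat.sub_add_cancel (by omega)] at h3
      have hB : R (n + cst d + 1 + 2) j := by
        refine hjump' _ i₁ j hj.1 (by omega) (fun x hx hx' => ?_) (fun x hx hx' => ?_) hA
        · have := (hp x (by omega) (by omega)).2
          omega
        · exact hjmin x (Finset.mem_Icc.2 ⟨hx, by omega⟩)
      have hC : R (n + cst d + 1 + 2 + 2) i₂ := by
        refine hjump _ j i₂ hj.2 (by omega) (fun x hx hx' => ?_) (fun x hx hx' => ?_) hB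
        · exact hjmin x (Finset.mem_Icc.2 ⟨by omega, hx'⟩)
        · have := (hp x (by omega) (by omega)).2
          omega
      rcases Nat.eq_or_lt_of_le he2 with h1 | h1
      · rw [← h1]
        exact hmono _ _ _ (by omega) hC
      · have h2 := hone _ i₂ (by omega) (by omega) hC
        have h3 := ih (i₂ + 1) e (by omega) he (fun x hx hx' => by
            refine ⟨(hp x (by omega) hx').1, ?_⟩
            by_contra hcon
            have := hmax x ((hmem x).2 ⟨⟨by omega, hx'⟩, by omega⟩)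
            omega) (by omega) h2
        exact hmono _ _ _ (by omega) h3

end NLC
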