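import Pool.Agent.Lib.MP_8b2ae4_lc.C5b
import Pool.Agent.Lib.MP_8b2ae4_lc.C6a

/-! # The cost of a stage -/

set_option autoImplicit false

namespace NLC

variable {V T : Type} {adj : V → V → Prop} {k : ℕ} {S : Set V} {t : V → T} {X Y : ℕ → Set V}
  {r : ℕ}

/-- a single hook costs one macro step (`mac_one` for `Y i`, `Mac.mono`) -/
theorem HookSeq.one (hs : ∀ u v, adj u v → adj v u) (hc : Cut adj S t)
    (h : HookSeq adj k S t X Y r) {i : ℕ} (hi : i < r) {n : ℕ} (hn : 1 ≤ n)
    (hM : Mac adj k S n (X i)) : Mac adj k S (n + 1) (X (i + 1)) := by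
  refine Or.inr (Or.inl ⟨X i, Y i, hM, ?_, h.disj i hi, h.join i hi, h.step i hi⟩)
  exact Mac.mono hn (mac_one hs hc (h.nc i hi) (h.con i hi))

theorem HookSeq.con_X (h : HookSeq adj k S t X Y r) (h0 : Con (sys adj) k (X 0)) :
    ∀ i, i ≤ r → Con (sys adj) k (X i) := by
  intro i
  induction i with
  | zero => exact fun _ => h0
  | succ i ih =>
    intro hi
    rw [h.step i (by omega)]
    exact Con.join (ih (by omega)) (h.con i (by omega)) (h.disj i (by omega)) (h.join i (by omega))

/-- a chain of hooks inside one stage: `cover_abstract` with `R n i := Mac adj k S n (X i)`,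
`p x := po adj S (X x)`, `q x := po adj Sᶜ (X x)`, `d := k + 1`, `s := 0`, `e := r`; all `X i`,
`i ≤ r`, are constructible by induction, so `p x ≤ k` by `po_le`. -/
theorem HookSeq.stage_mac [Finite V] (hk : 1 ≤ k) (hs : ∀ u v, adj u v → adj v u)
    (hc : Cut adj S t) (h : HookSeq adj k S t X Y r) (h0 : Con (sys adj) k (X 0)) {n : ℕ}
    (hn : 1 ≤ n) (hM : Mac adj k S n (X 0)) : Mac adj k S (n + cst (k + 1)) (X r) := by
  refine cover_abstract (fun n i => Mac adj k S n (X i)) (fun x => po adj S (X x))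
    (fun x => po adj Sᶜ (X x)) k r ?_ ?_ ?_ ?_ (k + 1) 0 r (Nat.zero_le _) le_rfl ?_ hn hM
  · intro n m i hnm hR
    exact Mac.mono hnm hR
  · intro n i hn hi hR
    exact h.one hs hc hi hn hR
  · intro n j i hji hi hq hp hR
    exact h.jump hs hc hji hi hq hp hR
  · intro n j i hji hi hp hq hR
    exact h.jump' hs hc hji hi hp hq hR
  · intro x _ hx
    refine ⟨po_le hk (h.con_X h0 x hx), by omega⟩

theorem seq_of_chain {A B : Set V} (h : Relation.ReflTransGen (Hook adj k t) A B) :
    ∃ (r : ℕ) (X Y : ℕ → Set V), X 0 = A ∧ X r = B ∧ ∀ i < r, X (i + 1) = X i ∪ Y i ∧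
      Con (sys adj) k (Y i) ∧ NonCore t (Y i) ∧ Disjoint (X i) (Y i) ∧
        JoinOK (sys adj) k (X i) (Y i) := by
  induction h with
  | refl => exact ⟨0, fun _ => A, fun _ => ∅, rfl, rfl, fun i hi => absurd hi (by omega)⟩
  | @tail B C hAB hBC ih =>
    obtain ⟨r, X, Y, h0, hr, hall⟩ := ih
    obtain ⟨D, hD1, hD2, hD3, hD4, hD5⟩ := hBC
    refine ⟨r + 1, Function.update X (r + 1) C, Function.update Y r D, ?_, ?_, ?_⟩
    · rw [Function.update_of_ne (by omega)]; exact h0
    · rw [Function.update_self]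
    · intro i hi
      rcases Nat.lt_succ_iff_lt_or_eq.1 hi with hi' | rfl
      · rw [Function.update_of_ne (by omega : i + 1 ≠ r + 1),
          Function.update_of_ne (by omega : i ≠ r + 1), Function.update_of_ne (by omega : i ≠ r)]
        exact hall i hi'
      · rw [Function.update_self, Function.update_self, Function.update_of_ne (by omega), hr]
        exact ⟨hD5, hD2, hD1, hD3, hD4⟩

/-- a chain of hooks inside one stage, in terms of `ReflTransGen`: turn the chain into sequences
`X`, `Y` (induction on the chain: a chain of length `r` gives `X Y : ℕ → Set V` with `X 0`, `X r`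
prescribed) and apply `HookSeq.stage_mac` -/
theorem stage_chain [Finite V] (hk : 1 ≤ k) (hs : ∀ u v, adj u v → adj v u)
    (hc : Cut adj S t) {X X' : Set V} (h : Relation.ReflTransGen (Hook adj k t) X X')
    (hst : SameStage adj S t X X') (h0 : Con (sys adj) k X) {n : ℕ}
    (hn : 1 ≤ n) (hM : Mac adj k S n X) : Mac adj k S (n + cst (k + 1)) X' := by
  obtain ⟨r, Z, Y, hZ0, hZr, hall⟩ := seq_of_chain h
  have hseq : HookSeq adj k S t Z Y r :=
    ⟨fun i hi => (hall i hi).1, fun i hi => (hall i hi).2.1, fun i hi => (hall i hi).2.2.1,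
      fun i hi => (hall i hi).2.2.2.1, fun i hi => (hall i hi).2.2.2.2, by rw [hZ0, hZr]; exact hst⟩
  rw [← hZr]
  exact hseq.stage_mac hk hs hc (by rw [hZ0]; exact h0) hn (by rw [hZ0]; exact hM)

end NLC
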