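import Pool.Agent.Lib.MP_8b2ae4_lc.C6b
import Pool.Agent.Lib.MP_8b2ae4_lc.C2b

/-! # Chains of hooks through several stages -/

set_option autoImplicit false

namespace NLC

variable {V T : Type} {adj : V → V → Prop} {k : ℕ} {S : Set V} {t : V → T}

private theorem hook_subset {X Y : Set V} (h : Hook adj k t X Y) : X ⊆ Y := by
  obtain ⟨A, _, _, _, _, rfl⟩ := h
  exact Set.subset_union_left

private theorem hook_con {X Y : Set V} (h : Hook adj k t X Y) (hX : Con (sys adj) k X) :
    Con (sys adj) k Y := by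
  obtain ⟨A, _, hA, hd, hj, rfl⟩ := h
  exact Con.join hX hA hd hj

private theorem hooks_subset {X Y : Set V} (h : Relation.ReflTransGen (Hook adj k t) X Y) : X ⊆ Y := by
  induction h with
  | refl => exact subset_rfl
  | tail _ h2 ih => exact ih.trans (hook_subset h2)

private theorem hooks_con {X Y : Set V} (h : Relation.ReflTransGen (Hook adj k t) X Y)
    (hX : Con (sys adj) k X) : Con (sys adj) k Y := by
  induction h with
  | refl => exact hX
  | tail _ h2 ih => exact hook_con h2 ih

/-- the last set of the first stage of a chain -/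
private theorem hooks_split {z : Set V → ℕ} (hz : ∀ X X', X ⊆ X' → z X ≤ z X') {X X' : Set V}
    (h : Relation.ReflTransGen (Hook adj k t) X X') :
    ∃ X₁, Relation.ReflTransGen (Hook adj k t) X X₁ ∧ z X₁ = z X ∧
      (X₁ = X' ∨ ∃ X₂, Hook adj k t X₁ X₂ ∧ z X₁ < z X₂ ∧
        Relation.ReflTransGen (Hook adj k t) X₂ X') := by
  induction h with
  | refl => exact ⟨X, Relation.ReflTransGen.refl, rfl, Or.inl rfl⟩
  | @tail Y X' h1 h2 ih =>
    obtain ⟨X₁, hch, hz1, hor⟩ := ih
    rcases hor with rfl | ⟨X₂, hh, hlt, hch2⟩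
    · rcases Nat.lt_or_ge (z X₁) (z X') with hlt | hge
      · exact ⟨X₁, hch, hz1, Or.inr ⟨X', h2, hlt, Relation.ReflTransGen.refl⟩⟩
      · have he : z X' = z X₁ := le_antisymm hge (hz _ _ (hook_subset h2))
        exact ⟨X', hch.tail h2, he.trans hz1, Or.inl rfl⟩
    · exact ⟨X₁, hch, hz1, Or.inr ⟨X₂, hh, hlt, hch2.tail h2⟩⟩

/-- Let `z` be the counter of `exists_stage_counter` with bound `B`. With `c₁ = cst (k + 1)` the
constant is `c = (B + 1) * (c₁ + 1)`. Claim, by induction on `g`: if `z X' ≤ z X + g` then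
`Mac n X → Mac (n + (g + 1) * (c₁ + 1)) X'`. For a chain `X →* X'` there are (induction on the
chain, adding the last step) `X₁` with `X →* X₁`, `z X₁ = z X`, and either `X₁ = X'`, or
`X₁ → X₂` is a hook with `z X₁ < z X₂`, `X₂ →* X'`. From `X` to `X₁`: `stage_chain`
(cost `c₁`); hook `X₁ → X₂`: cost 1 (`mac_one`, `Mac.mono`); `X₂ →* X'`: induction hypothesis.
(All sets of the chain are constructible, and hooks enlarge sets.) -/
theorem exists_chain_cost (T : Type) [Finite T] (k : ℕ) (hk : 1 ≤ k) :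
    ∃ c : ℕ, ∀ (V : Type) [Finite V] (adj : V → V → Prop) (S : Set V) (t : V → T),
      (∀ u v, adj u v → adj v u) → Cut adj S t → ∀ X X' : Set V,
      Relation.ReflTransGen (Hook adj k t) X X' → Con (sys adj) k X →
      ∀ n, 1 ≤ n → Mac adj k S n X → Mac adj k S (n + c) X' := by
  obtain ⟨B, hB⟩ := exists_stage_counter T
  refine ⟨(B + 1) * (cst (k + 1) + 1), ?_⟩
  intro V _ adj S t hs hc X X' hch hcon n hn hM
  obtain ⟨z, hzB, hzm, hzs⟩ := hB V adj S t
  have claim : ∀ g : ℕ, ∀ X X' : Set V, Relation.ReflTransGen (Hook adj k t) X X' →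
      Con (sys adj) k X → z X' ≤ z X + g → ∀ n, 1 ≤ n → Mac adj k S n X →
      Mac adj k S (n + (g + 1) * (cst (k + 1) + 1)) X' := by
    intro g
    induction g with
    | zero =>
      intro X X' hch hcon hzz n hn hM
      have he : z X = z X' := le_antisymm (hzm _ _ (hooks_subset hch)) hzz
      have h1 := stage_chain hk hs hc hch (hzs _ _ (hooks_subset hch) he) hcon hn hM
      exact Mac.mono (by omega) h1
    | succ g ih =>
      intro X X' hch hcon hzz n hn hM
      obtain ⟨X₁, hch1, hz1, hor⟩ := hooks_split hzm hch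
      have h1 := stage_chain hk hs hc hch1 (hzs _ _ (hooks_subset hch1) hz1.symm) hcon hn hM
      rcases hor with rfl | ⟨X₂, hh, hlt, hch2⟩
      · refine Mac.mono ?_ h1
        have : (g + 1 + 1) * (cst (k + 1) + 1) = (g + 1) * (cst (k + 1) + 1) + (cst (k + 1) + 1) := by
          ring
        omega
      · have hcon2 : Con (sys adj) k X₂ := hook_con hh (hooks_con hch1 hcon)
        have hM2 : Mac adj k S (n + cst (k + 1) + 1) X₂ := by
          obtain ⟨A, hAn, hAc, hd, hj, rfl⟩ := hh
          exact Or.inr (Or.inl ⟨X₁, A, h1, Mac.mono (by omega) (mac_one hs hc hAn hAc), hd, hj, rfl⟩)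
        have h3 := ih X₂ X' hch2 hcon2 (by omega) (n + cst (k + 1) + 1) (by omega) hM2
        have he : n + (g + 1 + 1) * (cst (k + 1) + 1)
            = n + cst (k + 1) + 1 + (g + 1) * (cst (k + 1) + 1) := by ring
        rw [he]
        exact h3
  exact claim B X X' hch hcon (by have := hzB X'; omega) n hn hM

end NLC
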