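import Pool.Agent.Lib.MP_8b2ae4_lc.C1

/-! # Core sets -/

set_option autoImplicit false

namespace NLC

variable {V T : Type} {adj : V → V → Prop} {k : ℕ} {S : Set V} {t : V → T}

/-- every core set arises by a chain of hooks from a core set which is a singleton or the join of
two core or of two non-core sets. Induction on `h`: in a join `X ∪ Y` with `X` core and `Y`
non-core take the chain for `X` and hook `Y`; with `X` non-core and `Y` core take the chain for `Y`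
and hook `X` (`JoinOK.symm`, `sys_symm`). -/
theorem core_base {X : Set V} (h : Con (sys adj) k X)
    (hX : ¬ NonCore t X) : ∃ X', Relation.ReflTransGen (Hook adj k t) X' X ∧
      ¬ NonCore t X' ∧ Con (sys adj) k X' ∧
      ((∃ v, X' = {v}) ∨ ∃ X₁ X₂, X' = X₁ ∪ X₂ ∧ Disjoint X₁ X₂ ∧ Con (sys adj) k X₁ ∧
        Con (sys adj) k X₂ ∧ JoinOK (sys adj) k X₁ X₂ ∧
        ((NonCore t X₁ ∧ NonCore t X₂) ∨ (¬ NonCore t X₁ ∧ ¬ NonCore t X₂))) := by
  induction h with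
  | single v => exact ⟨{v}, Relation.ReflTransGen.refl, hX, Con.single v, Or.inl ⟨v, rfl⟩⟩
  | @join X Y hcX hcY hd hj ihX ihY =>
    by_cases hNX : NonCore t X
    · by_cases hNY : NonCore t Y
      · exact ⟨X ∪ Y, Relation.ReflTransGen.refl, hX, Con.join hcX hcY hd hj,
          Or.inr ⟨X, Y, rfl, hd, hcX, hcY, hj, Or.inl ⟨hNX, hNY⟩⟩⟩
      · obtain ⟨X', hch, hrest⟩ := ihY hNY
        exact ⟨X', Relation.ReflTransGen.tail hch ⟨X, hNX, hcX, hd.symm,
          JoinOK.symm (E := sys adj) (fun _ _ _ h => sys_symm h) hj, Set.union_comm X Y⟩, hrest⟩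
    · by_cases hNY : NonCore t Y
      · obtain ⟨X', hch, hrest⟩ := ihX hNX
        exact ⟨X', Relation.ReflTransGen.tail hch ⟨Y, hNY, hcY, hd, hj, rfl⟩, hrest⟩
      · exact ⟨X ∪ Y, Relation.ReflTransGen.refl, hX, Con.join hcX hcY hd hj,
          Or.inr ⟨X, Y, rfl, hd, hcX, hcY, hj, Or.inr ⟨hNX, hNY⟩⟩⟩

/-- the number of types contained in `X` -/
noncomputable def nty (t : V → T) (X : Set V) : ℕ :=
  {τ : T | (∃ v, t v = τ) ∧ ∀ v, t v = τ → v ∈ X}.ncard

theorem nty_union [Finite T] {X₁ X₂ : Set V} (hd : Disjoint X₁ X₂) :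
    nty t X₁ + nty t X₂ ≤ nty t (X₁ ∪ X₂) := by
  unfold nty
  rw [← Set.ncard_union_eq _ (Set.toFinite _) (Set.toFinite _)]
  · refine Set.ncard_le_ncard ?_ (Set.toFinite _)
    rintro τ (⟨h1, h2⟩ | ⟨h1, h2⟩)
    · exact ⟨h1, fun v hv => Or.inl (h2 v hv)⟩
    · exact ⟨h1, fun v hv => Or.inr (h2 v hv)⟩
  · rw [Set.disjoint_left]
    rintro τ ⟨⟨v, hv⟩, h2⟩ ⟨_, h4⟩
    exact Set.disjoint_left.mp hd (h2 v hv) (h4 v hv)

theorem nty_mono [Finite T] {X₁ X₂ : Set V} (hd : X₁ ⊆ X₂) : nty t X₁ ≤ nty t X₂ := by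
  unfold nty
  refine Set.ncard_le_ncard ?_ (Set.toFinite _)
  rintro τ ⟨h1, h2⟩
  exact ⟨h1, fun v hv => hd (h2 v hv)⟩

theorem nty_pos [Finite T] {X : Set V} (h : ¬ NonCore t X) : 1 ≤ nty t X := by
  unfold NonCore at h
  push Not at h
  obtain ⟨v, hv⟩ := h
  unfold nty
  rw [Nat.one_le_iff_ne_zero, ← Nat.pos_iff_ne_zero, Set.ncard_pos (Set.toFinite _)]
  refine ⟨t v, ⟨v, rfl⟩, fun w hw => ?_⟩
  by_contra hcon
  exact hv w hcon hw

theorem nty_le [Finite T] (X : Set V) : nty t X ≤ Nat.card T := by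
  unfold nty
  rw [← Set.ncard_univ]
  exact Set.ncard_le_ncard (Set.subset_univ _) (Set.toFinite _)

end NLC
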