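import Pool.Agent.Lib.MP_8b2ae4_lc.C7a
import Pool.Agent.Lib.MP_8b2ae4_lc.C7b

/-! # The normal form theorem -/

set_option autoImplicit false

namespace NLC

/-- **Theorem 2 (normal form)**. Let `c` be the constant of `exists_chain_cost`. Put `N 0 = 1`,
`N (w + 1) = N w + 2 + c`. Claim, by induction on `w`: every constructible `X` with
`nty t X ≤ w` is in `Mac (N w)`. Non-core `X`: `mac_one`. Core `X` (so `w ≥ 1`): `core_base`
gives `X'`; singleton: `Mac 0`; two non-core parts: each in `Mac 1`, so `X'` in `Mac 2`; two core
parts `X₁`, `X₂`: `nty X₁ + nty X₂ ≤ nty X' ≤ nty X` and both are `≥ 1`, so both are `≤ w - 1` and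
`X'` in `Mac (N (w - 1) + 1)`. Then `exists_chain_cost`. Finally `N = N (Nat.card T)` (`nty_le`). -/
theorem normal_form (T : Type) [Finite T] (k : ℕ) (hk : 1 ≤ k) :
    ∃ N : ℕ, ∀ (V : Type) [Finite V] (adj : V → V → Prop) (S : Set V) (t : V → T),
      (∀ u v, adj u v → adj v u) → Cut adj S t → ∀ X : Set V,
      Con (sys adj) k X → Mac adj k S N X := by
  obtain ⟨c, hcost⟩ := exists_chain_cost T k hk
  have claim : ∀ w : ℕ, ∀ (V : Type) [Finite V] (adj : V → V → Prop) (S : Set V) (t : V → T),
      (∀ u v, adj u v → adj v u) → Cut adj S t → ∀ X : Set V,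
      Con (sys adj) k X → nty t X ≤ w → Mac adj k S (1 + w * (2 + c)) X := by
    intro w
    induction w with
    | zero =>
      intro V _ adj S t hs hc X hX hw
      by_cases hN : NonCore t X
      · exact (mac_one hs hc hN hX).mono (by omega)
      · have := nty_pos hN
        omega
    | succ w ih =>
      intro V _ adj S t hs hc X hX hw
      by_cases hN : NonCore t X
      · exact (mac_one hs hc hN hX).mono (by omega)
      obtain ⟨X', hchain, hN', hX', hcase⟩ := core_base hX hN
      have hsub : ∀ {Y Z : Set V}, Relation.ReflTransGen (Hook adj k t) Y Z → Y ⊆ Z := by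
        intro Y Z h
        induction h with
        | refl => exact subset_rfl
        | tail _ hstep ih' =>
          obtain ⟨A, _, _, _, _, rfl⟩ := hstep
          exact ih'.trans Set.subset_union_left
      have hn' : nty t X' ≤ w + 1 := (nty_mono (hsub hchain)).trans hw
      have hM' : Mac adj k S (1 + w * (2 + c) + 1) X' := by
        rcases hcase with ⟨v, rfl⟩ | ⟨X₁, X₂, rfl, hd, hC₁, hC₂, hJ, hcc⟩
        · have h0 : Mac adj k S 0 {v} := by
            refine ⟨?_, hX'⟩
            by_cases hv : v ∈ S
            · left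
              intro x hx
              rw [Set.mem_singleton_iff.mp hx]
              exact hv
            · right
              intro x hx
              rw [Set.mem_singleton_iff.mp hx]
              exact hv
          exact h0.mono (Nat.zero_le _)
        · rcases hcc with ⟨hn₁, hn₂⟩ | ⟨hn₁, hn₂⟩
          · refine Or.inr (Or.inl ⟨X₁, X₂, ?_, ?_, hd, hJ, rfl⟩)
            · exact (mac_one hs hc hn₁ hC₁).mono (Nat.le_add_right 1 _)
            · exact (mac_one hs hc hn₂ hC₂).mono (Nat.le_add_right 1 _)
          · have hsum := nty_union (t := t) hd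
            have hp₁ := nty_pos hn₁
            have hp₂ := nty_pos hn₂
            refine Or.inr (Or.inl ⟨X₁, X₂, ?_, ?_, hd, hJ, rfl⟩)
            · exact ih V adj S t hs hc X₁ hC₁ (by omega)
            · exact ih V adj S t hs hc X₂ hC₂ (by omega)
      have hfin := hcost V adj S t hs hc X' X hchain hX' (1 + w * (2 + c) + 1) (by omega) hM'
      exact hfin.mono (by rw [Nat.succ_mul]; omega)
  refine ⟨1 + Nat.card T * (2 + c), ?_⟩
  intro V _ adj S t hs hc X hX
  exact claim (Nat.card T) V adj S t hs hc X hX (nty_le X)

end NLC
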