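import Pool.Agent.Lib.MP_8b2ae4_lc.Defs

/-! # Cuts, types, stages: definitions -/

set_option autoImplicit false

namespace NLC

variable {V : Type}

/-- `t` is a labelling of the vertices by types with respect to the cut `(S, Sᶜ)`: two vertices of
the same type lie on the same side and have the same neighbours on the other side. -/
def Cut {T : Type} (adj : V → V → Prop) (S : Set V) (t : V → T) : Prop :=
  ∀ u v, t u = t v → (u ∈ S ↔ v ∈ S) ∧ ∀ w, (u ∈ S ↔ w ∉ S) → (adj u w ↔ adj v w)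

/-- no type is contained in `X` -/
def NonCore {T : Type} (t : V → T) (X : Set V) : Prop := ∀ v, ∃ w, w ∉ X ∧ t w = t v

/-- the types with a vertex outside `X` -/
def out {T : Type} (t : V → T) (X : Set V) : Set T := {τ | ∃ v, v ∉ X ∧ t v = τ}

/-- `bet adj S t P X`: the pairs (type of `x ∈ S`, type of `y ∉ S`) such that some vertex `u` of
`X ∩ P` has, outside `X`, the neighbours of `x` in `Sᶜ` and the neighbours of `y` in `S`. -/
def bet {T : Type} (adj : V → V → Prop) (S : Set V) (t : V → T) (P X : Set V) : Set (T × T) :=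
  {q | ∃ x y u, x ∈ S ∧ y ∉ S ∧ t x = q.1 ∧ t y = q.2 ∧ u ∈ X ∧ u ∈ P ∧
    (∀ w, w ∉ X → w ∉ S → (adj u w ↔ adj x w)) ∧ (∀ w, w ∉ X → w ∈ S → (adj u w ↔ adj y w))}

/-- `X ⊆ X'` are in the same stage -/
structure SameStage {T : Type} (adj : V → V → Prop) (S : Set V) (t : V → T) (X X' : Set V) :
    Prop where
  sub : X ⊆ X'
  out : out t X ⊆ out t X'
  bet1 : bet adj S t S X' ⊆ bet adj S t S X
  bet2 : bet adj S t Sᶜ X' ⊆ bet adj S t Sᶜ X

/-- the number of rows of vertices of `X ∩ S` which are not rows of vertices of `X \ S` -/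
noncomputable def po (adj : V → V → Prop) (S X : Set V) : ℕ :=
  ((row adj X '' (X ∩ S)) \ (row adj X '' (X \ S))).ncard

/-- one step of an `S`-chain -/
def Step (adj : V → V → Prop) (k : ℕ) (S : Set V) (X Y : Set V) : Prop :=
  ∃ A, A ⊆ S ∧ Con (sys adj) k A ∧ Disjoint X A ∧ JoinOK (sys adj) k X A ∧ Y = X ∪ A

/-- `S`-chains -/
def Chain (adj : V → V → Prop) (k : ℕ) (S : Set V) : Set V → Set V → Prop :=
  Relation.ReflTransGen (Step adj k S)

/-- macro derivations of depth `n` -/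
def Mac (adj : V → V → Prop) (k : ℕ) (S : Set V) : ℕ → Set V → Prop
  | 0, X => (X ⊆ S ∨ X ⊆ Sᶜ) ∧ Con (sys adj) k X
  | n + 1, X => Mac adj k S n X ∨
      (∃ X₁ X₂, Mac adj k S n X₁ ∧ Mac adj k S n X₂ ∧ Disjoint X₁ X₂ ∧
        JoinOK (sys adj) k X₁ X₂ ∧ X = X₁ ∪ X₂) ∨
      (∃ X', Mac adj k S n X' ∧ Chain adj k S X' X) ∨
      (∃ X', Mac adj k S n X' ∧ Chain adj k Sᶜ X' X)

/-- one step of a chain of hooks of non-core sets -/
def Hook {T : Type} (adj : V → V → Prop) (k : ℕ) (t : V → T) (X Y : Set V) : Prop :=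
  ∃ A, NonCore t A ∧ Con (sys adj) k A ∧ Disjoint X A ∧ JoinOK (sys adj) k X A ∧ Y = X ∪ A

/-- a sequence of hooks of non-core sets inside one stage -/
structure HookSeq {T : Type} (adj : V → V → Prop) (k : ℕ) (S : Set V) (t : V → T)
    (X Y : ℕ → Set V) (r : ℕ) : Prop where
  step : ∀ i < r, X (i + 1) = X i ∪ Y i
  con : ∀ i < r, Con (sys adj) k (Y i)
  nc : ∀ i < r, NonCore t (Y i)
  disj : ∀ i < r, Disjoint (X i) (Y i)
  join : ∀ i < r, JoinOK (sys adj) k (X i) (Y i)
  stage : SameStage adj S t (X 0) (X r)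

end NLC
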