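import Pool.Agent.Lib.MP_8b2ae4_lc.Half

/-! # Gluing: elementary facts -/

set_option autoImplicit false

namespace NLC

variable {A B : Type} {k : ℕ}

theorem gadj_symm (ρ : A → B → Prop) (L : Half A) (R : Half B) :
    ∀ u v, gadj ρ L R u v → gadj ρ L R v u := by
  rintro (u | u) (v | v) h
  · exact L.symm u v h
  · exact h
  · exact h
  · exact R.symm u v h

/-- gluing in the other order -/
theorem gadj_swap (ρ : A → B → Prop) (L : Half A) (R : Half B) (u v : L.V ⊕ R.V) :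
    gadj (fun b a => ρ a b) R L u.swap v.swap ↔ gadj ρ L R u v := by
  cases u <;> cases v <;> exact Iff.rfl

section mk

variable {V W : Type}

@[simp] theorem inl_mem_mk {C : Set V} {D : Set W} {u : V} : Sum.inl u ∈ mk C D ↔ u ∈ C := by
  unfold mk
  simp

@[simp] theorem inr_mem_mk {C : Set V} {D : Set W} {u : W} : Sum.inr u ∈ mk C D ↔ u ∈ D := by
  unfold mk
  simp

theorem mk_preimage (X : Set (V ⊕ W)) : mk (Sum.inl ⁻¹' X) (Sum.inr ⁻¹' X) = X := by
  ext (x | x)
  · rw [inl_mem_mk]; exact Iff.rfl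
  · rw [inr_mem_mk]; exact Iff.rfl

theorem mk_union (C C' : Set V) (D D' : Set W) : mk C D ∪ mk C' D' = mk (C ∪ C') (D ∪ D') := by
  ext (x | x)
  · rw [Set.mem_union, inl_mem_mk, inl_mem_mk, inl_mem_mk, Set.mem_union]
  · rw [Set.mem_union, inr_mem_mk, inr_mem_mk, inr_mem_mk, Set.mem_union]

theorem mk_disjoint {C C' : Set V} {D D' : Set W} :
    Disjoint (mk C D) (mk C' D') ↔ Disjoint C C' ∧ Disjoint D D' := by
  constructor
  · intro h
    rw [Set.disjoint_left] at h
    refine ⟨Set.disjoint_left.2 fun x hx hx' => ?_, Set.disjoint_left.2 fun x hx hx' => ?_⟩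
    · exact h (inl_mem_mk.2 hx) (inl_mem_mk.2 hx')
    · exact h (inr_mem_mk.2 hx) (inr_mem_mk.2 hx')
  · rintro ⟨h1, h2⟩
    rw [Set.disjoint_left] at h1 h2 ⊢
    rintro (x | x) hx hx'
    · exact h1 (inl_mem_mk.1 hx) (inl_mem_mk.1 hx')
    · exact h2 (inr_mem_mk.1 hx) (inr_mem_mk.1 hx')

theorem mk_inj {C C' : Set V} {D D' : Set W} : mk C D = mk C' D' ↔ C = C' ∧ D = D' := by
  constructor
  · intro h
    constructor
    · ext x
      rw [← inl_mem_mk (C := C) (D := D), h, inl_mem_mk]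
    · ext x
      rw [← inr_mem_mk (C := C) (D := D), h, inr_mem_mk]
  · rintro ⟨rfl, rfl⟩
    rfl

theorem swap_image_mk (C : Set V) (D : Set W) : Sum.swap '' mk C D = mk D C := by
  ext (x | x)
  · rw [inl_mem_mk]
    constructor
    · rintro ⟨(y | y), hy, hxy⟩
      · cases hxy
      · cases hxy
        exact inr_mem_mk.1 hy
    · intro hx
      exact ⟨Sum.inr x, inr_mem_mk.2 hx, rfl⟩
  · rw [inr_mem_mk]
    constructor
    · rintro ⟨(y | y), hy, hxy⟩
      · cases hxy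
        exact inl_mem_mk.1 hy
      · cases hxy
    · intro hx
      exact ⟨Sum.inl x, inl_mem_mk.2 hx, rfl⟩

theorem mk_empty_subset (C : Set V) (D : Set W) : mk C D ⊆ Set.range Sum.inl ↔ D = ∅ := by
  constructor
  · intro h
    rw [Set.eq_empty_iff_forall_notMem]
    intro x hx
    obtain ⟨y, hy⟩ := h (inr_mem_mk.2 hx)
    cases hy
  · rintro rfl (x | x) hx
    · exact ⟨x, rfl⟩
    · exact absurd (inr_mem_mk.1 hx) (Set.notMem_empty x)

theorem mk_empty_subset' (C : Set V) (D : Set W) : mk C D ⊆ (Set.range Sum.inl)ᶜ ↔ C = ∅ := by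
  constructor
  · intro h
    rw [Set.eq_empty_iff_forall_notMem]
    intro x hx
    exact h (inl_mem_mk.2 hx) ⟨x, rfl⟩
  · rintro rfl (x | x) hx
    · exact absurd (inl_mem_mk.1 hx) (Set.notMem_empty x)
    · rintro ⟨y, hy⟩
      cases hy

theorem inl_image (C : Set V) : (Sum.inl '' C : Set (V ⊕ W)) = mk C ∅ := by
  unfold mk
  rw [Set.image_empty, Set.union_empty]

theorem inr_image (D : Set W) : (Sum.inr '' D : Set (V ⊕ W)) = mk ∅ D := by
  unfold mk
  rw [Set.image_empty, Set.empty_union]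

end mk

/-- `L + R` has the cut `(L, R)` with types `A ⊕ B` -/
theorem cut_glue (ρ : A → B → Prop) (L : Half A) (R : Half B) :
    Cut (gadj ρ L R) (Set.range Sum.inl) (Sum.map L.lab R.lab) := by
  have hl : ∀ x : L.V, (Sum.inl x : L.V ⊕ R.V) ∈ Set.range (Sum.inl : L.V → L.V ⊕ R.V) :=
    fun x => ⟨x, rfl⟩
  have hr : ∀ x : R.V, (Sum.inr x : L.V ⊕ R.V) ∉ Set.range (Sum.inl : L.V → L.V ⊕ R.V) := by
    rintro x ⟨y, hy⟩
    cases hy
  rintro (u | u) (v | v) h
  · have h' : L.lab u = L.lab v := Sum.inl.inj h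
    refine ⟨iff_of_true (hl u) (hl v), ?_⟩
    rintro (w | w) hw
    · exact absurd (hl w) (hw.1 (hl u))
    · show ρ (L.lab u) (R.lab w) ↔ ρ (L.lab v) (R.lab w)
      rw [h']
  · cases h
  · cases h
  · have h' : R.lab u = R.lab v := Sum.inr.inj h
    refine ⟨iff_of_false (hr u) (hr v), ?_⟩
    rintro (w | w) hw
    · show ρ (L.lab w) (R.lab u) ↔ ρ (L.lab w) (R.lab v)
      rw [h']
    · exact absurd (hw.2 (hr w)) (hr u)

end NLC
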