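import Pool.Agent.Lib.MP_8b2ae4_lc.D1a

/-! # Gluing: rows -/

set_option autoImplicit false

namespace NLC

variable {A B : Type} {k : ℕ}

/-- two vertices of `L` in `L + R` outside `C + D` -/
theorem sys_inl_inl (ρ : A → B → Prop) (L : Half A) (R : Half B) (C : Set L.V) (D : Set R.V)
    (u v : L.V) : sys (gadj ρ L R) (mk C D) (Sum.inl u) (Sum.inl v) ↔
      sys L.adj C u v ∧ ∀ w, w ∉ D → (ρ (L.lab u) (R.lab w) ↔ ρ (L.lab v) (R.lab w)) := by
  constructor
  · intro h
    exact ⟨fun w hw => h (Sum.inl w) (by simpa using hw), fun w hw => h (Sum.inr w) (by simpa using hw)⟩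
  · rintro ⟨h1, h2⟩ (w | w) hw
    · exact h1 w (by simpa using hw)
    · exact h2 w (by simpa using hw)

theorem sys_inr_inr (ρ : A → B → Prop) (L : Half A) (R : Half B) (C : Set L.V) (D : Set R.V)
    (u v : R.V) : sys (gadj ρ L R) (mk C D) (Sum.inr u) (Sum.inr v) ↔
      sys R.adj D u v ∧ ∀ w, w ∉ C → (ρ (L.lab w) (R.lab u) ↔ ρ (L.lab w) (R.lab v)) := by
  constructor
  · intro h
    exact ⟨fun w hw => h (Sum.inr w) (by simpa using hw), fun w hw => h (Sum.inl w) (by simpa using hw)⟩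
  · rintro ⟨h1, h2⟩ (w | w) hw
    · exact h2 w (by simpa using hw)
    · exact h1 w (by simpa using hw)

/-- a vertex of `L` and a vertex of `R` -/
theorem sys_inl_inr (ρ : A → B → Prop) (L : Half A) (R : Half B) (C : Set L.V) (D : Set R.V)
    (u : L.V) (v : R.V) : sys (gadj ρ L R) (mk C D) (Sum.inl u) (Sum.inr v) ↔
      R.lab v ∈ likes ρ L C u ∧ L.lab u ∈ likes (fun b a => ρ a b) R D v := by
  constructor
  · intro h
    exact ⟨fun w hw => h (Sum.inl w) (by simpa using hw),
      fun w hw => (h (Sum.inr w) (by simpa using hw)).symm⟩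
  · rintro ⟨h1, h2⟩ (w | w) hw
    · exact h1 w (by simpa using hw)
    · exact (h2 w (by simpa using hw)).symm

theorem sys_inr_inl (ρ : A → B → Prop) (L : Half A) (R : Half B) (C : Set L.V) (D : Set R.V)
    (u : L.V) (v : R.V) : sys (gadj ρ L R) (mk C D) (Sum.inr v) (Sum.inl u) ↔
      R.lab v ∈ likes ρ L C u ∧ L.lab u ∈ likes (fun b a => ρ a b) R D v := by
  rw [← sys_inl_inr]
  exact ⟨fun h w hw => (h w hw).symm, fun h w hw => (h w hw).symm⟩

end NLC
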