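import Pool.Agent.Lib.MP_8b2ae4_lc.Cut

/-! # Labelled graphs and their gluings: definitions -/

set_option autoImplicit false

namespace NLC

/-- a finite graph with labels in `A` and with an attribute in `{0, 1, 2, 3}` for every vertex -/
structure Half (A : Type) : Type 1 where
  V : Type
  fin : Finite V
  adj : V → V → Prop
  symm : ∀ u v, adj u v → adj v u
  lab : V → A
  att : V → Fin 4

attribute [instance] Half.fin

variable {A B : Type}

/-- the adjacency of the graph glued from `L` and `R`: `u` in `L` and `w` in `R` are adjacent if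
`ρ (lab u) (lab w)` -/
def gadj (ρ : A → B → Prop) (L : Half A) (R : Half B) : L.V ⊕ R.V → L.V ⊕ R.V → Prop
  | Sum.inl u, Sum.inl v => L.adj u v
  | Sum.inr u, Sum.inr v => R.adj u v
  | Sum.inl u, Sum.inr w => ρ (L.lab u) (R.lab w)
  | Sum.inr w, Sum.inl u => ρ (L.lab u) (R.lab w)

/-- the set `C + D` -/
def mk {V W : Type} (C : Set V) (D : Set W) : Set (V ⊕ W) := Sum.inl '' C ∪ Sum.inr '' D

/-- the property decided by the automaton: the set of vertices of attribute `≠ 0` is the disjoint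
union of constructible sets `X₁`, `X₂` which can be composed, with no vertex of attribute `2` in
`X₂` and no vertex of attribute `3` in `X₁`. -/
def PI (k : ℕ) {V : Type} (adj : V → V → Prop) (att : V → Fin 4) : Prop :=
  ∃ X₁ X₂ : Set V, Disjoint X₁ X₂ ∧ X₁ ∪ X₂ = {v | att v ≠ 0} ∧
    (∀ v, att v = 2 → v ∉ X₂) ∧ (∀ v, att v = 3 → v ∉ X₁) ∧
    Con (sys adj) k X₁ ∧ Con (sys adj) k X₂ ∧ JoinOK (sys adj) k X₁ X₂

/-- the attribute of the glued graph -/
def gatt (L : Half A) (R : Half B) : L.V ⊕ R.V → Fin 4 := Sum.elim L.att R.att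

/-- labelled graphs of width `m` -/
abbrev Side (m : ℕ) := Half (Fin m)

/-- contexts for labelled graphs of width `m`: every vertex carries the set of labels of its
neighbours -/
abbrev Ctx (m : ℕ) := Half (Set (Fin m))

/-- the relation used for gluing a labelled graph with a context -/
abbrev mem (m : ℕ) : Fin m → Set (Fin m) → Prop := fun a s => a ∈ s

/-- the Myhill-Nerode relation -/
def Nerode (k m : ℕ) (L L' : Side m) : Prop :=
  ∀ R : Ctx m, PI k (gadj (mem m) L R) (gatt L R) ↔ PI k (gadj (mem m) L' R) (gatt L' R)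

/-- the set of labels of the form 'adjacent to the vertices outside `C` exactly as prescribed by
the label `b`' -/
def likes (ρ : A → B → Prop) (L : Half A) (C : Set L.V) (u : L.V) : Set B :=
  {b | ∀ x, x ∉ C → (L.adj u x ↔ ρ (L.lab x) b)}

/-- `(C₁', C₂')` in `L'` embeds into `(C₁, C₂)` in `L`: there is a map which preserves labels and
reflects equality of rows and likes; moreover every label used outside `C₁'` (outside `C₂'`,
outside `C₁' ∪ C₂'`) in `L'` is used outside `C₁` (`C₂`, `C₁ ∪ C₂`) in `L`. -/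
def Emb (ρ : A → B → Prop) (L L' : Half A) (C₁ C₂ : Set L.V) (C₁' C₂' : Set L'.V) : Prop :=
  ∃ f : L'.V → L.V,
    (∀ u ∈ C₁', f u ∈ C₁) ∧ (∀ u ∈ C₂', f u ∈ C₂) ∧
    (∀ u ∈ C₁' ∪ C₂', L.lab (f u) = L'.lab u) ∧
    (∀ u ∈ C₁', ∀ v ∈ C₁', sys L.adj C₁ (f u) (f v) → sys L'.adj C₁' u v) ∧
    (∀ u ∈ C₂', ∀ v ∈ C₂', sys L.adj C₂ (f u) (f v) → sys L'.adj C₂' u v) ∧
    (∀ u ∈ C₁' ∪ C₂', ∀ v ∈ C₁' ∪ C₂', sys L.adj (C₁ ∪ C₂) (f u) (f v) →
      sys L'.adj (C₁' ∪ C₂') u v) ∧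
    (∀ u ∈ C₁', likes ρ L C₁ (f u) ⊆ likes ρ L' C₁' u) ∧
    (∀ u ∈ C₂', likes ρ L C₂ (f u) ⊆ likes ρ L' C₂' u) ∧
    (∀ u ∈ C₁' ∪ C₂', likes ρ L (C₁ ∪ C₂) (f u) ⊆ likes ρ L' (C₁' ∪ C₂') u) ∧
    (∀ u, u ∉ C₁' → ∃ v, v ∉ C₁ ∧ L.lab v = L'.lab u) ∧
    (∀ u, u ∉ C₂' → ∃ v, v ∉ C₂ ∧ L.lab v = L'.lab u) ∧
    (∀ u, u ∉ C₁' ∪ C₂' → ∃ v, v ∉ C₁ ∪ C₂ ∧ L.lab v = L'.lab u)

/-- the relation between labels of `L` which are not distinguished by `R` -/
def eqv (ρ : A → B → Prop) (R : Half B) : A → A → Prop :=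
  fun a a' => ∀ w : R.V, ρ a (R.lab w) ↔ ρ a' (R.lab w)

/-- the system on the subsets of `L` when the labels are distinguished up to `e` -/
def sysE (L : Half A) (e : A → A → Prop) : Sys L.V :=
  fun X u v => sys L.adj X u v ∧ e (L.lab u) (L.lab v)

end NLC
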