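import Pool.Agent.Lib.MP_8b2ae4_lc.A1b
import Pool.Agent.Lib.MP_8b2ae4_lc.Half

/-! # Invariance under bijections -/

set_option autoImplicit false

namespace NLC

variable {k : ℕ}

/-- joins and bijections (labelling `l ∘ f.symm`, resp. `l ∘ f`) -/
theorem joinOK_equiv {V W : Type} {E : Sys V} {F : Sys W} (f : V ≃ W)
    (h : ∀ X u v, E X u v ↔ F (f '' X) (f u) (f v)) (X Y : Set V) :
    JoinOK E k X Y ↔ JoinOK F k (f '' X) (f '' Y) := by
  constructor
  · apply joinOK_map f.symm
    · rintro _ ⟨x, hx, rfl⟩
      rw [Equiv.symm_apply_apply]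
      exact hx
    · rintro _ ⟨x, hx, rfl⟩
      rw [Equiv.symm_apply_apply]
      exact hx
    · intro u _ v _ huv
      have := (h X _ _).1 huv
      rwa [Equiv.apply_symm_apply, Equiv.apply_symm_apply] at this
    · intro u _ v _ huv
      have := (h Y _ _).1 huv
      rwa [Equiv.apply_symm_apply, Equiv.apply_symm_apply] at this
    · intro u _ v _ huv
      have := (h (X ∪ Y) _ _).1 huv
      rwa [Equiv.apply_symm_apply, Equiv.apply_symm_apply, Set.image_union] at this
  · apply joinOK_map f
    · intro u hu
      exact ⟨u, hu, rfl⟩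
    · intro u hu
      exact ⟨u, hu, rfl⟩
    · intro u _ v _ huv
      exact (h X u v).2 huv
    · intro u _ v _ huv
      exact (h Y u v).2 huv
    · intro u _ v _ huv
      rw [← Set.image_union] at huv
      exact (h (X ∪ Y) u v).2 huv

/-- constructible sets and bijections (`Con.image` for `f` and for `f.symm`) -/
theorem con_equiv {V W : Type} {E : Sys V} {F : Sys W} (f : V ≃ W)
    (h : ∀ X u v, E X u v ↔ F (f '' X) (f u) (f v)) (X : Set V) :
    Con E k X ↔ Con F k (f '' X) := by
  constructor
  · intro hX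
    exact Con.image f f.injective (fun Z u _ v _ huv => (h Z u v).1 huv) hX
  · intro hX
    have h2 := Con.image (F := E) f.symm f.symm.injective (fun Z u _ v _ huv => by
      rw [h]
      rwa [Equiv.apply_symm_apply, Equiv.apply_symm_apply, Equiv.image_symm_eq_preimage,
        Set.image_preimage_eq Z f.surjective]) hX
    rwa [Equiv.image_symm_eq_preimage, Set.preimage_image_eq X f.injective] at h2

/-- the system of a graph and isomorphisms -/
theorem sys_equiv {V W : Type} {adj : V → V → Prop} {adj' : W → W → Prop} (f : V ≃ W)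
    (h : ∀ u v, adj u v ↔ adj' (f u) (f v)) (X : Set V) (u v : V) :
    sys adj X u v ↔ sys adj' (f '' X) (f u) (f v) := by
  constructor
  · intro hs w hw
    obtain ⟨w, rfl⟩ := f.surjective w
    rw [← h, ← h]
    exact hs w (fun hwX => hw ⟨w, hwX, rfl⟩)
  · intro hs w hw
    rw [h, h]
    apply hs
    rintro ⟨w', hw', e⟩
    rw [f.injective e] at hw'
    exact hw hw'

/-- `PI` is invariant under isomorphism -/
theorem PI_equiv {V W : Type} {adj : V → V → Prop} {adj' : W → W → Prop} {att : V → Fin 4}
    {att' : W → Fin 4} (f : V ≃ W) (h : ∀ u v, adj u v ↔ adj' (f u) (f v))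
    (ha : ∀ v, att' (f v) = att v) : PI k adj att ↔ PI k adj' att' := by
  have key : ∀ {V W : Type} {adj : V → V → Prop} {adj' : W → W → Prop} {att : V → Fin 4}
      {att' : W → Fin 4} (f : V ≃ W) (_ : ∀ u v, adj u v ↔ adj' (f u) (f v))
      (_ : ∀ v, att' (f v) = att v), PI k adj att → PI k adj' att' := by
    intro V W adj adj' att att' f h ha
    rintro ⟨X₁, X₂, hd, hu, h2, h3, c1, c2, hj⟩
    refine ⟨f '' X₁, f '' X₂, (Set.disjoint_image_iff f.injective).2 hd, ?_, ?_, ?_, ?_, ?_, ?_⟩
    · rw [← Set.image_union, hu]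
      ext w
      obtain ⟨v, rfl⟩ := f.surjective w
      constructor
      · rintro ⟨v', hv', e⟩
        rw [← e]
        show att' (f v') ≠ 0
        rw [ha]
        exact hv'
      · intro hv
        refine ⟨v, ?_, rfl⟩
        have hv' : att' (f v) ≠ 0 := hv
        rw [ha] at hv'
        exact hv'
    · rintro w hw ⟨v, hv, rfl⟩
      rw [ha] at hw
      exact h2 v hw hv
    · rintro w hw ⟨v, hv, rfl⟩
      rw [ha] at hw
      exact h3 v hw hv
    · exact (con_equiv f (fun X u v => sys_equiv f h X u v) X₁).1 c1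
    · exact (con_equiv f (fun X u v => sys_equiv f h X u v) X₂).1 c2
    · exact (joinOK_equiv f (fun X u v => sys_equiv f h X u v) X₁ X₂).1 hj
  constructor
  · exact key f h ha
  · apply key f.symm
    · intro u v
      rw [h, Equiv.apply_symm_apply, Equiv.apply_symm_apply]
    · intro v
      rw [← ha, Equiv.apply_symm_apply]

end NLC
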