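import Pool.Agent.Lib.MP_8b2ae4_lc.A1a
import Pool.Agent.Lib.MP_8b2ae4_lc.D1b

/-! # Embeddings transfer joins -/

set_option autoImplicit false

namespace NLC

variable {A B : Type} {k : ℕ} {ρ : A → B → Prop}

theorem emb_sys_left {L L' : Half A} (R : Half B) (f : L'.V → L.V) (C : Set L.V)
    (C' : Set L'.V) (D : Set R.V)
    (hlab : ∀ u ∈ C', L.lab (f u) = L'.lab u)
    (hs : ∀ u ∈ C', ∀ v ∈ C', sys L.adj C (f u) (f v) → sys L'.adj C' u v)
    (hl : ∀ u ∈ C', likes ρ L C (f u) ⊆ likes ρ L' C' u)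
    (ho : ∀ u, u ∉ C' → ∃ v, v ∉ C ∧ L.lab v = L'.lab u) :
    ∀ u ∈ mk C' D, ∀ v ∈ mk C' D,
      sys (gadj ρ L R) (mk C D) (Sum.map f id u) (Sum.map f id v) →
      sys (gadj ρ L' R) (mk C' D) u v := by
  rintro (u | u) hu (v | v) hv h
  · rw [inl_mem_mk] at hu hv
    rw [Sum.map_inl, Sum.map_inl, sys_inl_inl] at h
    rw [sys_inl_inl]
    refine ⟨hs u hu v hv h.1, fun w hw => ?_⟩
    rw [← hlab u hu, ← hlab v hv]
    exact h.2 w hw
  · rw [inl_mem_mk] at hu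
    rw [Sum.map_inl, Sum.map_inr, sys_inl_inr] at h
    rw [sys_inl_inr]
    refine ⟨hl u hu h.1, ?_⟩
    rw [← hlab u hu]
    exact h.2
  · rw [inl_mem_mk] at hv
    rw [Sum.map_inl, Sum.map_inr, sys_inr_inl] at h
    rw [sys_inr_inl]
    refine ⟨hl v hv h.1, ?_⟩
    rw [← hlab v hv]
    exact h.2
  · rw [Sum.map_inr, Sum.map_inr, sys_inr_inr] at h
    rw [sys_inr_inr]
    refine ⟨h.1, fun w hw => ?_⟩
    obtain ⟨w', hw', e⟩ := ho w hw
    rw [← e]
    exact h.2 w' hw'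

theorem emb_sys_right {R R' : Half B} (L : Half A) (f : R'.V → R.V) (C : Set L.V)
    (D : Set R.V) (D' : Set R'.V)
    (hlab : ∀ u ∈ D', R.lab (f u) = R'.lab u)
    (hs : ∀ u ∈ D', ∀ v ∈ D', sys R.adj D (f u) (f v) → sys R'.adj D' u v)
    (hl : ∀ u ∈ D', likes (fun b a => ρ a b) R D (f u) ⊆ likes (fun b a => ρ a b) R' D' u)
    (ho : ∀ u, u ∉ D' → ∃ v, v ∉ D ∧ R.lab v = R'.lab u) :
    ∀ u ∈ mk C D', ∀ v ∈ mk C D',
      sys (gadj ρ L R) (mk C D) (Sum.map id f u) (Sum.map id f v) →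
      sys (gadj ρ L R') (mk C D') u v := by
  rintro (u | u) hu (v | v) hv h
  · rw [Sum.map_inl, Sum.map_inl, sys_inl_inl] at h
    rw [sys_inl_inl]
    refine ⟨h.1, fun w hw => ?_⟩
    obtain ⟨w', hw', e⟩ := ho w hw
    rw [← e]
    exact h.2 w' hw'
  · rw [inr_mem_mk] at hv
    rw [Sum.map_inl, Sum.map_inr, sys_inl_inr] at h
    rw [sys_inl_inr]
    refine ⟨?_, hl v hv h.2⟩
    rw [← hlab v hv]
    exact h.1
  · rw [inr_mem_mk] at hu
    rw [Sum.map_inl, Sum.map_inr, sys_inr_inl] at h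
    rw [sys_inr_inl]
    refine ⟨?_, hl u hu h.2⟩
    rw [← hlab u hu]
    exact h.1
  · rw [inr_mem_mk] at hu hv
    rw [Sum.map_inr, Sum.map_inr, sys_inr_inr] at h
    rw [sys_inr_inr]
    refine ⟨hs u hu v hv h.1, fun w hw => ?_⟩
    rw [← hlab u hu, ← hlab v hv]
    exact h.2 w hw

/-- (3.1), left version. `joinOK_map` with `Sum.map f id : L'.V ⊕ R.V → L.V ⊕ R.V`, `f` from `h`.
Each of the three conditions is checked for the four cases (`inl`/`inr`) with `sys_inl_inl`,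
`sys_inl_inr`, `sys_inr_inl`, `sys_inr_inr` (`mk_union` for the third condition): two vertices of
`L'`: `f` reflects equality of rows and preserves labels; mixed case: likes and labels; two
vertices of `R`: every label used in `L'` outside `C₁'` is used in `L` outside `C₁`. -/
theorem Emb.joinOK {L L' : Half A} {C₁ C₂ : Set L.V} {C₁' C₂' : Set L'.V}
    (h : Emb ρ L L' C₁ C₂ C₁' C₂') (R : Half B) (D₁ D₂ : Set R.V)
    (hJ : JoinOK (sys (gadj ρ L R)) k (mk C₁ D₁) (mk C₂ D₂)) :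
    JoinOK (sys (gadj ρ L' R)) k (mk C₁' D₁) (mk C₂' D₂) := by
  obtain ⟨f, f1, f2, hlab, hs1, hs2, hs3, hl1, hl2, hl3, ho1, ho2, ho3⟩ := h
  refine joinOK_map (Sum.map f id) ?_ ?_ ?_ ?_ ?_ hJ
  · rintro (u | u) hu
    · rw [inl_mem_mk] at hu
      rw [Sum.map_inl, inl_mem_mk]
      exact f1 u hu
    · rw [inr_mem_mk] at hu
      rw [Sum.map_inr, inr_mem_mk]
      exact hu
  · rintro (u | u) hu
    · rw [inl_mem_mk] at hu
      rw [Sum.map_inl, inl_mem_mk]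
      exact f2 u hu
    · rw [inr_mem_mk] at hu
      rw [Sum.map_inr, inr_mem_mk]
      exact hu
  · exact emb_sys_left R f C₁ C₁' D₁ (fun u hu => hlab u (Or.inl hu)) hs1 hl1 ho1
  · exact emb_sys_left R f C₂ C₂' D₂ (fun u hu => hlab u (Or.inr hu)) hs2 hl2 ho2
  · intro u hu v hv hE
    have key := emb_sys_left R f (C₁ ∪ C₂) (C₁' ∪ C₂') (D₁ ∪ D₂) hlab hs3 hl3 ho3
    rw [mk_union] at hE ⊢
    refine key u ?_ v ?_ hE
    · rw [← mk_union]
      exact Or.inl hu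
    · rw [← mk_union]
      exact Or.inr hv

/-- (3.1), right version (the same with `Sum.map id f`) -/
theorem Emb.joinOK' {R R' : Half B} {D₁ D₂ : Set R.V} {D₁' D₂' : Set R'.V}
    (h : Emb (fun b a => ρ a b) R R' D₁ D₂ D₁' D₂') (L : Half A) (C₁ C₂ : Set L.V)
    (hJ : JoinOK (sys (gadj ρ L R)) k (mk C₁ D₁) (mk C₂ D₂)) :
    JoinOK (sys (gadj ρ L R')) k (mk C₁ D₁') (mk C₂ D₂') := by
  obtain ⟨f, f1, f2, hlab, hs1, hs2, hs3, hl1, hl2, hl3, ho1, ho2, ho3⟩ := h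
  refine joinOK_map (Sum.map id f) ?_ ?_ ?_ ?_ ?_ hJ
  · rintro (u | u) hu
    · rw [inl_mem_mk] at hu
      rw [Sum.map_inl, inl_mem_mk]
      exact hu
    · rw [inr_mem_mk] at hu
      rw [Sum.map_inr, inr_mem_mk]
      exact f1 u hu
  · rintro (u | u) hu
    · rw [inl_mem_mk] at hu
      rw [Sum.map_inl, inl_mem_mk]
      exact hu
    · rw [inr_mem_mk] at hu
      rw [Sum.map_inr, inr_mem_mk]
      exact f2 u hu
  · exact emb_sys_right L f C₁ D₁ D₁' (fun u hu => hlab u (Or.inl hu)) hs1 hl1 ho1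
  · exact emb_sys_right L f C₂ D₂ D₂' (fun u hu => hlab u (Or.inr hu)) hs2 hl2 ho2
  · intro u hu v hv hE
    have key := emb_sys_right L f (C₁ ∪ C₂) (D₁ ∪ D₂) (D₁' ∪ D₂') hlab hs3 hl3 ho3
    rw [mk_union] at hE ⊢
    refine key u ?_ v ?_ hE
    · rw [← mk_union]
      exact Or.inl hu
    · rw [← mk_union]
      exact Or.inr hv

end NLC
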