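import Pool.Agent.Lib.MP_8b2ae4_lc.A1b
import Pool.Agent.Lib.MP_8b2ae4_lc.D1b

/-! # Pure sets -/

set_option autoImplicit false

namespace NLC

variable {A B : Type} {k : ℕ} {ρ : A → B → Prop}

/-- pure sets of `L` depend only on the relation induced by `R` on the labels. `→`:
`Con.preimage` for `Sum.inl` (a subset `Z` of `mk C ∅` is `mk (Sum.inl ⁻¹' Z) ∅`, `sys_inl_inl`;
nonempty by `Con.nonempty`); `←`: `Con.image` for `Sum.inl` (`inl_image`). -/
theorem con_pure_left (L : Half A) (R : Half B) (C : Set L.V) :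
    Con (sys (gadj ρ L R)) k (mk C ∅) ↔ Con (sysE L (eqv ρ R)) k C := by
  constructor
  · intro h
    have hpre : (Sum.inl ⁻¹' (mk C ∅ : Set (L.V ⊕ R.V))) = C := by
      ext u
      exact inl_mem_mk
    have h1 := Con.preimage (F := sysE L (eqv ρ R)) (Sum.inl : L.V → L.V ⊕ R.V) Sum.inl_injective
      (fun Z hZ u v _ _ huv => ?_) h (by
        obtain ⟨x, hx⟩ := h.nonempty
        rcases x with x | x
        · exact ⟨x, hx⟩
        · exact absurd (inr_mem_mk.mp hx) (Set.notMem_empty x))
    · rw [hpre] at h1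
      exact h1
    · have hr : (Sum.inr ⁻¹' Z : Set R.V) = ∅ := by
        ext w
        constructor
        · intro hw
          exact absurd (inr_mem_mk.mp (hZ hw)) (Set.notMem_empty w)
        · intro hw
          exact absurd hw (Set.notMem_empty w)
      rw [← mk_preimage Z, hr] at huv
      have h2 := (sys_inl_inl ρ L R _ _ u v).mp huv
      exact ⟨h2.1, fun w => h2.2 w (Set.notMem_empty w)⟩
  · intro h
    rw [← inl_image]
    refine Con.image (Sum.inl : L.V → L.V ⊕ R.V) Sum.inl_injective ?_ h
    intro Z u _ v _ huv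
    rw [inl_image, sys_inl_inl]
    exact ⟨huv.1, fun w _ => huv.2 w⟩

theorem con_pure_right (L : Half A) (R : Half B) (D : Set R.V) :
    Con (sys (gadj ρ L R)) k (mk ∅ D) ↔ Con (sysE R (eqv (fun b a => ρ a b) L)) k D := by
  constructor
  · intro h
    have hpre : (Sum.inr ⁻¹' (mk ∅ D : Set (L.V ⊕ R.V))) = D := by
      ext u
      exact inr_mem_mk
    have h1 := Con.preimage (F := sysE R (eqv (fun b a => ρ a b) L)) (Sum.inr : R.V → L.V ⊕ R.V)
      Sum.inr_injective (fun Z hZ u v _ _ huv => ?_) h (by
        obtain ⟨x, hx⟩ := h.nonempty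
        rcases x with x | x
        · exact absurd (inl_mem_mk.mp hx) (Set.notMem_empty x)
        · exact ⟨x, hx⟩)
    · rw [hpre] at h1
      exact h1
    · have hr : (Sum.inl ⁻¹' Z : Set L.V) = ∅ := by
        ext w
        constructor
        · intro hw
          exact absurd (inl_mem_mk.mp (hZ hw)) (Set.notMem_empty w)
        · intro hw
          exact absurd hw (Set.notMem_empty w)
      rw [← mk_preimage Z, hr] at huv
      have h2 := (sys_inr_inr ρ L R _ _ u v).mp huv
      exact ⟨h2.1, fun w => h2.2 w (Set.notMem_empty w)⟩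
  · intro h
    rw [← inr_image]
    refine Con.image (Sum.inr : R.V → L.V ⊕ R.V) Sum.inr_injective ?_ h
    intro Z u _ v _ huv
    rw [inr_image, sys_inr_inr]
    exact ⟨huv.1, fun w _ => huv.2 w⟩

/-- the relation induced by `L` on the labels of `R` depends only on the labels used -/
theorem eqv_congr {L L' : Half A} (h : Set.range L.lab = Set.range L'.lab) :
    eqv (fun (b : B) (a : A) => ρ a b) L = eqv (fun (b : B) (a : A) => ρ a b) L' := by
  have key : ∀ {M M' : Half A}, Set.range M'.lab ⊆ Set.range M.lab → ∀ b b' : B,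
      eqv (fun (b : B) (a : A) => ρ a b) M b b' → eqv (fun (b : B) (a : A) => ρ a b) M' b b' := by
    intro M M' hMM b b' he w
    obtain ⟨w', hw'⟩ := hMM ⟨w, rfl⟩
    have h1 := he w'
    rw [hw'] at h1
    exact h1
  funext b b'
  exact propext ⟨key h.symm.le b b', key h.le b b'⟩

end NLC
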