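import Pool.Agent.Lib.MP_8b2ae4_lc.D2a
import Pool.Agent.Lib.MP_8b2ae4_lc.D2b

/-! # Embeddings transfer chains -/

set_option autoImplicit false

namespace NLC

variable {A B : Type} {k : ℕ} {ρ : A → B → Prop}

/-- an `L`-chain leaves the part in `R` unchanged and makes the part in `L` larger (induction on
the chain; a step adds a set `A ⊆ range inl`) -/
theorem chain_left_shape {L : Half A} {R : Half B} {X Y : Set (L.V ⊕ R.V)}
    (h : Chain (gadj ρ L R) k (Set.range Sum.inl) X Y) :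
    Sum.inr ⁻¹' X = Sum.inr ⁻¹' Y ∧ Sum.inl ⁻¹' X ⊆ Sum.inl ⁻¹' Y := by
  induction h with
  | refl => exact ⟨rfl, subset_rfl⟩
  | tail _ hs ih =>
    obtain ⟨A', hA, -, -, -, rfl⟩ := hs
    refine ⟨?_, fun x hx => Or.inl (ih.2 hx)⟩
    rw [ih.1]
    ext x
    simp only [Set.mem_preimage, Set.mem_union]
    refine ⟨Or.inl, ?_⟩
    rintro (h | h)
    · exact h
    · obtain ⟨y, hy⟩ := hA h
      exact absurd hy Sum.inl_ne_inr

theorem chain_right_shape {L : Half A} {R : Half B} {X Y : Set (L.V ⊕ R.V)}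
    (h : Chain (gadj ρ L R) k (Set.range Sum.inl)ᶜ X Y) :
    Sum.inl ⁻¹' X = Sum.inl ⁻¹' Y ∧ Sum.inr ⁻¹' X ⊆ Sum.inr ⁻¹' Y := by
  induction h with
  | refl => exact ⟨rfl, subset_rfl⟩
  | tail _ hs ih =>
    obtain ⟨A', hA, -, -, -, rfl⟩ := hs
    refine ⟨?_, fun x hx => Or.inl (ih.2 hx)⟩
    rw [ih.1]
    ext x
    simp only [Set.mem_preimage, Set.mem_union]
    refine ⟨Or.inl, ?_⟩
    rintro (h | h)
    · exact h
    · exact absurd ⟨x, rfl⟩ (hA h)

private theorem chain_left_aux {L : Half A} {R R' : Half B} {D : Set R.V} {D' : Set R'.V}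
    (he : eqv ρ R = eqv ρ R') (hE : Emb (fun b a => ρ a b) R R' D ∅ D' ∅)
    {X Y : Set (L.V ⊕ R.V)} (h : Chain (gadj ρ L R) k (Set.range Sum.inl) X Y)
    (hX : Sum.inr ⁻¹' X = D) :
    Chain (gadj ρ L R') k (Set.range Sum.inl) (mk (Sum.inl ⁻¹' X) D') (mk (Sum.inl ⁻¹' Y) D') := by
  induction h with
  | refl => exact Relation.ReflTransGen.refl
  | @tail Y' Z h' hs ih =>
    refine Relation.ReflTransGen.tail ih ?_
    have hY : Sum.inr ⁻¹' Y' = D := (chain_left_shape h').1.symm.trans hX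
    obtain ⟨A', hA, hC, hd, hJ, rfl⟩ := hs
    have hA0 : Sum.inr ⁻¹' A' = (∅ : Set R.V) := by
      rw [← mk_preimage A'] at hA
      exact (mk_empty_subset _ _).1 hA
    have hA1 : mk (Sum.inl ⁻¹' A') ∅ = A' := by rw [← hA0]; exact mk_preimage A'
    have hY1 : mk (Sum.inl ⁻¹' Y') D = Y' := by rw [← hY]; exact mk_preimage Y'
    refine ⟨mk (Sum.inl ⁻¹' A') ∅, (mk_empty_subset _ _).2 rfl, ?_, ?_, ?_, ?_⟩
    · rw [con_pure_left, ← he, ← con_pure_left, hA1]
      exact hC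
    · rw [← hA1, ← hY1, mk_disjoint] at hd
      exact mk_disjoint.2 ⟨hd.1, Set.disjoint_empty _⟩
    · rw [← hA1, ← hY1] at hJ
      exact hE.joinOK' L _ _ hJ
    · rw [mk_union, Set.union_empty, Set.preimage_union]

private theorem chain_right_aux {L L' : Half A} {R : Half B} {C : Set L.V} {C' : Set L'.V}
    (he : Set.range L.lab = Set.range L'.lab) (hE : Emb ρ L L' C ∅ C' ∅)
    {X Y : Set (L.V ⊕ R.V)} (h : Chain (gadj ρ L R) k (Set.range Sum.inl)ᶜ X Y)
    (hX : Sum.inl ⁻¹' X = C) :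
    Chain (gadj ρ L' R) k (Set.range Sum.inl)ᶜ (mk C' (Sum.inr ⁻¹' X)) (mk C' (Sum.inr ⁻¹' Y)) := by
  induction h with
  | refl => exact Relation.ReflTransGen.refl
  | @tail Y' Z h' hs ih =>
    refine Relation.ReflTransGen.tail ih ?_
    have hY : Sum.inl ⁻¹' Y' = C := (chain_right_shape h').1.symm.trans hX
    obtain ⟨A', hA, hC, hd, hJ, rfl⟩ := hs
    have hA0 : Sum.inl ⁻¹' A' = (∅ : Set L.V) := by
      rw [← mk_preimage A'] at hA
      exact (mk_empty_subset' _ _).1 hA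
    have hA1 : mk ∅ (Sum.inr ⁻¹' A') = A' := by rw [← hA0]; exact mk_preimage A'
    have hY1 : mk C (Sum.inr ⁻¹' Y') = Y' := by rw [← hY]; exact mk_preimage Y'
    refine ⟨mk ∅ (Sum.inr ⁻¹' A'), (mk_empty_subset' _ _).2 rfl, ?_, ?_, ?_, ?_⟩
    · rw [con_pure_right, ← eqv_congr he, ← con_pure_right, hA1]
      exact hC
    · rw [← hA1, ← hY1, mk_disjoint] at hd
      exact mk_disjoint.2 ⟨Set.disjoint_empty _, hd.2⟩
    · rw [← hA1, ← hY1] at hJ
      exact hE.joinOK R _ _ hJ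
    · rw [mk_union, Set.union_empty, Set.preimage_union]

/-- the `L`-chains of `L + R` depend only on `(R, D)` through the relation on labels and an
embedding. Induction on the chain, in the form: for every chain `X →* Y` with
`Sum.inr ⁻¹' X = D` the pair `mk (Sum.inl ⁻¹' X) D'`, `mk (Sum.inl ⁻¹' Y) D'` is joined by a chain
in `L + R'`. One step adds a set `A = mk A' ∅`; it is constructible in `L + R'` by
`con_pure_left` and `he`; the join by `hE.joinOK'` with `D₂ = D₂' = ∅`. -/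
theorem chain_left {L : Half A} {R R' : Half B} {D : Set R.V} {D' : Set R'.V}
    (he : eqv ρ R = eqv ρ R') (hE : Emb (fun b a => ρ a b) R R' D ∅ D' ∅) {C C' : Set L.V}
    (h : Chain (gadj ρ L R) k (Set.range Sum.inl) (mk C D) (mk C' D)) :
    Chain (gadj ρ L R') k (Set.range Sum.inl) (mk C D') (mk C' D') := by
  have h1 := chain_left_aux (k := k) he hE h (by ext x; simp)
  have h2 : ∀ C : Set L.V, Sum.inl ⁻¹' (mk C D) = C := fun C => by ext x; simp
  rwa [h2, h2] at h1

/-- the `R`-chains of `L + R` depend only on `(L, C)` through the used labels and an embedding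
(`con_pure_right`, `eqv_congr`, `Emb.joinOK`) -/
theorem chain_right {L L' : Half A} {R : Half B} {C : Set L.V} {C' : Set L'.V}
    (he : Set.range L.lab = Set.range L'.lab) (hE : Emb ρ L L' C ∅ C' ∅) {D D' : Set R.V}
    (h : Chain (gadj ρ L R) k (Set.range Sum.inl)ᶜ (mk C D) (mk C D')) :
    Chain (gadj ρ L' R) k (Set.range Sum.inl)ᶜ (mk C' D) (mk C' D') := by
  have h1 := chain_right_aux (k := k) he hE h (by ext x; simp)
  have h2 : ∀ D : Set R.V, Sum.inr ⁻¹' (mk C D) = D := fun D => by ext x; simp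
  rwa [h2, h2] at h1

end NLC
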