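import Pool.Agent.Lib.MP_8b2ae4_lc.A1c
import Pool.Agent.Lib.MP_8b2ae4_lc.D1b

/-! # Few rows -/

set_option autoImplicit false

namespace NLC

/-- numbering the values of a function on a set (a finite set with at most `k` elements embeds into
`Fin k`) -/
theorem exists_numbering {V β : Type} (f : V → β) (C : Set V) {k : ℕ} (hk : 1 ≤ k)
    (hf : (f '' C).Finite) (h : (f '' C).ncard ≤ k) :
    ∃ i : V → Fin k, ∀ u ∈ C, ∀ v ∈ C, i u = i v ↔ f u = f v := by
  classical
  have : Fintype ↥(f '' C) := hf.fintype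
  have hc : Fintype.card ↥(f '' C) ≤ Fintype.card (Fin k) := by
    rw [Fintype.card_fin, ← Set.toFinset_card, ← Set.ncard_eq_toFinset_card']
    exact h
  obtain ⟨e⟩ := Function.Embedding.nonempty_of_card_le hc
  refine ⟨fun v => if hv : f v ∈ f '' C then e ⟨f v, hv⟩ else ⟨0, hk⟩, fun u hu v hv => ?_⟩
  have h1 : f u ∈ f '' C := ⟨u, hu, rfl⟩
  have h2 : f v ∈ f '' C := ⟨v, hv, rfl⟩
  simp only [dif_pos h1, dif_pos h2]
  constructor
  · intro he
    exact congrArg Subtype.val (e.injective he)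
  · intro he
    exact congrArg e (Subtype.ext he)

/-- the pair `(C₁, C₂)` has at most `k` inner rows on each side -/
def Few {A : Type} (k : ℕ) (L : Half A) (C₁ C₂ : Set L.V) : Prop :=
  (row L.adj C₁ '' C₁).ncard ≤ k ∧ (row L.adj C₂ '' C₂).ncard ≤ k

/-- joins have few rows: `ncard_image_le_of_label` with the labelling `l ∘ Sum.inl`,
`sys_inl_inl`, `sys_iff_row` -/
theorem few_of_joinOK {A B : Type} {ρ : A → B → Prop} {k : ℕ} {L : Half A} {R : Half B}
    {C₁ C₂ : Set L.V} {D₁ D₂ : Set R.V}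
    (h : JoinOK (sys (gadj ρ L R)) k (mk C₁ D₁) (mk C₂ D₂)) : Few k L C₁ C₂ := by
  obtain ⟨l, h1, h2, -⟩ := h
  constructor
  · refine (ncard_image_le_of_label (fun u => l (Sum.inl u)) _ fun u hu v hv he => ?_).2
    exact sys_iff_row.1 ((sys_inl_inl ρ L R C₁ D₁ u v).1
      (h1 _ (inl_mem_mk.2 hu) _ (inl_mem_mk.2 hv) he)).1
  · refine (ncard_image_le_of_label (fun u => l (Sum.inl u)) _ fun u hu v hv he => ?_).2
    exact sys_iff_row.1 ((sys_inl_inl ρ L R C₂ D₂ u v).1
      (h2 _ (inl_mem_mk.2 hu) _ (inl_mem_mk.2 hv) he)).1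

/-- constructible sets have few rows: `Con.rows`; the rows in `L` of the vertices of `C` are the
images of the rows in `L + R` under `Sum.inl ⁻¹'` -/
theorem few_of_con {A B : Type} {ρ : A → B → Prop} {k : ℕ} (hk : 1 ≤ k) {L : Half A} {R : Half B}
    {C : Set L.V} {D : Set R.V}
    (h : Con (sys (gadj ρ L R)) k (mk C D)) : Few k L C ∅ := by
  obtain ⟨l, h1⟩ := Con.label hk h
  constructor
  · refine (ncard_image_le_of_label (fun u => l (Sum.inl u)) _ fun u hu v hv he => ?_).2
    exact sys_iff_row.1 ((sys_inl_inl ρ L R C D u v).1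
      (h1 _ (inl_mem_mk.2 hu) _ (inl_mem_mk.2 hv) he)).1
  · rw [Set.image_empty, Set.ncard_empty]
    exact Nat.zero_le _

/-- the version of `few_of_con` for the right side -/
theorem few_of_con' {A B : Type} {ρ : A → B → Prop} {k : ℕ} (hk : 1 ≤ k) {L : Half A} {R : Half B}
    {C : Set L.V} {D : Set R.V}
    (h : Con (sys (gadj ρ L R)) k (mk C D)) : Few k R D ∅ := by
  obtain ⟨l, h1⟩ := Con.label hk h
  constructor
  · refine (ncard_image_le_of_label (fun u => l (Sum.inr u)) _ fun u hu v hv he => ?_).2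
    exact sys_iff_row.1 ((sys_inr_inr ρ L R C D u v).1
      (h1 _ (inr_mem_mk.2 hu) _ (inr_mem_mk.2 hv) he)).1
  · rw [Set.image_empty, Set.ncard_empty]
    exact Nat.zero_le _

end NLC
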