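import Pool.Agent.Lib.MP_8b2ae4_lc.D3a

/-! # Codes -/

set_option autoImplicit false

namespace NLC

private theorem row_union {V : Type} (adj : V → V → Prop) (X Y : Set V) (u : V) :
    row adj (X ∪ Y) u = row adj X u \ (X ∪ Y) := by
  ext w
  constructor
  · rintro ⟨h1, h2⟩
    exact ⟨⟨fun h => h1 (Or.inl h), h2⟩, h1⟩
  · rintro ⟨⟨_, h2⟩, h1⟩
    exact ⟨h1, h2⟩

private theorem row_union' {V : Type} (adj : V → V → Prop) (X Y : Set V) (u : V) :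
    row adj (X ∪ Y) u = row adj Y u \ (X ∪ Y) := by
  ext w
  constructor
  · rintro ⟨h1, h2⟩
    exact ⟨⟨fun h => h1 (Or.inr h), h2⟩, h1⟩
  · rintro ⟨⟨_, h2⟩, h1⟩
    exact ⟨h1, h2⟩

private theorem few_union {A : Type} {k : ℕ} {L : Half A} {C₁ C₂ : Set L.V}
    (h : Few k L C₁ C₂) : (row L.adj (C₁ ∪ C₂) '' (C₁ ∪ C₂)).ncard ≤ 2 * k := by
  have e : row L.adj (C₁ ∪ C₂) '' (C₁ ∪ C₂) =
      ((fun S => S \ (C₁ ∪ C₂)) '' (row L.adj C₁ '' C₁)) ∪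
        ((fun S => S \ (C₁ ∪ C₂)) '' (row L.adj C₂ '' C₂)) := by
    rw [Set.image_union, Set.image_image, Set.image_image]
    congr 1
    · exact Set.image_congr fun u _ => row_union _ _ _ _
    · exact Set.image_congr fun u _ => row_union' _ _ _ _
  rw [e]
  refine (Set.ncard_union_le _ _).trans ?_
  have h1 := (Set.ncard_image_le (f := fun S => S \ (C₁ ∪ C₂))
    (Set.toFinite (row L.adj C₁ '' C₁))).trans h.1
  have h2 := (Set.ncard_image_le (f := fun S => S \ (C₁ ∪ C₂))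
    (Set.toFinite (row L.adj C₂ '' C₂))).trans h.2
  omega

private theorem few_numberings {A : Type} {k : ℕ} (hk : 1 ≤ k) {L : Half A} {C₁ C₂ : Set L.V}
    (h : Few k L C₁ C₂) : ∃ i : (L.V → Fin k) × (L.V → Fin k) × (L.V → Fin (2 * k)),
      (∀ u ∈ C₁, ∀ v ∈ C₁, i.1 u = i.1 v ↔ row L.adj C₁ u = row L.adj C₁ v) ∧
      (∀ u ∈ C₂, ∀ v ∈ C₂, i.2.1 u = i.2.1 v ↔ row L.adj C₂ u = row L.adj C₂ v) ∧
      (∀ u ∈ C₁ ∪ C₂, ∀ v ∈ C₁ ∪ C₂, i.2.2 u = i.2.2 v ↔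
        row L.adj (C₁ ∪ C₂) u = row L.adj (C₁ ∪ C₂) v) := by
  obtain ⟨i₁, h1⟩ := exists_numbering (row L.adj C₁) C₁ hk (Set.toFinite _) h.1
  obtain ⟨i₂, h2⟩ := exists_numbering (row L.adj C₂) C₂ hk (Set.toFinite _) h.2
  obtain ⟨o, h3⟩ := exists_numbering (row L.adj (C₁ ∪ C₂)) (C₁ ∪ C₂) (k := 2 * k)
    (by omega) (Set.toFinite _) (few_union h)
  exact ⟨(i₁, i₂, o), h1, h2, h3⟩

/-- **codes**: a finite invariant of pairs of sets which determines them up to embeddings.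
`K = Prop × Set (Prop × Prop × A × Fin k × Fin k × Fin (2 * k) × Set B × Set B × Set B)`.
If `Few k L C₁ C₂` holds choose numberings `i₁`, `i₂` of the functions `row L.adj C₁` on `C₁` and
`row L.adj C₂` on `C₂` (`exists_numbering`) and a numbering `o : L.V → Fin (2 * k)` of
`row L.adj (C₁ ∪ C₂)` on `C₁ ∪ C₂` (at most `2 k` values: the row of `u ∈ C₁` outside `C₁ ∪ C₂` is
`row L.adj C₁ u \ (C₁ ∪ C₂)`, the same for `C₂`), and put
`cd L C₁ C₂ = (True, range of u ↦ (u ∈ C₁, u ∈ C₂, lab u, i₁ u, i₂ u, o u, likes ρ L C₁ u,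
likes ρ L C₂ u, likes ρ L (C₁ ∪ C₂) u))`; otherwise `cd L C₁ C₂ = (False, ∅)`.
If the codes are equal and `Few k L C₁ C₂` then `Few k L' C₁' C₂'` and for every `u' : L'.V` there
is `f u' : L.V` with the same tuple. (For two vertices `u, v ∈ C₁'` with
`sys L.adj C₁ (f u) (f v)`: `i₁ (f u) = i₁ (f v)`, so `i₁' u = i₁' v`, so `sys L'.adj C₁' u v`.) -/
theorem exists_code {A B : Type} [Finite A] [Finite B] (ρ : A → B → Prop) (k : ℕ) (hk : 1 ≤ k) :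
    ∃ (K : Type) (_ : Finite K) (cd : (L : Half A) → Set L.V → Set L.V → K),
      ∀ (L L' : Half A) (C₁ C₂ : Set L.V) (C₁' C₂' : Set L'.V), Few k L C₁ C₂ →
        cd L C₁ C₂ = cd L' C₁' C₂' → Emb ρ L L' C₁ C₂ C₁' C₂' ∧ Few k L' C₁' C₂' := by
  classical
  refine ⟨Prop × Set (Prop × Prop × A × Fin k × Fin k × Fin (2 * k) × Set B × Set B × Set B),
    inferInstance, fun L C₁ C₂ => if h : Few k L C₁ C₂ then
      (True, Set.range fun u : L.V => (u ∈ C₁, u ∈ C₂, L.lab u,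
        (few_numberings hk h).choose.1 u, (few_numberings hk h).choose.2.1 u,
        (few_numberings hk h).choose.2.2 u, likes ρ L C₁ u, likes ρ L C₂ u,
        likes ρ L (C₁ ∪ C₂) u)) else (False, ∅), ?_⟩
  intro L L' C₁ C₂ C₁' C₂' hF he
  by_cases hF' : Few k L' C₁' C₂'
  swap
  · simp only [dif_pos hF, dif_neg hF'] at he
    exact absurd (congrArg Prod.fst he) (by simp)
  refine ⟨?_, hF'⟩
  simp only [dif_pos hF, dif_pos hF'] at he
  have hr := congrArg Prod.snd he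
  dsimp only at hr
  obtain ⟨n1, n2, n3⟩ := (few_numberings hk hF).choose_spec
  obtain ⟨m1, m2, m3⟩ := (few_numberings hk hF').choose_spec
  generalize (few_numberings hk hF).choose = i at hr n1 n2 n3
  generalize (few_numberings hk hF').choose = j at hr m1 m2 m3
  have hx : ∀ u' : L'.V, ∃ u : L.V, (u ∈ C₁ ↔ u' ∈ C₁') ∧ (u ∈ C₂ ↔ u' ∈ C₂') ∧
      L.lab u = L'.lab u' ∧ i.1 u = j.1 u' ∧ i.2.1 u = j.2.1 u' ∧ i.2.2 u = j.2.2 u' ∧
      likes ρ L C₁ u = likes ρ L' C₁' u' ∧ likes ρ L C₂ u = likes ρ L' C₂' u' ∧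
      likes ρ L (C₁ ∪ C₂) u = likes ρ L' (C₁' ∪ C₂') u' := by
    intro u'
    have hm := Set.mem_range_self (f := fun u : L'.V => (u ∈ C₁', u ∈ C₂', L'.lab u,
        j.1 u, j.2.1 u, j.2.2 u, likes ρ L' C₁' u, likes ρ L' C₂' u,
        likes ρ L' (C₁' ∪ C₂') u)) u'
    rw [← hr] at hm
    obtain ⟨u, hu⟩ := hm
    simp only [Prod.mk.injEq] at hu
    obtain ⟨a1, a2, a3, a4, a5, a6, a7, a8, a9⟩ := hu
    exact ⟨u, iff_of_eq a1, iff_of_eq a2, a3, a4, a5, a6, a7, a8, a9⟩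
  choose f f1 f2 f3 f4 f5 f6 f7 f8 f9 using hx
  have f12 : ∀ u, f u ∈ C₁ ∪ C₂ ↔ u ∈ C₁' ∪ C₂' := fun u => or_congr (f1 u) (f2 u)
  refine ⟨f, fun u hu => (f1 u).2 hu, fun u hu => (f2 u).2 hu, fun u _ => f3 u, ?_, ?_, ?_,
    fun u _ => (f7 u).subset, fun u _ => (f8 u).subset, fun u _ => (f9 u).subset, ?_, ?_, ?_⟩
  · intro u hu v hv h
    rw [sys_iff_row] at h ⊢
    rw [← n1 _ ((f1 u).2 hu) _ ((f1 v).2 hv), f4, f4] at h
    exact (m1 u hu v hv).1 h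
  · intro u hu v hv h
    rw [sys_iff_row] at h ⊢
    rw [← n2 _ ((f2 u).2 hu) _ ((f2 v).2 hv), f5, f5] at h
    exact (m2 u hu v hv).1 h
  · intro u hu v hv h
    rw [sys_iff_row] at h ⊢
    rw [← n3 _ ((f12 u).2 hu) _ ((f12 v).2 hv), f6, f6] at h
    exact (m3 u hu v hv).1 h
  · exact fun u hu => ⟨f u, fun h => hu ((f1 u).1 h), f3 u⟩
  · exact fun u hu => ⟨f u, fun h => hu ((f2 u).1 h), f3 u⟩
  · exact fun u hu => ⟨f u, fun h => hu ((f12 u).1 h), f3 u⟩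

end NLC
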