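import Pool.Agent.Lib.MP_8b2ae4_lc.C1
import Pool.Agent.Lib.MP_8b2ae4_lc.D2c
import Pool.Agent.Lib.MP_8b2ae4_lc.D3b

/-! # Types of depth `n` and the simulation lemma -/

set_option autoImplicit false

namespace NLC

/-- the data used in the definition of the types: a code on each side -/
structure Codes (A B : Type) (ρ : A → B → Prop) (k : ℕ) : Type 1 where
  K : Type
  K' : Type
  finK : Finite K
  finK' : Finite K'
  cd : (L : Half A) → Set L.V → Set L.V → K
  cd' : (R : Half B) → Set R.V → Set R.V → K'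
  spec : ∀ (L L' : Half A) (C₁ C₂ : Set L.V) (C₁' C₂' : Set L'.V), Few k L C₁ C₂ →
    cd L C₁ C₂ = cd L' C₁' C₂' → Emb ρ L L' C₁ C₂ C₁' C₂' ∧ Few k L' C₁' C₂'
  spec' : ∀ (R R' : Half B) (D₁ D₂ : Set R.V) (D₁' D₂' : Set R'.V), Few k R D₁ D₂ →
    cd' R D₁ D₂ = cd' R' D₁' D₂' → Emb (fun b a => ρ a b) R R' D₁ D₂ D₁' D₂' ∧ Few k R' D₁' D₂'

attribute [instance] Codes.finK Codes.finK'

variable {A B : Type} {ρ : A → B → Prop} {k : ℕ}

theorem exists_codes [Finite A] [Finite B] (ρ : A → B → Prop) (k : ℕ) (hk : 1 ≤ k) :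
    Nonempty (Codes A B ρ k) := by
  obtain ⟨K, hK, cd, h⟩ := exists_code ρ k hk
  obtain ⟨K', hK', cd', h'⟩ := exists_code (fun (b : B) (a : A) => ρ a b) k hk
  exact ⟨⟨K, K', hK, hK', cd, cd', h, h'⟩⟩

/-- the (finite) type of types of depth `n` -/
def TyF (c : Codes A B ρ k) : ℕ → Type
  | 0 => Prop × Set (A → A → Prop) × c.K × Set A
  | n + 1 => TyF c n × Set (c.K × TyF c n × TyF c n) × Set ((A → A → Prop) × c.K' × TyF c n)

instance TyF.finite [Finite A] (c : Codes A B ρ k) : ∀ n, Finite (TyF c n)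
  | 0 => by unfold TyF; infer_instance
  | n + 1 => by
    have := TyF.finite c n
    unfold TyF
    infer_instance

/-- the `L`-chains from `C₁` to `C` next to a context `(R, D)` with relation `e` and code `d` -/
def ChTy (c : Codes A B ρ k) (L : Half A) (C₁ C : Set L.V) (e : A → A → Prop) (d : c.K') : Prop :=
  ∃ (R : Half B) (D : Set R.V), eqv ρ R = e ∧ c.cd' R D ∅ = d ∧ Few k R D ∅ ∧
    Chain (gadj ρ L R) k (Set.range Sum.inl) (mk C₁ D) (mk C D)

/-- the type of depth `n` of a subset of `L` -/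
def ty (c : Codes A B ρ k) : (n : ℕ) → (L : Half A) → Set L.V → TyF c n
  | 0, L, C => (C = ∅, {e | Con (sysE L e) k C}, c.cd L C ∅, Set.range L.lab)
  | n + 1, L, C => (ty c n L C,
      {q | ∃ C₁ C₂, C₁ ∪ C₂ = C ∧ Disjoint C₁ C₂ ∧ q = (c.cd L C₁ C₂, ty c n L C₁, ty c n L C₂)},
      {q | ∃ C₁, ChTy c L C₁ C q.1 q.2.1 ∧ q.2.2 = ty c n L C₁})

theorem ty_zero_of_ty {c : Codes A B ρ k} {n : ℕ} {L L' : Half A} {C : Set L.V} {C' : Set L'.V}
    (h : ty c n L C = ty c n L' C') : ty c 0 L C = ty c 0 L' C' := by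
  induction n with
  | zero => exact h
  | succ n ih => exact ih (congrArg Prod.fst h)

/-- (3.3), the simulation lemma. Induction on `n`.
`n = 0`: if `mk C D ⊆ range inl` then `D = ∅` (`mk_empty_subset`), and `con_pure_left` for both
sides: the second component of the types (membership of `eqv ρ R`); if `mk C D ⊆ (range inl)ᶜ` then
`C = ∅`, so `C' = ∅` by the first component, and `con_pure_right`, `eqv_congr` (last component).
`n + 1`, four cases: (i) `Mac n`: first component. (ii) join `mk C D = X₁ ∪ X₂`: write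
`Xᵢ = mk Cᵢ Dᵢ` (`mk_preimage`, `mk_union`, `mk_inj`, `mk_disjoint`); the second component gives
`C₁' ∪ C₂' = C'` with the same code and types; `few_of_joinOK`, `c.spec`, `Emb.joinOK`, induction
hypothesis. (iii) `Chain` in `range inl` from `X' = mk C₁ D` (`chain_left_shape`): the third
component for `e = eqv ρ R`, `d = c.cd' R D ∅` (`Few k R D ∅` by `few_of_con'` and `Mac.con`)
gives `C₁'` with the same type and a chain next to some `(R'', D'')` with `eqv ρ R'' = eqv ρ R` and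
the same code; `c.spec'`, `chain_left`. (iv) `Chain` in `(range inl)ᶜ` from `X' = mk C D₁`
(`chain_right_shape`): induction hypothesis for `D₁`; `ty_zero_of_ty` gives the same code
`c.cd L C ∅ = c.cd L' C' ∅` and the same labels; `few_of_con`, `c.spec`, `chain_right`. -/
theorem simulation (hk : 1 ≤ k) (c : Codes A B ρ k) (n : ℕ) {L L' : Half A} {C : Set L.V}
    {C' : Set L'.V} (h : ty c n L C = ty c n L' C') (R : Half B) (D : Set R.V)
    (hM : Mac (gadj ρ L R) k (Set.range Sum.inl) n (mk C D)) :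
    Mac (gadj ρ L' R) k (Set.range Sum.inl) n (mk C' D) := by
  induction n generalizing C C' D with
  | zero =>
    have h1 : (C = ∅) = (C' = ∅) := congrArg Prod.fst h
    have h2 : {e | Con (sysE L e) k C} = {e | Con (sysE L' e) k C'} :=
      congrArg (fun q => q.2.1) h
    have h4 : Set.range L.lab = Set.range L'.lab := congrArg (fun q => q.2.2.2) h
    obtain ⟨hS, hC⟩ := hM
    rcases hS with hS | hS
    · obtain rfl : D = ∅ := (mk_empty_subset C D).1 hS
      refine ⟨Or.inl ((mk_empty_subset C' ∅).2 rfl), ?_⟩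
      rw [con_pure_left] at hC ⊢
      have : eqv ρ R ∈ {e | Con (sysE L e) k C} := hC
      rw [h2] at this
      exact this
    · have hC0 : C = ∅ := (mk_empty_subset' C D).1 hS
      have hC0' : C' = ∅ := by rw [← h1]; exact hC0
      subst hC0 hC0'
      refine ⟨Or.inr ((mk_empty_subset' ∅ D).2 rfl), ?_⟩
      rw [con_pure_right] at hC ⊢
      rw [← eqv_congr (ρ := ρ) h4]
      exact hC
  | succ n ih =>
    have h1 : ty c n L C = ty c n L' C' := congrArg Prod.fst h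
    have h2 : {q | ∃ C₁ C₂, C₁ ∪ C₂ = C ∧ Disjoint C₁ C₂ ∧
          q = (c.cd L C₁ C₂, ty c n L C₁, ty c n L C₂)} =
        {q | ∃ C₁ C₂, C₁ ∪ C₂ = C' ∧ Disjoint C₁ C₂ ∧
          q = (c.cd L' C₁ C₂, ty c n L' C₁, ty c n L' C₂)} := congrArg (fun q => q.2.1) h
    have h3 : {q : (A → A → Prop) × c.K' × TyF c n | ∃ C₁, ChTy c L C₁ C q.1 q.2.1 ∧
          q.2.2 = ty c n L C₁} =
        {q | ∃ C₁, ChTy c L' C₁ C' q.1 q.2.1 ∧ q.2.2 = ty c n L' C₁} :=
      congrArg (fun q => q.2.2) h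
    rcases hM with hM | ⟨X₁, X₂, hM₁, hM₂, hd, hJ, hX⟩ | ⟨X', hM', hch⟩ | ⟨X', hM', hch⟩
    · exact Or.inl (ih h1 D hM)
    · refine Or.inr (Or.inl ?_)
      obtain ⟨C₁, D₁, rfl⟩ : ∃ C₁ D₁, X₁ = mk C₁ D₁ := ⟨_, _, (mk_preimage X₁).symm⟩
      obtain ⟨C₂, D₂, rfl⟩ : ∃ C₂ D₂, X₂ = mk C₂ D₂ := ⟨_, _, (mk_preimage X₂).symm⟩
      rw [mk_union, mk_inj] at hX
      obtain ⟨rfl, rfl⟩ := hX
      rw [mk_disjoint] at hd
      have hm : (c.cd L C₁ C₂, ty c n L C₁, ty c n L C₂) ∈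
          {q | ∃ C₁' C₂', C₁' ∪ C₂' = C₁ ∪ C₂ ∧ Disjoint C₁' C₂' ∧
            q = (c.cd L C₁' C₂', ty c n L C₁', ty c n L C₂')} := ⟨C₁, C₂, rfl, hd.1, rfl⟩
      rw [h2] at hm
      obtain ⟨C₁', C₂', hU, hd', hq⟩ := hm
      have q1 : c.cd L C₁ C₂ = c.cd L' C₁' C₂' := congrArg Prod.fst hq
      have q2 : ty c n L C₁ = ty c n L' C₁' := congrArg (fun q => q.2.1) hq
      have q3 : ty c n L C₂ = ty c n L' C₂' := congrArg (fun q => q.2.2) hq
      have hE := (c.spec L L' C₁ C₂ C₁' C₂' (few_of_joinOK hJ) q1).1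
      refine ⟨mk C₁' D₁, mk C₂' D₂, ih q2 D₁ hM₁, ih q3 D₂ hM₂, mk_disjoint.2 ⟨hd', hd.2⟩,
        hE.joinOK R D₁ D₂ hJ, ?_⟩
      rw [mk_union, hU]
    · refine Or.inr (Or.inr (Or.inl ?_))
      obtain ⟨C₁, D₁, rfl⟩ : ∃ C₁ D₁, X' = mk C₁ D₁ := ⟨_, _, (mk_preimage X').symm⟩
      have hD : D₁ = D := by
        have := (chain_left_shape hch).1
        ext w
        have h5 := Set.ext_iff.1 this w
        simpa using h5
      subst hD
      have hf : Few k R D₁ ∅ := few_of_con' hk (L := L) (C := C₁) hM'.con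
      have hm : (eqv ρ R, c.cd' R D₁ ∅, ty c n L C₁) ∈
          {q : (A → A → Prop) × c.K' × TyF c n | ∃ C₁, ChTy c L C₁ C q.1 q.2.1 ∧
            q.2.2 = ty c n L C₁} := ⟨C₁, ⟨R, D₁, rfl, rfl, hf, hch⟩, rfl⟩
      rw [h3] at hm
      obtain ⟨C₁', ⟨R', D', he, hcd, hf', hch'⟩, hty⟩ := hm
      have hE := (c.spec' R' R D' ∅ D₁ ∅ hf' hcd).1
      exact ⟨mk C₁' D₁, ih hty D₁ hM', chain_left he hE hch'⟩
    · refine Or.inr (Or.inr (Or.inr ?_))
      obtain ⟨C₁, D₁, rfl⟩ : ∃ C₁ D₁, X' = mk C₁ D₁ := ⟨_, _, (mk_preimage X').symm⟩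
      have hD : C₁ = C := by
        have := (chain_right_shape hch).1
        ext w
        have h5 := Set.ext_iff.1 this w
        simpa using h5
      subst hD
      have h0 := ty_zero_of_ty h1
      have h6 : c.cd L C₁ ∅ = c.cd L' C' ∅ := congrArg (fun q => q.2.2.1) h0
      have h7 : Set.range L.lab = Set.range L'.lab := congrArg (fun q => q.2.2.2) h0
      have hf : Few k L C₁ ∅ := few_of_con hk (R := R) (D := D₁) hM'.con
      have hE := (c.spec L L' C₁ ∅ C' ∅ hf h6).1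
      exact ⟨mk C' D₁, ih h1 D₁ hM', chain_right h7 hE hch⟩

end NLC
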