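import Pool.Agent.Lib.MP_8b2ae4_lc.C7c
import Pool.Agent.Lib.MP_8b2ae4_lc.D4

/-! # Finite index -/

set_option autoImplicit false

namespace NLC

/-- the characteristic of a side -/
private def charOf {k m : ℕ} (c : Codes (Fin m) (Set (Fin m)) (mem m) k) (N : ℕ) (L : Side m) :
    Set (c.K × TyF c N × TyF c N) :=
  {q | ∃ C₁ C₂ : Set L.V, Disjoint C₁ C₂ ∧ C₁ ∪ C₂ = {v | L.att v ≠ 0} ∧
    (∀ v, L.att v = 2 → v ∉ C₂) ∧ (∀ v, L.att v = 3 → v ∉ C₁) ∧
    q = (c.cd L C₁ C₂, ty c N L C₁, ty c N L C₂)}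

private theorem charOf_imp {k m : ℕ} (hk : 1 ≤ k) (c : Codes (Fin m) (Set (Fin m)) (mem m) k)
    {N : ℕ} (hN : ∀ (V : Type) [Finite V] (adj : V → V → Prop) (S : Set V)
      (t : V → Fin m ⊕ Set (Fin m)),
      (∀ u v, adj u v → adj v u) → Cut adj S t → ∀ X : Set V,
      Con (sys adj) k X → Mac adj k S N X) {L L' : Side m} (h : charOf c N L = charOf c N L')
    (R : Ctx m) (hP : PI k (gadj (mem m) L R) (gatt L R)) :
    PI k (gadj (mem m) L' R) (gatt L' R) := by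
  obtain ⟨X₁, X₂, hd, hu, h2, h3, hc1, hc2, hj⟩ := hP
  obtain ⟨C₁, D₁, rfl⟩ : ∃ (C : Set L.V) (D : Set R.V), mk C D = X₁ := ⟨_, _, mk_preimage X₁⟩
  obtain ⟨C₂, D₂, rfl⟩ : ∃ (C : Set L.V) (D : Set R.V), mk C D = X₂ := ⟨_, _, mk_preimage X₂⟩
  rw [mk_disjoint] at hd
  rw [mk_union] at hu
  have hmem : (c.cd L C₁ C₂, ty c N L C₁, ty c N L C₂) ∈ charOf c N L := by
    refine ⟨C₁, C₂, hd.1, ?_, ?_, ?_, rfl⟩
    · ext v
      have := Set.ext_iff.mp hu (Sum.inl v)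
      rw [inl_mem_mk] at this
      exact this
    · intro v hv hvC
      exact h2 (Sum.inl v) hv (inl_mem_mk.mpr hvC)
    · intro v hv hvC
      exact h3 (Sum.inl v) hv (inl_mem_mk.mpr hvC)
  rw [h] at hmem
  obtain ⟨C₁', C₂', hd', hu', h2', h3', he⟩ := hmem
  simp only [Prod.mk.injEq] at he
  obtain ⟨he1, he2, he3⟩ := he
  have hs := gadj_symm (mem m) L R
  have hcut := cut_glue (mem m) L R
  have hM1 := simulation hk c N he2 R D₁ (hN _ _ _ _ hs hcut _ hc1)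
  have hM2 := simulation hk c N he3 R D₂ (hN _ _ _ _ hs hcut _ hc2)
  have hE := (c.spec L L' C₁ C₂ C₁' C₂' (few_of_joinOK hj) he1).1
  refine ⟨mk C₁' D₁, mk C₂' D₂, mk_disjoint.mpr ⟨hd', hd.2⟩, ?_, ?_, ?_, hM1.con, hM2.con,
    hE.joinOK R D₁ D₂ hj⟩
  · rw [mk_union]
    ext v
    rcases v with v | w
    · rw [inl_mem_mk, hu']
      exact Iff.rfl
    · have := Set.ext_iff.mp hu (Sum.inr w)
      rw [inr_mem_mk] at this ⊢
      exact this
  · rintro (v | w) hv hvC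
    · exact h2' v hv (inl_mem_mk.mp hvC)
    · exact h2 (Sum.inr w) hv (inr_mem_mk.mpr (inr_mem_mk.mp hvC))
  · rintro (v | w) hv hvC
    · exact h3' v hv (inl_mem_mk.mp hvC)
    · exact h3 (Sum.inr w) hv (inr_mem_mk.mpr (inr_mem_mk.mp hvC))

/-- **Theorem 3** (3.4). Let `c` be codes for `A = Fin m`, `B = Set (Fin m)`, `ρ = mem m`
(`exists_codes`), `N` the constant of `normal_form` for the types `Fin m ⊕ Set (Fin m)`,
`F = Set (c.K × TyF c N × TyF c N)` and `ch L` the set of all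
`(c.cd L C₁ C₂, ty c N L C₁, ty c N L C₂)` with `Disjoint C₁ C₂`, `C₁ ∪ C₂ = {v | L.att v ≠ 0}`,
`∀ v, L.att v = 2 → v ∉ C₂`, `∀ v, L.att v = 3 → v ∉ C₁`.
Let `ch L = ch L'` and let `X₁ = mk C₁ D₁`, `X₂ = mk C₂ D₂` witness `PI` for `L + R`. There are
`C₁'`, `C₂'` in `L'` with the same code and types and the conditions on attributes. `mk C₁' D₁`,
`mk C₂' D₂` are constructible: `normal_form` (`cut_glue`, `gadj_symm`), `simulation`, `Mac.con`;
join: `few_of_joinOK`, `c.spec`, `Emb.joinOK`. -/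
theorem finite_index (k m : ℕ) (hk : 1 ≤ k) :
    ∃ (F : Type) (_ : Finite F) (ch : Side m → F), ∀ L L' : Side m, ch L = ch L' →
      Nerode k m L L' := by
  obtain ⟨c⟩ := exists_codes (A := Fin m) (B := Set (Fin m)) (mem m) k hk
  obtain ⟨N, hN⟩ := normal_form (Fin m ⊕ Set (Fin m)) k hk
  have hf : Finite (TyF c N) := TyF.finite c N
  refine ⟨Set (c.K × TyF c N × TyF c N), inferInstance, charOf c N, ?_⟩
  intro L L' h R
  exact ⟨charOf_imp hk c hN h R, charOf_imp hk c hN h.symm R⟩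

end NLC
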