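import Pool.Agent.Lib.MP_8b2ae4_lc.OpDefs
import Pool.Agent.Lib.MP_8b2ae4_lc.D1c

/-! # The Myhill-Nerode relation is a congruence -/

set_option autoImplicit false

namespace NLC

/-- the labelled graph `L₂` with labels `r₂ (L₂.lab u)` -/
private def relab {m : ℕ} (r : Fin m → Fin m) (L : Side m) : Side m where
  V := L.V
  fin := L.fin
  adj := L.adj
  symm := L.symm
  lab := fun u => r (L.lab u)
  att := L.att

/-- the context obtained from `R` by adding the second labelled graph -/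
private def ctxL {m : ℕ} (M : Fin m → Fin m → Bool) (r₁ r₂ : Fin m → Fin m) (L₂ : Side m)
    (R : Ctx m) : Ctx m where
  V := L₂.V ⊕ R.V
  fin := inferInstance
  adj := gadj (mem m) (relab r₂ L₂) R
  symm := gadj_symm (mem m) (relab r₂ L₂) R
  lab := Sum.elim (fun u => {a | M a (L₂.lab u) = true}) (fun w => {a | r₁ a ∈ R.lab w})
  att := gatt L₂ R

/-- the context obtained from `R` by adding the first labelled graph -/
private def ctxR {m : ℕ} (M : Fin m → Fin m → Bool) (r₁ r₂ : Fin m → Fin m) (L₁ : Side m)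
    (R : Ctx m) : Ctx m where
  V := L₁.V ⊕ R.V
  fin := inferInstance
  adj := gadj (mem m) (relab r₁ L₁) R
  symm := gadj_symm (mem m) (relab r₁ L₁) R
  lab := Sum.elim (fun u => {a | M (L₁.lab u) a = true}) (fun w => {a | r₂ a ∈ R.lab w})
  att := gatt L₁ R

private theorem PI_ctxL {k m : ℕ} (M : Fin m → Fin m → Bool) (r₁ r₂ : Fin m → Fin m)
    (L₁ L₂ : Side m) (R : Ctx m) :
    PI k (gadj (mem m) (op M r₁ r₂ L₁ L₂) R) (gatt (op M r₁ r₂ L₁ L₂) R) ↔
      PI k (gadj (mem m) L₁ (ctxL M r₁ r₂ L₂ R)) (gatt L₁ (ctxL M r₁ r₂ L₂ R)) := by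
  refine PI_equiv (Equiv.sumAssoc L₁.V L₂.V R.V) ?_ ?_
  · rintro ((u | u) | u) ((v | v) | v) <;> exact Iff.rfl
  · rintro ((u | u) | u) <;> rfl

private def rot (A B C : Type) : (A ⊕ B) ⊕ C ≃ B ⊕ (A ⊕ C) where
  toFun
    | Sum.inl (Sum.inl a) => Sum.inr (Sum.inl a)
    | Sum.inl (Sum.inr b) => Sum.inl b
    | Sum.inr c => Sum.inr (Sum.inr c)
  invFun
    | Sum.inr (Sum.inl a) => Sum.inl (Sum.inl a)
    | Sum.inl b => Sum.inl (Sum.inr b)
    | Sum.inr (Sum.inr c) => Sum.inr c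
  left_inv := by rintro ((a | b) | c) <;> rfl
  right_inv := by rintro (b | a | c) <;> rfl

private theorem PI_ctxR {k m : ℕ} (M : Fin m → Fin m → Bool) (r₁ r₂ : Fin m → Fin m)
    (L₁ L₂ : Side m) (R : Ctx m) :
    PI k (gadj (mem m) (op M r₁ r₂ L₁ L₂) R) (gatt (op M r₁ r₂ L₁ L₂) R) ↔
      PI k (gadj (mem m) L₂ (ctxR M r₁ r₂ L₁ R)) (gatt L₂ (ctxR M r₁ r₂ L₁ R)) := by
  refine PI_equiv (rot L₁.V L₂.V R.V) ?_ ?_
  · rintro ((u | u) | u) ((v | v) | v) <;> exact Iff.rfl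
  · rintro ((u | u) | u) <;> rfl

/-- (3.5), first argument. For a context `R` let `R'` be the context on `L₂.V ⊕ R.V` with the
adjacency `gadj (mem m) L₂'' R` where `L₂''` is `L₂` with labels `r₂ (L₂.lab u)`, labels
`{a | M a (L₂.lab u) = true}` for `u ∈ L₂`, `{a | r₁ a ∈ R.lab w}` for `w ∈ R`, attribute
`gatt L₂ R`. Then `op M r₁ r₂ L₁ L₂ + R ≅ L₁ + R'` by `Equiv.sumAssoc`; `PI_equiv`. -/
theorem nerode_op_left {k m : ℕ} (M : Fin m → Fin m → Bool) (r₁ r₂ : Fin m → Fin m)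
    {L₁ L₁' : Side m} (L₂ : Side m) (h : Nerode k m L₁ L₁') :
    Nerode k m (op M r₁ r₂ L₁ L₂) (op M r₁ r₂ L₁' L₂) := by
  intro R
  rw [PI_ctxL, PI_ctxL]
  exact h _

/-- (3.5), second argument (the same; `(L₁ ⊕ L₂) ⊕ R ≃ L₂ ⊕ (L₁ ⊕ R)`; or: `op` is symmetric up to
isomorphism) -/
theorem nerode_op_right {k m : ℕ} (M : Fin m → Fin m → Bool) (r₁ r₂ : Fin m → Fin m)
    (L₁ : Side m) {L₂ L₂' : Side m} (h : Nerode k m L₂ L₂') :
    Nerode k m (op M r₁ r₂ L₁ L₂) (op M r₁ r₂ L₁ L₂') := by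
  intro R
  rw [PI_ctxR, PI_ctxR]
  exact h _

theorem nerode_of_iso {k m : ℕ} {L L' : Side m} (h : Iso L L') : Nerode k m L L' := by
  obtain ⟨f, h1, h2, h3⟩ := h
  intro R
  refine PI_equiv (Equiv.sumCongr f (Equiv.refl R.V)) ?_ ?_
  · rintro (u | u) (v | v)
    · exact h1 u v
    · show mem m (L.lab u) (R.lab v) ↔ mem m (L'.lab (f u)) (R.lab v)
      rw [h2]
    · show mem m (L.lab v) (R.lab u) ↔ mem m (L'.lab (f v)) (R.lab u)
      rw [h2]
    · exact Iff.rfl
  · rintro (u | u)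
    · exact h3 u
    · rfl

/-- the empty context -/
private def ctxE (m : ℕ) : Ctx m where
  V := Empty
  fin := inferInstance
  adj := fun _ _ => False
  symm := fun _ _ h => h
  lab := fun x => x.elim
  att := fun x => x.elim

/-- equivalent graphs have the same value of `PI` (glue with the empty context, `PI_equiv`) -/
theorem PI_of_nerode {k m : ℕ} {L L' : Side m} (h : Nerode k m L L') :
    PI k L.adj L.att ↔ PI k L'.adj L'.att := by
  have key : ∀ K : Side m, PI k (gadj (mem m) K (ctxE m)) (gatt K (ctxE m)) ↔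
      PI k K.adj K.att := by
    intro K
    refine PI_equiv (Equiv.sumEmpty K.V Empty) ?_ ?_
    · rintro (u | u) (v | v)
      · exact Iff.rfl
      · exact v.elim
      · exact u.elim
      · exact u.elim
    · rintro (u | u)
      · rfl
      · exact u.elim
  rw [← key L, ← key L']
  exact h _

end NLC
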