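import Pool.Agent.Lib.MP_8b2ae4_lc.D5a
import Pool.Agent.Lib.MP_8b2ae4_lc.D5b

/-! # The automaton -/

set_option autoImplicit false

namespace NLC

/-- **the automaton**. `s` = the setoid `Nerode k m` on `Side m`; by `finite_index` the quotient is
finite (`Finite.of_surjective` from `Set.range ch`); `Q = Nat.card (Quotient s)`, which is positive
(there is an empty labelled graph), `e : Quotient s ≃ Fin Q`; `st L = e ⟦L⟧`;
`δ M r₁ r₂ a b = e ⟦op M r₁ r₂ (out (e.symm a)) (out (e.symm b))⟧` for `a, b < Q`, `0` otherwise;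
`acc a` = 'some `L` with `st L = a` has `PI`'. `nerode_op_left`, `nerode_op_right`,
`nerode_of_iso`, `PI_of_nerode`. -/
theorem exists_automaton (k m : ℕ) (hk : 1 ≤ k) :
    ∃ (Q : ℕ) (st : Side m → ℕ)
      (δ : (Fin m → Fin m → Bool) → (Fin m → Fin m) → (Fin m → Fin m) → ℕ → ℕ → ℕ)
      (acc : ℕ → Bool),
      (∀ L, st L < Q) ∧ (∀ M r₁ r₂ a b, δ M r₁ r₂ a b < Q) ∧
      (∀ M r₁ r₂ L₁ L₂, st (op M r₁ r₂ L₁ L₂) = δ M r₁ r₂ (st L₁) (st L₂)) ∧
      (∀ L L', Iso L L' → st L = st L') ∧
      ∀ L, acc (st L) = true ↔ PI k L.adj L.att := by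
  classical
  obtain ⟨F, hF, ch, hch⟩ := finite_index k m hk
  let s : Setoid (Side m) :=
    { r := Nerode k m
      iseqv := ⟨fun L R => Iff.rfl, fun h R => (h R).symm, fun h h' R => (h R).trans (h' R)⟩ }
  have hfin : Finite (Quotient s) := by
    refine Finite.of_injective (fun q : Quotient s => ch q.out) ?_
    intro q q' h
    have h1 : s.r q.out q'.out := hch _ _ h
    rw [← Quotient.out_eq q, ← Quotient.out_eq q']
    exact Quotient.sound h1
  let L₀ : Side m :=
    ⟨Empty, inferInstance, fun _ _ => False, fun _ _ h => h, Empty.elim, Empty.elim⟩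
  have e : Quotient s ≃ Fin (Nat.card (Quotient s)) := Finite.equivFin (Quotient s)
  let st : Side m → ℕ := fun L => (e (Quotient.mk s L)).val
  let rep : ℕ → Side m := fun a =>
    if h : a < Nat.card (Quotient s) then (e.symm ⟨a, h⟩).out else L₀
  have hlt : ∀ L, st L < Nat.card (Quotient s) := fun L => (e (Quotient.mk s L)).isLt
  have hst : ∀ L L', Nerode k m L L' → st L = st L' := by
    intro L L' h
    have h1 : Quotient.mk s L = Quotient.mk s L' := Quotient.sound h
    show (e (Quotient.mk s L)).val = (e (Quotient.mk s L')).val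
    rw [h1]
  have hrep : ∀ L, Nerode k m (rep (st L)) L := by
    intro L
    have h1 : rep (st L) = (Quotient.mk s L).out := by
      show (if h : st L < Nat.card (Quotient s) then (e.symm ⟨st L, h⟩).out else L₀) = _
      rw [dif_pos (hlt L)]
      congr 1
      have h2 : (⟨st L, hlt L⟩ : Fin (Nat.card (Quotient s))) = e (Quotient.mk s L) := rfl
      rw [h2, Equiv.symm_apply_apply]
    rw [h1]
    exact Quotient.exact (Quotient.out_eq (Quotient.mk s L))
  refine ⟨Nat.card (Quotient s), st, fun M r₁ r₂ a b => st (op M r₁ r₂ (rep a) (rep b)),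
    fun a => decide (PI k (rep a).adj (rep a).att), hlt, fun M r₁ r₂ a b => hlt _, ?_, ?_, ?_⟩
  · intro M r₁ r₂ L₁ L₂
    refine (hst _ _ ?_).symm
    intro R
    exact (nerode_op_left M r₁ r₂ (rep (st L₂)) (hrep L₁) R).trans
      (nerode_op_right M r₁ r₂ L₁ (hrep L₂) R)
  · intro L L' h
    exact hst _ _ (nerode_of_iso h)
  · intro L
    rw [decide_eq_true_iff]
    exact PI_of_nerode (hrep L)

end NLC
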