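import Mathlib

/-! # NLC-width: the notions used in the statement of the main theorem -/

set_option autoImplicit false

namespace NLC

/-- Expressions over the operations of `k`-labelled graphs: a single vertex with label `a`, the
relabelling `∘_R`, and the composition `×_S` (disjoint union plus all edges between a vertex of the
first graph with label `a` and a vertex of the second graph with label `b`, `(a, b) ∈ S`). -/
inductive NExpr (k : ℕ) : Type
  | vertex (a : Fin k) : NExpr k
  | relabel (R : Fin k → Fin k) (e : NExpr k) : NExpr k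
  | comp (S : Set (Fin k × Fin k)) (e₁ e₂ : NExpr k) : NExpr k

namespace NExpr

variable {k : ℕ}

/-- the vertices of the value of an expression -/
def V : NExpr k → Type
  | vertex _ => Unit
  | relabel _ e => e.V
  | comp _ e₁ e₂ => e₁.V ⊕ e₂.V

/-- the labels of the vertices of the value of an expression -/
def lab : (e : NExpr k) → e.V → Fin k
  | vertex a, _ => a
  | relabel R e, v => R (lab e v)
  | comp _ e₁ _, Sum.inl v => lab e₁ v
  | comp _ _ e₂, Sum.inr v => lab e₂ v

/-- adjacency in the value of an expression -/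
def adj : (e : NExpr k) → e.V → e.V → Prop
  | vertex _, _, _ => False
  | relabel _ e, u, v => adj e u v
  | comp _ e₁ _, Sum.inl u, Sum.inl v => adj e₁ u v
  | comp _ _ e₂, Sum.inr u, Sum.inr v => adj e₂ u v
  | comp S e₁ e₂, Sum.inl u, Sum.inr v => (lab e₁ u, lab e₂ v) ∈ S
  | comp S e₁ e₂, Sum.inr v, Sum.inl u => (lab e₁ u, lab e₂ v) ∈ S

theorem adj_symm : (e : NExpr k) → ∀ u v : e.V, e.adj u v → e.adj v u
  | vertex _, _, _, h => h
  | relabel _ e, u, v, h => adj_symm e u v h
  | comp _ e₁ _, Sum.inl u, Sum.inl v, h => adj_symm e₁ u v h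
  | comp _ _ e₂, Sum.inr u, Sum.inr v, h => adj_symm e₂ u v h
  | comp _ _ _, Sum.inl _, Sum.inr _, h => h
  | comp _ _ _, Sum.inr _, Sum.inl _, h => h

theorem adj_irrefl : (e : NExpr k) → ∀ u : e.V, ¬ e.adj u u
  | vertex _, _, h => h
  | relabel _ e, u, h => adj_irrefl e u h
  | comp _ e₁ _, Sum.inl u, h => adj_irrefl e₁ u h
  | comp _ _ e₂, Sum.inr u, h => adj_irrefl e₂ u h

/-- the graph (without labels) which is the value of an expression -/
def graph (e : NExpr k) : SimpleGraph e.V where
  Adj := e.adj
  symm := ⟨fun u v h => adj_symm e u v h⟩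
  loopless := ⟨fun u h => adj_irrefl e u h⟩

end NExpr

/-- `G` is a `k`-NLC graph: some `k`-labelling of `G` lies in `NLC_k`. -/
def IsNLC (k : ℕ) {V : Type} (G : SimpleGraph V) : Prop :=
  ∃ e : NExpr k, Nonempty (G ≃g e.graph)

/-- The NLC-width of a graph: the least `k` such that some `k`-labelling of `G` lies in `NLC_k`. -/
noncomputable def nlcWidth {V : Type} (G : SimpleGraph V) : ℕ :=
  sInf {k | IsNLC k G}

/-- The adjacency matrix (list of rows) of a graph with vertices `0, ..., n - 1`. -/
def adjMat {n : ℕ} (G : SimpleGraph (Fin n)) [DecidableRel G.Adj] : List (List Bool) :=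
  List.ofFn fun i : Fin n => List.ofFn fun j : Fin n => decide (G.Adj i j)

/-! ## Constructible sets -/

/-- A system: for every set `X` a relation on vertices, to be read 'not distinguished from
outside `X`'. -/
abbrev Sys (V : Type) := Set V → V → V → Prop

/-- the system of a graph -/
def sys {V : Type} (adj : V → V → Prop) : Sys V :=
  fun X u v => ∀ w, w ∉ X → (adj u w ↔ adj v w)

/-- the join condition: `k` labels suffice to compose `X` and `Y` -/
def JoinOK {V : Type} (E : Sys V) (k : ℕ) (X Y : Set V) : Prop :=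
  ∃ l : V → Fin k, (∀ u ∈ X, ∀ v ∈ X, l u = l v → E X u v) ∧
    (∀ u ∈ Y, ∀ v ∈ Y, l u = l v → E Y u v) ∧
    (∀ u ∈ X, ∀ v ∈ Y, l u = l v → E (X ∪ Y) u v)

/-- constructible sets -/
inductive Con {V : Type} (E : Sys V) (k : ℕ) : Set V → Prop
  | single (v : V) : Con E k {v}
  | join {X Y : Set V} (hX : Con E k X) (hY : Con E k Y) (hd : Disjoint X Y)
      (h : JoinOK E k X Y) : Con E k (X ∪ Y)

/-- the neighbours of `u` outside `X` -/
def row {V : Type} (adj : V → V → Prop) (X : Set V) (u : V) : Set V := {w | w ∉ X ∧ adj u w}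

end NLC
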