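import Pool.Agent.Lib.MP_8b2ae4_lc.AlgoDefs

/-! # The classes of a set of vertices -/

set_option autoImplicit false

namespace NLC

open Pool.Agent.MSR

variable (a : ℕ → ℕ → Bool) (U : List ℕ)

theorem same_iff (X : List ℕ) (u v : ℕ) :
    same a U X u v = true ↔ ∀ w ∈ U, w ∉ X → a u w = a v w := by
  unfold same
  simp only [Bool.not_eq_true', List.any_eq_false, List.mem_filter, decide_eq_false_iff_not,
    and_imp, not_not]

theorem mem_uni (X Y : List ℕ) (v : ℕ) : v ∈ uni U X Y ↔ v ∈ U ∧ (v ∈ X ∨ v ∈ Y) := by
  unfold uni
  simp only [List.mem_filter, Bool.or_eq_true, decide_eq_true_eq]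

theorem reps_sublist (X : List ℕ) : (reps a U X).Sublist X := by
  unfold reps
  exact List.filter_sublist

private theorem E1a_refl (X : List ℕ) (u : ℕ) : same a U X u u = true :=
  (same_iff a U X u u).2 fun _ _ _ => rfl

private theorem E1a_symm {X : List ℕ} {u v : ℕ} (h : same a U X u v = true) :
    same a U X v u = true :=
  (same_iff a U X v u).2 fun w hw hwX => ((same_iff a U X u v).1 h w hw hwX).symm

private theorem E1a_trans {X : List ℕ} {u v w : ℕ} (h : same a U X u v = true)
    (h' : same a U X v w = true) : same a U X u w = true :=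
  (same_iff a U X u w).2 fun x hx hxX =>
    ((same_iff a U X u v).1 h x hx hxX).trans ((same_iff a U X v w).1 h' x hx hxX)

private theorem E1a_mem_reps {X : List ℕ} {u : ℕ} :
    u ∈ reps a U X ↔ u ∈ X ∧ ∀ v ∈ X, v < u → same a U X u v ≠ true := by
  unfold reps ltb
  rw [List.mem_filter]
  refine and_congr_right fun _ => ?_
  rw [Bool.not_eq_true', List.any_eq_false]
  refine forall_congr' fun v => forall_congr' fun _ => ?_
  rw [Bool.and_eq_true, decide_eq_true_eq, not_and]

/-- the smallest element of `X` in the class of `u` is a representative -/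
theorem exists_rep {X : List ℕ} {u : ℕ} (hu : u ∈ X) :
    ∃ v ∈ reps a U X, same a U X u v = true := by
  induction u using Nat.strong_induction_on with
  | _ u ih =>
    by_cases h : ∀ v ∈ X, v < u → same a U X u v ≠ true
    · exact ⟨u, (E1a_mem_reps a U).2 ⟨hu, h⟩, E1a_refl a U X u⟩
    · push Not at h
      obtain ⟨v, hv, hvu, hs⟩ := h
      obtain ⟨w, hw, hw'⟩ := ih v hvu hv
      exact ⟨w, hw, E1a_trans a U hs hw'⟩

/-- different representatives are in different classes -/
theorem eq_of_same_reps {X : List ℕ} {u v : ℕ} (hu : u ∈ reps a U X) (hv : v ∈ reps a U X)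
    (h : same a U X u v = true) : u = v := by
  rw [E1a_mem_reps] at hu hv
  rcases lt_trichotomy u v with h1 | h1 | h1
  · exact absurd (E1a_symm a U h) (hv.2 u hu.1 h1)
  · exact h1
  · exact absurd h (hu.2 v hv.1 h1)

/-- the number of the class of `u` in terms of its representative -/
private theorem E1a_idx_eq {X : List ℕ} {u r : ℕ} (hr : r ∈ reps a U X)
    (hs : same a U X u r = true) :
    idx a U X u = ((reps a U X).filter (fun v => decide (v < r))).length := by
  unfold idx
  congr 1
  apply List.filter_congr
  intro v hv
  unfold leb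
  rw [Bool.eq_iff_iff, Bool.not_eq_true', List.any_eq_false, decide_eq_true_eq]
  constructor
  · intro h
    by_contra hc
    apply h r hr
    rw [Bool.and_eq_true, decide_eq_true_eq]
    exact ⟨not_lt.1 hc, hs⟩
  · intro h w hw h2
    rw [Bool.and_eq_true, decide_eq_true_eq] at h2
    have h3 := eq_of_same_reps a U hw hr (E1a_trans a U (E1a_symm a U h2.2) hs)
    rw [h3] at h2
    exact absurd h2.1 (not_le.2 h)

private theorem E1a_lt_of_lt {X : List ℕ} {r s : ℕ} (hr : r ∈ reps a U X) (h : r < s) :
    ((reps a U X).filter (fun v => decide (v < r))).length <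
      ((reps a U X).filter (fun v => decide (v < s))).length := by
  have hsub : ((reps a U X).filter (fun v => decide (v < r))).Sublist
      ((reps a U X).filter (fun v => decide (v < s))) :=
    List.monotone_filter_right _ (fun v hv => by
      rw [decide_eq_true_eq] at hv ⊢
      exact hv.trans h)
  refine lt_of_le_of_ne hsub.length_le fun heq => ?_
  have h1 := hsub.eq_of_length heq
  have h2 : r ∈ (reps a U X).filter (fun v => decide (v < s)) :=
    List.mem_filter.2 ⟨hr, decide_eq_true h⟩
  rw [← h1, List.mem_filter, decide_eq_true_eq] at h2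
  exact lt_irrefl _ h2.2

/-- two vertices have the same number iff they are in the same class: if `r` is the representative
of the class of `u` then `idx a U X u` is the number of representatives `< r`. -/
theorem idx_eq_iff {X : List ℕ} {u v : ℕ} (hu : u ∈ X) (hv : v ∈ X) :
    idx a U X u = idx a U X v ↔ same a U X u v = true := by
  obtain ⟨r, hr, hur⟩ := exists_rep a U hu
  obtain ⟨s, hs, hvs⟩ := exists_rep a U hv
  rw [E1a_idx_eq a U hr hur, E1a_idx_eq a U hs hvs]
  constructor
  · intro h
    rcases lt_trichotomy r s with h1 | h1 | h1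
    · exact absurd h (ne_of_lt (E1a_lt_of_lt a U hr h1))
    · rw [← h1] at hvs
      exact E1a_trans a U hur (E1a_symm a U hvs)
    · exact absurd h (ne_of_gt (E1a_lt_of_lt a U hs h1))
  · intro h
    have : r = s := eq_of_same_reps a U hr hs
      (E1a_trans a U (E1a_symm a U hur) (E1a_trans a U h hvs))
    rw [this]

theorem idx_lt {X : List ℕ} {u : ℕ} (hu : u ∈ X) : idx a U X u < (reps a U X).length := by
  obtain ⟨r, hr, hur⟩ := exists_rep a U hu
  rw [E1a_idx_eq a U hr hur]
  refine lt_of_le_of_ne (List.length_filter_le _ _) fun heq => ?_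
  have h1 := (List.filter_sublist (p := fun v => decide (v < r)) (l := reps a U X)).eq_of_length heq
  have h2 : r ∈ (reps a U X).filter (fun v => decide (v < r)) := by rw [h1]; exact hr
  rw [List.mem_filter, decide_eq_true_eq] at h2
  exact lt_irrefl _ h2.2

private theorem E1a_filter_sorted {l : List ℕ} (hl : l.Pairwise (· < ·)) {i : ℕ}
    (hi : i < l.length) : (l.filter (fun v => decide (v < l[i]))).length = i := by
  induction l generalizing i with
  | nil => exact absurd hi (Nat.not_lt_zero _)
  | cons x l ih =>
    rw [List.pairwise_cons] at hl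
    cases i with
    | zero =>
      rw [List.getElem_cons_zero, List.length_eq_zero_iff, List.filter_eq_nil_iff]
      intro v hv
      rw [decide_eq_true_eq, not_lt]
      rcases List.mem_cons.1 hv with h | h
      · exact h.ge
      · exact (hl.1 v h).le
    | succ j =>
      have hj : j < l.length := Nat.lt_of_succ_lt_succ hi
      rw [List.getElem_cons_succ, List.filter_cons_of_pos, List.length_cons, ih hl.2 hj]
      exact decide_eq_true (hl.1 _ (List.getElem_mem hj))

/-- the `i`-th representative has the number `i` -/
theorem idx_reps {X : List ℕ} (hX : X.Pairwise (· < ·)) {i : ℕ}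
    (hi : i < (reps a U X).length) : idx a U X ((reps a U X)[i]) = i := by
  rw [E1a_idx_eq a U (List.getElem_mem hi) (E1a_refl a U X _)]
  exact E1a_filter_sorted (hX.sublist (reps_sublist a U X)) hi

/-- at most `k` classes if the classes can be labelled by `k` labels -/
theorem reps_length_le {X : List ℕ} {k : ℕ} (f : ℕ → Fin k)
    (hf : ∀ u ∈ X, ∀ v ∈ X, f u = f v → same a U X u v = true) (hX : X.Nodup) :
    (reps a U X).length ≤ k := by
  have hnd : (reps a U X).Nodup := hX.sublist (reps_sublist a U X)
  have hm : ((reps a U X).map f).Nodup := by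
    refine List.Nodup.map_on ?_ hnd
    intro u hu v hv h
    have hu' := (reps_sublist a U X).subset hu
    have hv' := (reps_sublist a U X).subset hv
    exact eq_of_same_reps a U hu hv (hf u hu' v hv' h)
  have h := hm.length_le_card
  rw [List.length_map, Fintype.card_fin] at h
  exact h

end NLC
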