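import Pool.Agent.Lib.MP_8b2ae4_lc.SideDefs
import Pool.Agent.Lib.MP_8b2ae4_lc.E1a

/-! # Composition of the labelled graphs of two disjoint sets -/

set_option autoImplicit false

namespace NLC

open Pool.Agent.MSR

variable (a : ℕ → ℕ → Bool) (U : List ℕ)

/-- the representative with the number of `u` is in the class of `u` (`exists_rep`, `idx_eq_iff`,
`idx_reps`) -/
theorem same_reps_idx {X : List ℕ} (hX : X.Pairwise (· < ·)) {u : ℕ} (hu : u ∈ X) :
    ∃ h : idx a U X u < (reps a U X).length,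
      same a U X u ((reps a U X)[idx a U X u]) = true := by
  obtain ⟨v, hv, hs⟩ := exists_rep a U hu
  obtain ⟨i, hi, rfl⟩ := List.getElem_of_mem hv
  have hvX : (reps a U X)[i] ∈ X := (reps_sublist a U X).subset hv
  have h1 : idx a U X u = i := by
    rw [(idx_eq_iff a U hu hvX).2 hs, idx_reps a U hX hi]
  subst h1
  exact ⟨hi, hs⟩

private theorem e1b_iso {m : ℕ} (L L' : Side m) (g : L'.V → L.V) (hg : Function.Bijective g)
    (h1 : ∀ x y, L.adj (g x) (g y) ↔ L'.adj x y) (h2 : ∀ x, L'.lab x = L.lab (g x))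
    (h3 : ∀ x, L'.att x = L.att (g x)) : Iso L L' := by
  have he : ∀ x, (Equiv.ofBijective g hg).symm (g x) = x :=
    fun x => (Equiv.ofBijective g hg).symm_apply_apply x
  refine ⟨(Equiv.ofBijective g hg).symm, ?_, ?_, ?_⟩
  · intro x y
    obtain ⟨x, rfl⟩ := hg.2 x
    obtain ⟨y, rfl⟩ := hg.2 y
    rw [he, he]
    exact h1 x y
  · intro x
    obtain ⟨x, rfl⟩ := hg.2 x
    rw [he]
    exact h2 x
  · intro x
    obtain ⟨x, rfl⟩ := hg.2 x
    rw [he]
    exact h3 x

private theorem e1b_toF {m : ℕ} (hm : 0 < m) {i : ℕ} (hi : i < m) : (toF hm i : Fin m).1 = i :=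
  Nat.mod_eq_of_lt hi

/-- the entry of the adjacency matrix of the representatives -/
private theorem e1b_cross {m : ℕ} (hm : 0 < m) (ha : ∀ u v, a u v = a v u) {Y Z : List ℕ}
    (hYU : Y ⊆ U) (hZU : Z ⊆ U) (hY : Y.Pairwise (· < ·))
    (hZ : Z.Pairwise (· < ·)) (hd : ∀ v ∈ Y, v ∉ Z) (hYm : (reps a U Y).length ≤ m)
    (hZm : (reps a U Z).length ≤ m) {u v : ℕ} (hu : u ∈ Y) (hv : v ∈ Z) :
    (((reps a U Y).map (fun u => (reps a U Z).map (fun v => a u v))).getD
      (toF hm (idx a U Y u) : Fin m).1 []).getD (toF hm (idx a U Z v) : Fin m).1 false = a u v := by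
  obtain ⟨h1, h2⟩ := same_reps_idx a U hY hu
  obtain ⟨h3, h4⟩ := same_reps_idx a U hZ hv
  have h5 : (reps a U Y)[idx a U Y u] ∈ Y := (reps_sublist a U Y).subset (List.getElem_mem h1)
  have h6 : (reps a U Z)[idx a U Z v] ∈ Z := (reps_sublist a U Z).subset (List.getElem_mem h3)
  rw [e1b_toF hm (lt_of_lt_of_le h1 hYm), e1b_toF hm (lt_of_lt_of_le h3 hZm)]
  have e1 : ((reps a U Y).map (fun u => (reps a U Z).map (fun v => a u v))).getD (idx a U Y u) [] =
      (reps a U Z).map (fun v => a ((reps a U Y)[idx a U Y u]) v) := by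
    rw [List.getD_eq_getElem _ _ (by rw [List.length_map]; exact h1), List.getElem_map]
  rw [e1, List.getD_eq_getElem _ _ (by rw [List.length_map]; exact h3), List.getElem_map]
  have h7 : (reps a U Z)[idx a U Z v] ∉ Y := fun h => hd _ h h6
  rw [← (same_iff a U Y _ _).1 h2 _ (hZU h6) h7, ha u _,
    ← (same_iff a U Z _ _).1 h4 u (hYU hu) (hd u hu), ha v u]

/-- the new label, first part -/
private theorem e1b_lab {m : ℕ} (hm : 0 < m) {Y X : List ℕ} (hYX : Y ⊆ X)
    (hY : Y.Pairwise (· < ·)) (hYm : (reps a U Y).length ≤ m) {u : ℕ} (hu : u ∈ Y) :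
    ((reps a U Y).map (idx a U X)).getD (toF hm (idx a U Y u) : Fin m).1 0 = idx a U X u := by
  obtain ⟨h1, h2⟩ := same_reps_idx a U hY hu
  have h5 : (reps a U Y)[idx a U Y u] ∈ Y := (reps_sublist a U Y).subset (List.getElem_mem h1)
  rw [e1b_toF hm (lt_of_lt_of_le h1 hYm)]
  rw [List.getD_eq_getElem _ _ (by rw [List.length_map]; exact h1), List.getElem_map]
  symm
  rw [idx_eq_iff a U (hYX hu) (hYX h5), same_iff]
  intro w hw hwX
  exact (same_iff a U Y _ _).1 h2 w hw (fun h => hwX (hYX h))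

/-- composition of the labelled graphs of two disjoint sets. The bijection
`{v // v ∈ uni U Y Z} ≃ {v // v ∈ Y} ⊕ {v // v ∈ Z}` is the obvious one. Adjacency for `u ∈ Y`,
`v ∈ Z`: `lab u = idx a U Y u` (it is `< m`), so by `same_reps_idx` the entry of the matrix is
`a r s` with `same a U Y u r`, `same a U Z v s`, `r ∈ Y`, `s ∈ Z`; `a u s = a r s` as
`s ∈ U`, `s ∉ Y`; `a v u = a s u` as `u ∈ U`, `u ∉ Z`; and `ha`. Labels: for `u ∈ Y` the new label
is `toF hm (idx a U (uni U Y Z) r)` with `same a U Y u r`, hence `same a U (uni U Y Z) u r`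
(`same_iff`) and `idx_eq_iff`. -/
theorem iso_op {m : ℕ} (hm : 0 < m) (ha : ∀ u v, a u v = a v u) {X A₁ A₂ Y Z : List ℕ}
    (hU : U.Pairwise (· < ·)) (hYU : Y ⊆ U) (hZU : Z ⊆ U) (hY : Y.Pairwise (· < ·))
    (hZ : Z.Pairwise (· < ·)) (hd : ∀ v ∈ Y, v ∉ Z) (hYm : (reps a U Y).length ≤ m)
    (hZm : (reps a U Z).length ≤ m) :
    Iso (sideOf a U hm X A₁ A₂ (uni U Y Z))
      (op (fun i j => (((reps a U Y).map (fun u => (reps a U Z).map (fun v => a u v))).getD i
          []).getD j false)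
        (fun i => toF hm (((reps a U Y).map (idx a U (uni U Y Z))).getD i 0))
        (fun i => toF hm (((reps a U Z).map (idx a U (uni U Y Z))).getD i 0))
        (sideOf a U hm X A₁ A₂ Y) (sideOf a U hm X A₁ A₂ Z)) := by
  have hYX : Y ⊆ uni U Y Z := fun v hv => (mem_uni U Y Z v).2 ⟨hYU hv, Or.inl hv⟩
  have hZX : Z ⊆ uni U Y Z := fun v hv => (mem_uni U Y Z v).2 ⟨hZU hv, Or.inr hv⟩
  let g : {v : ℕ // v ∈ Y} ⊕ {v : ℕ // v ∈ Z} → {v : ℕ // v ∈ uni U Y Z} :=
    Sum.elim (fun v => ⟨v.1, hYX v.2⟩) (fun v => ⟨v.1, hZX v.2⟩)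
  have hg : Function.Bijective g := by
    constructor
    · rintro (⟨u, hu⟩ | ⟨u, hu⟩) (⟨v, hv⟩ | ⟨v, hv⟩) h
      · have h' : u = v := congrArg Subtype.val h
        subst h'; rfl
      · have h' : u = v := congrArg Subtype.val h
        subst h'; exact absurd hv (hd u hu)
      · have h' : u = v := congrArg Subtype.val h
        subst h'; exact absurd hu (hd u hv)
      · have h' : u = v := congrArg Subtype.val h
        subst h'; rfl
    · rintro ⟨v, hv⟩
      rcases ((mem_uni U Y Z v).1 hv).2 with h | h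
      · exact ⟨Sum.inl ⟨v, h⟩, rfl⟩
      · exact ⟨Sum.inr ⟨v, h⟩, rfl⟩
  refine e1b_iso _ _ g hg ?_ ?_ ?_
  · rintro (⟨u, hu⟩ | ⟨u, hu⟩) (⟨v, hv⟩ | ⟨v, hv⟩)
    · exact Iff.rfl
    · change (a u v = true ∨ a v u = true) ↔
        (((reps a U Y).map (fun u => (reps a U Z).map (fun v => a u v))).getD
          (toF hm (idx a U Y u) : Fin m).1 []).getD (toF hm (idx a U Z v) : Fin m).1 false = true
      rw [e1b_cross a U hm ha hYU hZU hY hZ hd hYm hZm hu hv, ha v u, or_self]
    · change (a u v = true ∨ a v u = true) ↔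
        (((reps a U Y).map (fun u => (reps a U Z).map (fun v => a u v))).getD
          (toF hm (idx a U Y v) : Fin m).1 []).getD (toF hm (idx a U Z u) : Fin m).1 false = true
      rw [e1b_cross a U hm ha hYU hZU hY hZ hd hYm hZm hv hu, ha v u, or_self]
    · exact Iff.rfl
  · rintro (⟨u, hu⟩ | ⟨u, hu⟩)
    · change toF hm (((reps a U Y).map (idx a U (uni U Y Z))).getD
        (toF hm (idx a U Y u) : Fin m).1 0) = toF hm (idx a U (uni U Y Z) u)
      rw [e1b_lab a U hm hYX hY hYm hu]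
    · change toF hm (((reps a U Z).map (idx a U (uni U Y Z))).getD
        (toF hm (idx a U Z u) : Fin m).1 0) = toF hm (idx a U (uni U Y Z) u)
      rw [e1b_lab a U hm hZX hZ hZm hu]
  · rintro (⟨u, hu⟩ | ⟨u, hu⟩) <;> rfl

/-- the labelled graph of a single vertex (`idx_lt` and `(reps a U [v]).length ≤ 1` give label
`0`) -/
theorem iso_single {m : ℕ} (hm : 0 < m) (X A₁ A₂ : List ℕ) (v : ℕ) (hv : a v v = false) :
    Iso (sideOf a U hm X A₁ A₂ [v]) (single hm (att X A₁ A₂ v)) := by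
  have hval : ∀ u : {u : ℕ // u ∈ [v]}, u.1 = v := fun u => List.mem_singleton.1 u.2
  have hidx : idx a U [v] v = 0 := by
    have h1 := idx_lt a U (List.mem_singleton.2 (rfl : v = v))
    have h2 := (reps_sublist a U [v]).length_le
    rw [List.length_singleton] at h2
    omega
  let e : {u : ℕ // u ∈ [v]} ≃ Unit :=
    { toFun := fun _ => ()
      invFun := fun _ => ⟨v, List.mem_singleton.2 rfl⟩
      left_inv := fun u => Subtype.ext (hval u).symm
      right_inv := fun _ => rfl }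
  refine ⟨e, ?_, ?_, ?_⟩
  · intro x y
    change (a x.1 y.1 = true ∨ a y.1 x.1 = true) ↔ False
    rw [hval x, hval y, hv]
    simp
  · intro x
    change toF hm 0 = toF hm (idx a U [v] x.1)
    rw [hval x, hidx]
  · intro x
    change toA (att X A₁ A₂ v) = toA (att X A₁ A₂ x.1)
    rw [hval x]

end NLC
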