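import Pool.Agent.Lib.MP_8b2ae4_lc.E1b

/-! # The run of the automaton -/

set_option autoImplicit false

namespace NLC

open Pool.Agent.MSR

theorem Known.pairwise {U : List ℕ} {tr : List (List ℕ × List ℕ)} {Z : List ℕ}
    (hU : U.Pairwise (· < ·)) (h : Known U tr Z) : Z.Pairwise (· < ·) ∧ Z ⊆ U := by
  rcases h with ⟨v, hv, rfl⟩ | ⟨p, _, rfl⟩
  · refine ⟨List.pairwise_singleton _ _, ?_⟩
    intro x hx
    rw [List.mem_singleton] at hx
    rw [hx]
    exact hv
  · exact ⟨List.Pairwise.filter _ hU, List.filter_subset_self _⟩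

theorem Known.mono {U : List ℕ} {tr tr' : List (List ℕ × List ℕ)} {Z : List ℕ}
    (h : Known U tr Z) (htr : ∀ p ∈ tr, p ∈ tr') : Known U tr' Z := by
  rcases h with h | ⟨p, hp, h⟩
  · exact Or.inl h
  · exact Or.inr ⟨p, htr p hp, h⟩

private theorem mem_uni_h4 {U : List ℕ} (X Y : List ℕ) (v : ℕ) :
    v ∈ uni U X Y ↔ v ∈ U ∧ (v ∈ X ∨ v ∈ Y) := by
  unfold uni
  rw [List.mem_filter, Bool.or_eq_true, decide_eq_true_iff, decide_eq_true_iff]

private theorem known_mem_h4 {U : List ℕ} {tr : List (List ℕ × List ℕ)}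
    (ih : ∀ p ∈ tr, ∃ y z, y ∈ p.1 ∧ z ∈ p.2 ∧ y ∈ U ∧ z ∈ U ∧ y ≠ z) {Z : List ℕ}
    (h : Known U tr Z) : ∃ y ∈ Z, y ∈ U := by
  rcases h with ⟨v, hv, rfl⟩ | ⟨p, hp, rfl⟩
  · exact ⟨v, List.mem_singleton.2 rfl, hv⟩
  · obtain ⟨y, z, hy, _, hyU, _, _⟩ := ih p hp
    exact ⟨y, (mem_uni_h4 _ _ _).2 ⟨hyU, Or.inl hy⟩, hyU⟩

private theorem valid_info_h4 {a : ℕ → ℕ → Bool} {U : List ℕ} {m : ℕ}
    {tr : List (List ℕ × List ℕ)} (hv : Valid a U m tr) :
    ∀ p ∈ tr, ∃ y z, y ∈ p.1 ∧ z ∈ p.2 ∧ y ∈ U ∧ z ∈ U ∧ y ≠ z := by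
  induction hv with
  | nil =>
    intro p hp
    exact absurd hp List.not_mem_nil
  | @snoc tr Y Z h hY hZ hd _ _ ih =>
    intro p hp
    rcases List.mem_append.1 hp with hp | hp
    · exact ih p hp
    · rw [List.mem_singleton] at hp
      subst hp
      obtain ⟨y, hy, hyU⟩ := known_mem_h4 ih hY
      obtain ⟨z, hz, hzU⟩ := known_mem_h4 ih hZ
      refine ⟨y, z, hy, hz, hyU, hzU, ?_⟩
      rintro rfl
      exact hd y hy hz

/-- in a valid list a known set is a single vertex or has at least two elements, and it is a join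
of the list (all known sets are nonempty, the parts of a join are disjoint and subsets of `U`) -/
theorem Known.cases {a : ℕ → ℕ → Bool} {U : List ℕ} {m : ℕ} {tr : List (List ℕ × List ℕ)}
    (hv : Valid a U m tr) {Z : List ℕ} (h : Known U tr Z) :
    (∃ v ∈ U, Z = [v]) ∨ (2 ≤ Z.length ∧ ∃ p ∈ tr, Z = uni U p.1 p.2) := by
  rcases h with h | ⟨p, hp, h⟩
  · exact Or.inl h
  · right
    refine ⟨?_, p, hp, h⟩
    obtain ⟨y, z, hy, hz, hyU, hzU, hyz⟩ := valid_info_h4 hv p hp
    have h1 : y ∈ Z := by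
      rw [h]
      exact (mem_uni_h4 _ _ _).2 ⟨hyU, Or.inl hy⟩
    have h2 : z ∈ Z := by
      rw [h]
      exact (mem_uni_h4 _ _ _).2 ⟨hzU, Or.inr hz⟩
    match Z, h1, h2 with
    | [], h1, _ => exact absurd h1 List.not_mem_nil
    | [x], h1, h2 =>
      rw [List.mem_singleton] at h1 h2
      exact absurd (h1.trans h2.symm) hyz
    | _ :: _ :: l, _, _ =>
      simp only [List.length_cons]
      omega

/-- the invariant of the run. Induction on `h`. Last step: environment `env` of `tr`; by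
`Known.cases` the state `stOf … env Y` is `A.lf hm (att … v) = A.st (sideOf … [v])`
(`iso_single`, `A.st_iso`) or `look env Y`, which is the state of the first entry of `env` with
first component `Y` (it exists), so it is `A.st (sideOf … Y)`; the same for `Z`. Then
`tab hm A.δ … = A.δ … = A.st (op …) = A.st (sideOf … (uni U Y Z))` by `A.st_op`, `A.st_iso`,
`iso_op`. -/
theorem run_invariant {a : ℕ → ℕ → Bool} {U : List ℕ} {k m : ℕ} (A : Auto k m) (hm : 0 < m)
    (ha : ∀ u v, a u v = a v u) (ha' : ∀ u, a u u = false) (hU : U.Pairwise (· < ·))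
    (X A₁ A₂ : List ℕ) {tr : List (List ℕ × List ℕ)} (h : Valid a U m tr) :
    (∀ p ∈ tr.foldl (rstep a U (A.lf hm) (tab hm A.δ) X A₁ A₂) [],
      p.2 = A.st (sideOf a U hm X A₁ A₂ p.1)) ∧
    ∀ q ∈ tr, uni U q.1 q.2 ∈
      (tr.foldl (rstep a U (A.lf hm) (tab hm A.δ) X A₁ A₂) []).map Prod.fst := by
  induction h with
  | nil =>
    refine ⟨?_, ?_⟩
    · intro p hp
      exact absurd hp List.not_mem_nil
    · intro p hp
      exact absurd hp List.not_mem_nil
  | @snoc tr Y Z h hY hZ hd hYm hZm ih =>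
    obtain ⟨ih1, ih2⟩ := ih
    rw [List.foldl_append, List.foldl_cons, List.foldl_nil]
    set env := tr.foldl (rstep a U (A.lf hm) (tab hm A.δ) X A₁ A₂) [] with henv
    have hst : ∀ W, Known U tr W →
        stOf (A.lf hm) X A₁ A₂ env W = A.st (sideOf a U hm X A₁ A₂ W) := by
      intro W hW
      unfold stOf
      rcases hW.cases h with ⟨v, _, rfl⟩ | ⟨h2, p, hp, hWp⟩
      · have h3 : leb [v].length 1 = true := by
          unfold leb
          exact decide_eq_true (le_refl 1)
        rw [h3]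
        show A.lf hm (att X A₁ A₂ v) = _
        exact (A.st_iso _ _ (iso_single a U hm X A₁ A₂ v (ha' v))).symm
      · have h3 : leb W.length 1 = false := by
          unfold leb
          exact decide_eq_false (by omega)
        rw [h3]
        show look env W = _
        have h4 := ih2 p hp
        rw [← hWp, List.mem_map] at h4
        obtain ⟨e, he, heW⟩ := h4
        unfold look
        have h5 : e ∈ env.filter (fun p => decide (p.1 = W)) :=
          List.mem_filter.2 ⟨he, decide_eq_true heW⟩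
        rcases hF : env.filter (fun p => decide (p.1 = W)) with _ | ⟨x, l⟩
        · rw [hF] at h5
          exact absurd h5 List.not_mem_nil
        · have h6 : x ∈ env.filter (fun p => decide (p.1 = W)) := by
            rw [hF]
            exact List.mem_cons_self
          rw [List.mem_filter, decide_eq_true_iff] at h6
          rw [hF]
          show x.2 = _
          rw [ih1 x h6.1, h6.2]
    obtain ⟨hYp, hYU⟩ := hY.pairwise hU
    obtain ⟨hZp, hZU⟩ := hZ.pairwise hU
    have hnew : (rstep a U (A.lf hm) (tab hm A.δ) X A₁ A₂ env (Y, Z)) =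
        (uni U Y Z, A.st (sideOf a U hm X A₁ A₂ (uni U Y Z))) :: env := by
      have h1 : rstep a U (A.lf hm) (tab hm A.δ) X A₁ A₂ env (Y, Z) =
          (uni U Y Z, A.δ (fun i j => (((reps a U Y).map (fun u => (reps a U Z).map
            (fun v => a u v))).getD i []).getD j false)
          (fun i => toF hm (((reps a U Y).map (idx a U (uni U Y Z))).getD i 0))
          (fun i => toF hm (((reps a U Z).map (idx a U (uni U Y Z))).getD i 0))
          (stOf (A.lf hm) X A₁ A₂ env Y) (stOf (A.lf hm) X A₁ A₂ env Z)) :: env := rfl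
      rw [h1, hst Y hY, hst Z hZ, ← A.st_op,
        A.st_iso _ _ (iso_op a U hm ha hU hYU hZU hYp hZp hd hYm hZm)]
    rw [hnew]
    refine ⟨?_, ?_⟩
    · intro p hp
      rcases List.mem_cons.1 hp with rfl | hp
      · rfl
      · exact ih1 p hp
    · intro q hq
      rw [List.map_cons]
      rcases List.mem_append.1 hq with hq | hq
      · exact List.mem_cons_of_mem _ (ih2 q hq)
      · rw [List.mem_singleton] at hq
        subst hq
        exact List.mem_cons_self

/-- the result of the run -/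
theorem run_eq {a : ℕ → ℕ → Bool} {U : List ℕ} {k m : ℕ} (A : Auto k m) (hm : 0 < m)
    (ha : ∀ u v, a u v = a v u) (ha' : ∀ u, a u u = false) (hU : U.Pairwise (· < ·))
    (X A₁ A₂ : List ℕ) {tr : List (List ℕ × List ℕ)} {Y Z : List ℕ}
    (h : Valid a U m (tr ++ [(Y, Z)])) :
    run a U (A.lf hm) (tab hm A.δ) (tr ++ [(Y, Z)]) X A₁ A₂ =
      A.st (sideOf a U hm X A₁ A₂ (uni U Y Z)) := by
  have h1 := (run_invariant A hm ha ha' hU X A₁ A₂ h).1
  unfold run
  rw [List.foldl_append, List.foldl_cons, List.foldl_nil] at h1 ⊢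
  have h2 := h1 _ (List.mem_cons_self)
  exact h2

end NLC
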