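import Pool.Agent.Lib.MP_8b2ae4_lc.E2a
import Pool.Agent.Lib.MP_8b2ae4_lc.A1b

/-! # The oracle is correct -/

set_option autoImplicit false

namespace NLC

open Pool.Agent.MSR

/-- the attributes as elements of `Fin 4` -/
private theorem toA_att_ne_zero {X A₁ A₂ : List ℕ} (hA₁ : A₁ ⊆ X) (hA₂ : A₂ ⊆ X) (v : ℕ) :
    toA (att X A₁ A₂ v) ≠ 0 ↔ v ∈ X := by
  unfold att
  by_cases h1 : v ∈ A₁
  · simp only [h1, decide_true, cond_true]
    exact ⟨fun _ => hA₁ h1, fun _ => by decide⟩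
  · by_cases h2 : v ∈ A₂
    · simp only [h1, h2, decide_true, decide_false, cond_true, cond_false]
      exact ⟨fun _ => hA₂ h2, fun _ => by decide⟩
    · by_cases h3 : v ∈ X
      · simp only [h1, h2, h3, decide_true, decide_false, cond_true, cond_false, iff_true]
        decide
      · simp only [h1, h2, h3, decide_false, cond_false, iff_false, not_not]
        decide

private theorem toA_att_two {X A₁ A₂ : List ℕ} (v : ℕ) :
    toA (att X A₁ A₂ v) = 2 ↔ v ∈ A₁ := by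
  unfold att
  by_cases h1 : v ∈ A₁
  · simp only [h1, decide_true, cond_true, iff_true]
    decide
  · by_cases h2 : v ∈ A₂
    · simp only [h1, h2, decide_true, decide_false, cond_true, cond_false, iff_false]
      decide
    · by_cases h3 : v ∈ X
      · simp only [h1, h2, h3, decide_true, decide_false, cond_true, cond_false, iff_false]
        decide
      · simp only [h1, h2, h3, decide_false, cond_false, iff_false]
        decide

private theorem toA_att_three {X A₁ A₂ : List ℕ} (hd : ∀ v ∈ A₁, v ∉ A₂) (v : ℕ) :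
    toA (att X A₁ A₂ v) = 3 ↔ v ∈ A₂ := by
  unfold att
  by_cases h1 : v ∈ A₁
  · simp only [h1, hd v h1, decide_true, cond_true, iff_false]
    decide
  · by_cases h2 : v ∈ A₂
    · simp only [h1, h2, decide_true, decide_false, cond_true, cond_false, iff_true]
      decide
    · by_cases h3 : v ∈ X
      · simp only [h1, h2, h3, decide_true, decide_false, cond_true, cond_false, iff_false]
        decide
      · simp only [h1, h2, h3, decide_false, cond_false, iff_false]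
        decide

/-- the systems of the graph on the subtype and of the graph on all numbers -/
private theorem sys_sub {a : ℕ → ℕ → Bool} {U : List ℕ} (ha : ∀ u v, a u v = a v u)
    (Z : Set {v : ℕ // v ∈ U}) (u v : {v : ℕ // v ∈ U}) :
    sys (fun u v : {v : ℕ // v ∈ U} => a u v = true ∨ a v u = true) Z u v →
      sys (adN a U) (Subtype.val '' Z) u v := by
  intro h w hw
  by_cases hwU : w ∈ U
  · have hw' : (⟨w, hwU⟩ : {v : ℕ // v ∈ U}) ∉ Z := fun h' => hw ⟨_, h', rfl⟩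
    have := h ⟨w, hwU⟩ hw'
    simp only [ha w, or_self] at this
    exact ⟨fun h1 => ⟨v.2, hwU, this.1 h1.2.2⟩, fun h1 => ⟨u.2, hwU, this.2 h1.2.2⟩⟩
  · exact ⟨fun h1 => absurd h1.2.1 hwU, fun h1 => absurd h1.2.1 hwU⟩

private theorem sys_sub' {a : ℕ → ℕ → Bool} {U : List ℕ} (ha : ∀ u v, a u v = a v u)
    (Z : Set ℕ) (u v : {v : ℕ // v ∈ U}) (h : sys (adN a U) Z u v) :
    sys (fun u v : {v : ℕ // v ∈ U} => a u v = true ∨ a v u = true) (Subtype.val ⁻¹' Z) u v := by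
  intro w hw
  have := h w hw
  simp only [ha w, or_self]
  exact ⟨fun h1 => (this.1 ⟨u.2, w.2, h1⟩).2.2, fun h1 => (this.2 ⟨v.2, w.2, h1⟩).2.2⟩

private theorem PI_iff_PN_aux {a : ℕ → ℕ → Bool} {U : List ℕ} {k : ℕ}
    (ha : ∀ u v, a u v = a v u) {X A₁ A₂ : List ℕ} (hX : X ⊆ U) (hA₁ : A₁ ⊆ X) (hA₂ : A₂ ⊆ X)
    (hd : ∀ v ∈ A₁, v ∉ A₂) :
    PI k (fun u v : {v : ℕ // v ∈ U} => a u v = true ∨ a v u = true)
      (fun u : {v : ℕ // v ∈ U} => toA (att X A₁ A₂ u)) ↔ PN a U k X A₁ A₂ := by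
  constructor
  · rintro ⟨X₁, X₂, h1, h2, h3, h4, h5, h6, h7⟩
    obtain ⟨x0, hx0⟩ := h5.nonempty
    refine ⟨Subtype.val '' X₁, Subtype.val '' X₂,
      (Set.disjoint_image_iff Subtype.val_injective).2 h1, ?_, ?_, ?_, ?_, ?_, ?_⟩
    · rw [← Set.image_union, h2]
      ext v
      constructor
      · rintro ⟨w, hw, rfl⟩
        exact (toA_att_ne_zero hA₁ hA₂ _).1 hw
      · intro hv
        exact ⟨⟨v, hX hv⟩, (toA_att_ne_zero hA₁ hA₂ _).2 hv, rfl⟩
    · rintro v hv ⟨w, hw, rfl⟩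
      exact h3 w ((toA_att_two _).2 hv) hw
    · rintro v hv ⟨w, hw, rfl⟩
      exact h4 w ((toA_att_three hd _).2 hv) hw
    · exact h5.image Subtype.val Subtype.val_injective (fun Z u _ v _ h => sys_sub ha Z u v h)
    · exact h6.image Subtype.val Subtype.val_injective (fun Z u _ v _ h => sys_sub ha Z u v h)
    · obtain ⟨l, l1, l2, l3⟩ := h7
      have key : ∀ u : {v : ℕ // v ∈ U},
          Function.extend Subtype.val l (fun _ => l x0) (u : ℕ) = l u := fun u =>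
        Subtype.val_injective.extend_apply l _ u
      refine ⟨Function.extend Subtype.val l (fun _ => l x0), ?_, ?_, ?_⟩
      · rintro _ ⟨u, hu, rfl⟩ _ ⟨v, hv, rfl⟩ h
        rw [key, key] at h
        exact sys_sub ha _ u v (l1 u hu v hv h)
      · rintro _ ⟨u, hu, rfl⟩ _ ⟨v, hv, rfl⟩ h
        rw [key, key] at h
        exact sys_sub ha _ u v (l2 u hu v hv h)
      · rintro _ ⟨u, hu, rfl⟩ _ ⟨v, hv, rfl⟩ h
        rw [key, key] at h
        rw [← Set.image_union]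
        exact sys_sub ha _ u v (l3 u hu v hv h)
  · rintro ⟨X₁, X₂, h1, h2, h3, h4, h5, h6, h7⟩
    have hX₁ : ∀ v ∈ X₁, v ∈ U := fun v hv => by
      have : v ∈ X₁ ∪ X₂ := Or.inl hv
      rw [h2] at this
      exact hX this
    have hX₂ : ∀ v ∈ X₂, v ∈ U := fun v hv => by
      have : v ∈ X₁ ∪ X₂ := Or.inr hv
      rw [h2] at this
      exact hX this
    obtain ⟨x1, hx1⟩ := h5.nonempty
    obtain ⟨x2, hx2⟩ := h6.nonempty
    refine ⟨Subtype.val ⁻¹' X₁, Subtype.val ⁻¹' X₂, h1.preimage _, ?_, ?_, ?_, ?_, ?_, ?_⟩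
    · rw [← Set.preimage_union, h2]
      ext v
      exact (toA_att_ne_zero hA₁ hA₂ _).symm
    · intro v hv hv'
      exact h3 v ((toA_att_two _).1 hv) hv'
    · intro v hv hv'
      exact h4 v ((toA_att_three hd _).1 hv) hv'
    · exact h5.preimage Subtype.val Subtype.val_injective
        (fun Z _ u v _ _ h => sys_sub' ha Z u v h) ⟨⟨x1, hX₁ x1 hx1⟩, hx1⟩
    · exact h6.preimage Subtype.val Subtype.val_injective
        (fun Z _ u v _ _ h => sys_sub' ha Z u v h) ⟨⟨x2, hX₂ x2 hx2⟩, hx2⟩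
    · refine joinOK_map Subtype.val (fun u hu => hu) (fun u hu => hu)
        (fun u _ v _ h => sys_sub' ha _ u v h) (fun u _ v _ h => sys_sub' ha _ u v h)
        (fun u _ v _ h => ?_) h7
      rw [← Set.preimage_union]
      exact sys_sub' ha _ u v h

/-- from the labelled graph of `U` to sets of numbers: `C ↦ Subtype.val '' C`; `Con.image`,
`Con.preimage` for `Subtype.val`; the attributes `≠ 0`, `= 2`, `= 3` mean membership in `X`, `A₁`,
`A₂`. -/
theorem PI_iff_PN {a : ℕ → ℕ → Bool} {U : List ℕ} {k m : ℕ} (hm : 0 < m)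
    (ha : ∀ u v, a u v = a v u) {X A₁ A₂ : List ℕ} (hX : X ⊆ U) (hA₁ : A₁ ⊆ X) (hA₂ : A₂ ⊆ X)
    (hd : ∀ v ∈ A₁, v ∉ A₂) :
    PI k (sideOf a U hm X A₁ A₂ U).adj (sideOf a U hm X A₁ A₂ U).att ↔ PN a U k X A₁ A₂ :=
  PI_iff_PN_aux ha hX hA₁ hA₂ hd

/-- the oracle is correct (`run_eq`, `A.acc_iff`, `PI_iff_PN`) -/
theorem orc_iff {a : ℕ → ℕ → Bool} {U : List ℕ} {k m : ℕ} (A : Auto k m) (hm : 0 < m)
    (ha : ∀ u v, a u v = a v u) (ha' : ∀ u, a u u = false) (hU : U.Pairwise (· < ·))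
    {X A₁ A₂ : List ℕ} (hX : X ⊆ U) (hA₁ : A₁ ⊆ X) (hA₂ : A₂ ⊆ X) (hd : ∀ v ∈ A₁, v ∉ A₂)
    {tr : List (List ℕ × List ℕ)} {Y Z : List ℕ}
    (h : Valid a U m (tr ++ [(Y, Z)])) (hYZ : uni U Y Z = U) :
    orc a U (A.lf hm) (tab hm A.δ) A.acc (tr ++ [(Y, Z)]) X A₁ A₂ = true ↔ PN a U k X A₁ A₂ := by
  unfold orc
  rw [run_eq A hm ha ha' hU X A₁ A₂ h, hYZ, A.acc_iff]
  exact PI_iff_PN hm ha hX hA₁ hA₂ hd

end NLC
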