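import Pool.Agent.Lib.MP_8b2ae4_lc.SideDefs
import Pool.Agent.Lib.MP_8b2ae4_lc.A1a

/-! # Splitting -/

set_option autoImplicit false

namespace NLC

open Pool.Agent.MSR

theorem PN_iff_con {a : ℕ → ℕ → Bool} {U : List ℕ} {k : ℕ} {X : List ℕ} (h2 : 2 ≤ X.length)
    (hX : X.Nodup) : PN a U k X [] [] ↔ Con (sys (adN a U)) k {v | v ∈ X} := by
  constructor
  · rintro ⟨X₁, X₂, hd, hu, -, -, c1, c2, hj⟩
    rw [← hu]
    exact Con.join c1 c2 hd hj
  · intro h
    have key : ∀ S : Set ℕ, Con (sys (adN a U)) k S → S = {v | v ∈ X} → PN a U k X [] [] := by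
      intro S hS
      cases hS with
      | single v =>
        intro hS
        exfalso
        have hall : ∀ w ∈ X, w = v := by
          intro w hw
          have : w ∈ ({v} : Set ℕ) := by rw [hS]; exact hw
          exact this
        match X, h2, hX, hall with
        | [], h2, _, _ => simp at h2
        | [x], h2, _, _ => simp at h2
        | x :: y :: t, _, hX, hall =>
          have hx : x = v := hall x (by simp)
          have hy : y = v := hall y (by simp)
          subst hx
          subst hy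
          simp at hX
      | @join X₁ X₂ c1 c2 hd hj =>
        intro hS
        exact ⟨X₁, X₂, hd, hS, by simp, by simp, c1, c2, hj⟩
    exact key _ h rfl

private theorem fold_inv {a : ℕ → ℕ → Bool} {U : List ℕ} {k : ℕ}
    {o : List ℕ → List ℕ → List ℕ → Bool} (ho : Oracle a U k o) {X : List ℕ} (hXn : X.Nodup)
    (hXU : X ⊆ U) (Q : List ℕ) : ∀ (p : List ℕ × List ℕ) (P : List ℕ), X = P ++ Q →
    (∀ v, v ∈ P ↔ v ∈ p.1 ∨ v ∈ p.2) → (∀ v ∈ p.1, v ∉ p.2) → PN a U k X p.1 p.2 →
    (∀ v, v ∈ X ↔ v ∈ (Q.foldl (sstep o X) p).1 ∨ v ∈ (Q.foldl (sstep o X) p).2) ∧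
    (∀ v ∈ (Q.foldl (sstep o X) p).1, v ∉ (Q.foldl (sstep o X) p).2) ∧
    PN a U k X (Q.foldl (sstep o X) p).1 (Q.foldl (sstep o X) p).2 := by
  induction Q with
  | nil =>
    intro p P hP h1 h2 h3
    rw [List.append_nil] at hP
    subst hP
    exact ⟨h1, h2, h3⟩
  | cons v Q ih =>
    intro p P hP h1 h2 h3
    have hvX : v ∈ X := by rw [hP]; simp
    have hvP : v ∉ P := by
      intro hv
      rw [hP] at hXn
      have := (List.nodup_append.1 hXn).2.2 v hv v (by simp)
      exact this rfl
    have hv1 : v ∉ p.1 := fun h => hvP ((h1 v).2 (Or.inl h))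
    have hv2 : v ∉ p.2 := fun h => hvP ((h1 v).2 (Or.inr h))
    have hPX : P ⊆ X := by
      intro w hw
      rw [hP]
      exact List.mem_append_left _ hw
    have hp1 : p.1 ⊆ X := fun w hw => hPX ((h1 w).2 (Or.inl hw))
    have hp2 : p.2 ⊆ X := fun w hw => hPX ((h1 w).2 (Or.inr hw))
    have hP' : X = (P ++ [v]) ++ Q := by rw [hP]; simp
    rw [List.foldl_cons]
    have hd1 : ∀ w ∈ v :: p.1, w ∉ p.2 := by
      intro w hw
      rcases List.mem_cons.1 hw with rfl | hw
      · exact hv2
      · exact h2 w hw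
    have hor := ho X (v :: p.1) p.2 hXU (List.cons_subset.2 ⟨hvX, hp1⟩) hp2 hd1
    cases hb : o X (v :: p.1) p.2 with
    | true =>
      have hs : sstep o X p v = (v :: p.1, p.2) := by
        unfold sstep
        rw [hb]
        rfl
      rw [hs]
      refine ih (v :: p.1, p.2) (P ++ [v]) hP' ?_ hd1 (hor.1 hb)
      intro w
      simp only [List.mem_append, List.mem_cons, List.not_mem_nil, or_false]
      rw [h1 w]
      tauto
    | false =>
      have hs : sstep o X p v = (p.1, v :: p.2) := by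
        unfold sstep
        rw [hb]
        rfl
      rw [hs]
      have hno : ¬ PN a U k X (v :: p.1) p.2 := by
        intro h
        have := hor.2 h
        rw [hb] at this
        exact Bool.noConfusion this
      refine ih (p.1, v :: p.2) (P ++ [v]) hP' ?_ ?_ ?_
      · intro w
        simp only [List.mem_append, List.mem_cons, List.not_mem_nil, or_false]
        rw [h1 w]
        tauto
      · intro w hw hw'
        rcases List.mem_cons.1 hw' with rfl | hw'
        · exact hv1 hw
        · exact h2 w hw hw'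
      · obtain ⟨X₁, X₂, hd, hu, ha1, ha2, c1, c2, hj⟩ := h3
        have hvu : v ∈ X₁ ∪ X₂ := by rw [hu]; exact hvX
        have hv2' : v ∉ X₁ := by
          intro hv
          apply hno
          refine ⟨X₁, X₂, hd, hu, ?_, ha2, c1, c2, hj⟩
          intro w hw
          rcases List.mem_cons.1 hw with rfl | hw
          · exact fun h => Set.disjoint_left.1 hd hv h
          · exact ha1 w hw
        refine ⟨X₁, X₂, hd, hu, ha1, ?_, c1, c2, hj⟩
        intro w hw
        rcases List.mem_cons.1 hw with rfl | hw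
        · exact hv2'
        · exact ha2 w hw

/-- splitting is correct. Let `P` be an initial part of `X` and `p` the value of the fold over `P`.
Invariant: `p.1`, `p.2` are disjoint, together they have exactly the elements of `P`, and
`PN a U k X p.1 p.2`. At the start: `PN_iff_con`. Step with `v ∉ P`: if
`PN a U k X (v :: p.1) p.2` the oracle says `true` (`ho`); otherwise take sets `X₁`, `X₂` for
`PN a U k X p.1 p.2`; `v ∈ X₁ ∪ X₂`, and `v ∈ X₁` is impossible, so `v ∈ X₂` and
`PN a U k X p.1 (v :: p.2)`. At the end the sets `X₁`, `X₂` of `PN a U k X p.1 p.2` must be the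
sets of elements of `p.1` and `p.2`, i.e. of `(spl o X).1` and `(spl o X).2`. -/
theorem spl_spec {a : ℕ → ℕ → Bool} {U : List ℕ} {k : ℕ} {o : List ℕ → List ℕ → List ℕ → Bool}
    (ho : Oracle a U k o) {X : List ℕ} (hX : X.Pairwise (· < ·)) (hXU : X ⊆ U)
    (hc : Con (sys (adN a U)) k {v | v ∈ X}) (h2 : 2 ≤ X.length) :
    Con (sys (adN a U)) k {v | v ∈ (spl o X).1} ∧ Con (sys (adN a U)) k {v | v ∈ (spl o X).2} ∧
      JoinOK (sys (adN a U)) k {v | v ∈ (spl o X).1} {v | v ∈ (spl o X).2} ∧
      (spl o X).1.Pairwise (· < ·) ∧ (spl o X).2.Pairwise (· < ·) ∧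
      (∀ v, v ∈ X ↔ v ∈ (spl o X).1 ∨ v ∈ (spl o X).2) ∧ (∀ v ∈ (spl o X).1, v ∉ (spl o X).2) ∧
      (spl o X).1 ≠ [] ∧ (spl o X).2 ≠ [] := by
  have hXn : X.Nodup := hX.imp (fun h => ne_of_lt h)
  obtain ⟨hm, hdj, X₁, X₂, hd, hu, ha1, ha2, c1, c2, hj⟩ :=
    fold_inv ho hXn hXU X ([], []) [] (by simp) (by simp) (by simp)
      ((PN_iff_con h2 hXn).2 hc)
  have e1 : ∀ v, v ∈ (spl o X).1 ↔ v ∈ X ∧ v ∈ (X.foldl (sstep o X) ([], [])).1 := by
    intro v
    simp only [spl, List.mem_filter, decide_eq_true_eq]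
  have e2 : ∀ v, v ∈ (spl o X).2 ↔ v ∈ X ∧ v ∉ (X.foldl (sstep o X) ([], [])).1 := by
    intro v
    simp only [spl, List.mem_filter, Bool.not_eq_true', decide_eq_false_iff_not]
  have s1 : {v | v ∈ (spl o X).1} = X₁ := by
    ext v
    constructor
    · intro hv
      obtain ⟨hvX, hv1⟩ := (e1 v).1 hv
      have hvu : v ∈ X₁ ∪ X₂ := by rw [hu]; exact hvX
      rcases hvu with h | h
      · exact h
      · exact absurd h (ha1 v hv1)
    · intro hv
      have hvX : v ∈ X := by
        have : v ∈ X₁ ∪ X₂ := Or.inl hv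
        rw [hu] at this
        exact this
      refine (e1 v).2 ⟨hvX, ?_⟩
      rcases (hm v).1 hvX with h | h
      · exact h
      · exact absurd hv (ha2 v h)
  have s2 : {v | v ∈ (spl o X).2} = X₂ := by
    ext v
    constructor
    · intro hv
      obtain ⟨hvX, hv1⟩ := (e2 v).1 hv
      have hvu : v ∈ X₁ ∪ X₂ := by rw [hu]; exact hvX
      rcases hvu with h | h
      · exfalso
        rcases (hm v).1 hvX with h' | h'
        · exact hv1 h'
        · exact ha2 v h' h
      · exact h
    · intro hv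
      have hvX : v ∈ X := by
        have : v ∈ X₁ ∪ X₂ := Or.inr hv
        rw [hu] at this
        exact this
      refine (e2 v).2 ⟨hvX, ?_⟩
      intro h
      exact ha1 v h hv
  rw [s1, s2]
  refine ⟨c1, c2, hj, hX.filter _, hX.filter _, ?_, ?_, ?_, ?_⟩
  · intro v
    rw [e1, e2]
    tauto
  · intro v hv hv'
    exact ((e2 v).1 hv').2 ((e1 v).1 hv).2
  · intro h0
    obtain ⟨v, hv⟩ := c1.nonempty
    rw [← s1, h0] at hv
    exact absurd hv (by simp)
  · intro h0
    obtain ⟨v, hv⟩ := c2.nonempty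
    rw [← s2, h0] at hv
    exact absurd hv (by simp)

end NLC
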