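import Pool.Agent.Lib.MP_8b2ae4_lc.E3a
import Pool.Agent.Lib.MP_8b2ae4_lc.E1a

/-! # Building a tree -/

set_option autoImplicit false

namespace NLC

open Pool.Agent.MSR

theorem E3b_known_mono {U : List ℕ} {tr tr' : List (List ℕ × List ℕ)} {Z : List ℕ}
    (h : Known U tr Z) (htr : ∀ p ∈ tr, p ∈ tr') : Known U tr' Z := by
  rcases h with h | ⟨p, hp, e⟩
  · exact Or.inl h
  · exact Or.inr ⟨p, htr p hp, e⟩

theorem E3b_eq {l m : List ℕ} (hl : l.Pairwise (· < ·)) (hm : m.Pairwise (· < ·))
    (h : ∀ v, v ∈ l ↔ v ∈ m) : l = m := by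
  have hp : l.Perm m := (List.perm_ext_iff_of_nodup (hl.imp (fun h => ne_of_lt h))
    (hm.imp (fun h => ne_of_lt h))).2 h
  exact hp.eq_of_pairwise (fun a b _ _ h1 h2 => absurd h1 (lt_asymm h2)) hl hm

/-- the invariant -/
def E3bInv (a : ℕ → ℕ → Bool) (U : List ℕ) (k : ℕ)
    (s : List (List ℕ) × List (List ℕ × List ℕ)) : Prop :=
  (∀ Z ∈ s.1, Z.Pairwise (· < ·) ∧ Z ⊆ U ∧ Con (sys (adN a U)) k {v | v ∈ Z}) ∧
  (U ∈ s.1 ∨ Known U s.2 U) ∧
  ∀ (i : ℕ) (h : i < s.2.length), ((s.2[i]).1 ∈ s.1 ∨ Known U (s.2.take i) (s.2[i]).1) ∧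
    ((s.2[i]).2 ∈ s.1 ∨ Known U (s.2.take i) (s.2[i]).2) ∧
    (∀ v ∈ (s.2[i]).1, v ∉ (s.2[i]).2) ∧
    Con (sys (adN a U)) k {v | v ∈ (s.2[i]).1} ∧ Con (sys (adN a U)) k {v | v ∈ (s.2[i]).2} ∧
    Con (sys (adN a U)) k {v | v ∈ uni U (s.2[i]).1 (s.2[i]).2}

/-- the potential -/
def E3bPot (s : List (List ℕ) × List (List ℕ × List ℕ)) : ℕ :=
  (s.1.map (fun Z => 2 * Z.length - 1)).sum

theorem E3b_ne {a : ℕ → ℕ → Bool} {U : List ℕ} {k : ℕ} {Z : List ℕ}
    (h : Con (sys (adN a U)) k {v | v ∈ Z}) : Z ≠ [] := by
  rintro rfl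
  obtain ⟨v, hv⟩ := h.nonempty
  simp at hv

theorem E3b_step {a : ℕ → ℕ → Bool} {U : List ℕ} {k : ℕ}
    {o : List ℕ → List ℕ → List ℕ → Bool}
    (ho : Oracle a U k o) (hU : U.Pairwise (· < ·))
    (s : List (List ℕ) × List (List ℕ × List ℕ)) (hs : E3bInv a U k s) :
    E3bInv a U k (grow o s) ∧ (s.1 = [] → (grow o s).1 = []) ∧
      (s.1 ≠ [] → E3bPot (grow o s) + 1 = E3bPot s) := by
  obtain ⟨work, out⟩ := s
  obtain ⟨h1, h2, h3⟩ := hs
  simp only at h1 h2 h3
  cases work with
  | nil => exact ⟨⟨h1, h2, h3⟩, fun _ => rfl, fun h => (h rfl).elim⟩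
  | cons X rest =>
    obtain ⟨hX1, hX2, hX3⟩ := h1 X List.mem_cons_self
    have hXne := E3b_ne hX3
    by_cases hlen : X.length ≤ 1
    · have hg : grow o (X :: rest, out) = (rest, out) := by
        simp [grow, lcase, leb, hlen]
      have hK : ∀ tr, Known U tr X := by
        intro tr
        obtain ⟨v, rfl⟩ : ∃ v, X = [v] := by
          cases X with
          | nil => exact (hXne rfl).elim
          | cons v l =>
            cases l with
            | nil => exact ⟨v, rfl⟩
            | cons w l => simp at hlen
        exact Or.inl ⟨v, hX2 (by simp), rfl⟩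
      rw [hg]
      refine ⟨⟨fun Z hZ => h1 Z (List.mem_cons_of_mem _ hZ), ?_, ?_⟩, fun h => by simp at h, ?_⟩
      · rcases h2 with h | h
        · rcases List.mem_cons.1 h with h | h
          · right
            rw [h]
            rw [h] at hK
            exact hK _
          · exact Or.inl h
        · exact Or.inr h
      · intro i hi
        obtain ⟨g1, g2, g3⟩ := h3 i hi
        refine ⟨?_, ?_, g3⟩
        · rcases g1 with h | h
          · rcases List.mem_cons.1 h with h | h
            · right; rw [h]; exact hK _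
            · exact Or.inl h
          · exact Or.inr h
        · rcases g2 with h | h
          · rcases List.mem_cons.1 h with h | h
            · right; rw [h]; exact hK _
            · exact Or.inl h
          · exact Or.inr h
      · intro _
        have : X.length = 1 := by
          have : X.length ≠ 0 := fun h => hXne (List.length_eq_zero_iff.1 h)
          omega
        simp only [E3bPot, List.map_cons, List.sum_cons, this]
        omega
    · have hg : grow o (X :: rest, out) = ((spl o X).1 :: (spl o X).2 :: rest, spl o X :: out) := by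
        simp [grow, lcase, leb, hlen]
      obtain ⟨c1, c2, c3, c4, c5, c6, c7, c8, c9⟩ := spl_spec ho hX1 hX2 hX3 (by omega)
      have hs1 : (spl o X).1 ⊆ U := fun v hv => hX2 ((c6 v).2 (Or.inl hv))
      have hs2 : (spl o X).2 ⊆ U := fun v hv => hX2 ((c6 v).2 (Or.inr hv))
      have hmem : ∀ v, v ∈ uni U (spl o X).1 (spl o X).2 ↔ v ∈ X := by
        intro v
        rw [mem_uni, c6 v]
        constructor
        · exact fun h => h.2
        · intro h
          exact ⟨hX2 ((c6 v).2 h), h⟩
      have hset : {v | v ∈ uni U (spl o X).1 (spl o X).2} = {v | v ∈ X} := by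
        ext v; exact hmem v
      have hXeq : X = uni U (spl o X).1 (spl o X).2 :=
        E3b_eq hX1 (hU.sublist List.filter_sublist) (fun v => (hmem v).symm)
      have hK : ∀ tr, Known U (spl o X :: tr) X := fun tr =>
        Or.inr ⟨spl o X, List.mem_cons_self, hXeq⟩
      rw [hg]
      refine ⟨⟨?_, ?_, ?_⟩, fun h => by simp at h, ?_⟩
      · intro Z hZ
        rcases List.mem_cons.1 hZ with rfl | hZ
        · exact ⟨c4, hs1, c1⟩
        · rcases List.mem_cons.1 hZ with rfl | hZ
          · exact ⟨c5, hs2, c2⟩
          · exact h1 Z (List.mem_cons_of_mem _ hZ)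
      · rcases h2 with h | h
        · rcases List.mem_cons.1 h with h | h
          · right
            have := hK out
            rw [← h] at this ⊢
            exact this
          · exact Or.inl (List.mem_cons_of_mem _ (List.mem_cons_of_mem _ h))
        · exact Or.inr (E3b_known_mono h (fun p hp => List.mem_cons_of_mem _ hp))
      · intro i hi
        cases i with
        | zero =>
          refine ⟨Or.inl List.mem_cons_self, Or.inl (List.mem_cons_of_mem _ List.mem_cons_self),
            c7, c1, c2, ?_⟩
          show Con (sys (adN a U)) k {v | v ∈ uni U (spl o X).1 (spl o X).2}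
          rw [hset]
          exact hX3
        | succ i =>
          have hi' : i < out.length := by simpa using hi
          obtain ⟨g1, g2, g3⟩ := h3 i hi'
          have key : ∀ Z : List ℕ, (Z ∈ X :: rest ∨ Known U (out.take i) Z) →
              (Z ∈ (spl o X).1 :: (spl o X).2 :: rest ∨
                Known U ((spl o X :: out).take (i + 1)) Z) := by
            intro Z hZ
            rcases hZ with h | h
            · rcases List.mem_cons.1 h with h | h
              · right
                rw [h, List.take_succ_cons]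
                exact hK _
              · exact Or.inl (List.mem_cons_of_mem _ (List.mem_cons_of_mem _ h))
            · right
              rw [List.take_succ_cons]
              exact E3b_known_mono h (fun p hp => List.mem_cons_of_mem _ hp)
          exact ⟨key _ g1, key _ g2, g3⟩
      · intro _
        have hl : (spl o X).1.length + (spl o X).2.length = X.length := by
          unfold spl
          exact (List.length_eq_length_filter_add _).symm
        have hl1 : (spl o X).1.length ≠ 0 := fun h => c8 (List.length_eq_zero_iff.1 h)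
        have hl2 : (spl o X).2.length ≠ 0 := fun h => c9 (List.length_eq_zero_iff.1 h)
        simp only [E3bPot, List.map_cons, List.sum_cons]
        omega

theorem build_spec {a : ℕ → ℕ → Bool} {U : List ℕ} {k : ℕ}
    {o : List ℕ → List ℕ → List ℕ → Bool}
    (ho : Oracle a U k o) (hU : U.Pairwise (· < ·))
    (hc : Con (sys (adN a U)) k {v | v ∈ U}) : KTree a U k (build U o) U := by
  have key : ∀ j, E3bInv a U k ((grow o)^[j] ([U], [])) ∧
      (((grow o)^[j] ([U], [])).1 = [] ∨
        E3bPot ((grow o)^[j] ([U], [])) + j = 2 * U.length - 1) := by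
    intro j
    induction j with
    | zero =>
      refine ⟨⟨?_, Or.inl List.mem_cons_self, ?_⟩, Or.inr (by simp [E3bPot])⟩
      · intro Z hZ
        have hZ' : Z = U := by simpa using hZ
        subst hZ'
        exact ⟨hU, fun _ h => h, hc⟩
      · intro i hi
        simp at hi
    | succ j ih =>
      rw [Function.iterate_succ_apply']
      obtain ⟨g1, g2⟩ := ih
      obtain ⟨f1, f2, f3⟩ := E3b_step ho hU _ g1
      refine ⟨f1, ?_⟩
      by_cases hw : ((grow o)^[j] ([U], [])).1 = []
      · exact Or.inl (f2 hw)
      · right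
        have := f3 hw
        rcases g2 with g2 | g2
        · exact (hw g2).elim
        · omega
  obtain ⟨⟨g1, g2, g3⟩, g4⟩ := key (2 * U.length)
  have hUne : U.length ≠ 0 := fun h => E3b_ne hc (List.length_eq_zero_iff.1 h)
  have hw : ((grow o)^[2 * U.length] ([U], [])).1 = [] := by
    rcases g4 with h | h
    · exact h
    · omega
  rw [hw] at g2 g3
  refine ⟨?_, ?_⟩
  · rcases g2 with h | h
    · simp at h
    · exact h
  · intro i hi
    obtain ⟨f1, f2, f3⟩ := g3 i hi
    refine ⟨?_, ?_, f3⟩
    · rcases f1 with h | h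
      · simp at h
      · exact h
    · rcases f2 with h | h
      · simp at h
      · exact h

end NLC
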