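import Pool.Agent.Lib.MP_8b2ae4_lc.E2a
import Pool.Agent.Lib.MP_8b2ae4_lc.A1c

/-! # Adding a vertex to a tree -/

set_option autoImplicit false

namespace NLC

open Pool.Agent.MSR

theorem uni_last (i : ℕ) : uni (List.range (i + 1)) (List.range i) [i] = List.range (i + 1) := by
  unfold uni
  rw [List.filter_eq_self]
  intro v hv
  rw [List.mem_range] at hv
  rcases Nat.lt_succ_iff_lt_or_eq.1 hv with h | h
  · simp [List.mem_range.2 h]
  · simp [h]

/-- a set constructible in the graph on `0, ..., i-1` has at most `2 k` classes in the graph on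
`0, ..., i`: `Con.label` gives `l : ℕ → Fin k`; use `reps_length_le` with the label
`(l u, a u i) : Fin k × Bool ≃ Fin (2 * k)` -/
theorem reps_le_two_mul {a : ℕ → ℕ → Bool} {k i : ℕ} (hk : 1 ≤ k) {Y : List ℕ}
    (hY : Y.Pairwise (· < ·)) (hYU : Y ⊆ List.range i)
    (h : Con (sys (adN a (List.range i))) k {v | v ∈ Y}) :
    (reps a (List.range (i + 1)) Y).length ≤ 2 * k := by
  obtain ⟨l, hl⟩ := Con.label hk h
  refine reps_length_le a (List.range (i + 1))
    (fun u => finProdFinEquiv ((if a u i = true then (1 : Fin 2) else 0), l u)) ?_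
    (hY.imp fun h => Nat.ne_of_lt h)
  intro u hu v hv huv
  have h1 := finProdFinEquiv.injective huv
  rw [Prod.mk.injEq] at h1
  obtain ⟨h2, h3⟩ := h1
  have hi : a u i = a v i := by
    cases hau : a u i <;> cases hav : a v i <;> simp [hau, hav] at h2 ⊢
  rw [same_iff]
  intro w hw hwY
  rw [List.mem_range] at hw
  rcases Nat.lt_succ_iff_lt_or_eq.1 hw with h | h
  · have h4 := hl u hu v hv h3 w hwY
    unfold adN at h4
    have hw' : w ∈ List.range i := List.mem_range.2 h
    have h5 : a u w = true ↔ a v w = true := by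
      constructor
      · intro h6
        exact (h4.1 ⟨hYU hu, hw', h6⟩).2.2
      · intro h6
        exact (h4.2 ⟨hYU hv, hw', h6⟩).2.2
    exact Bool.eq_iff_iff.2 h5
  · rw [h]; exact hi

private theorem uni_succ {i : ℕ} {X Y : List ℕ} (hX : X ⊆ List.range i) (hY : Y ⊆ List.range i) :
    uni (List.range (i + 1)) X Y = uni (List.range i) X Y := by
  unfold uni
  rw [List.range_succ, List.filter_append]
  have h1 : i ∉ X := fun h => by simpa using hX h
  have h2 : i ∉ Y := fun h => by simpa using hY h
  simp [h1, h2]

private theorem range_pw (i : ℕ) : (List.range i).Pairwise (· < ·) := List.pairwise_lt_range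

private theorem known_succ {i : ℕ} {tr : List (List ℕ × List ℕ)} {Z : List ℕ}
    (htr : ∀ p ∈ tr, p.1 ⊆ List.range i ∧ p.2 ⊆ List.range i)
    (h : Known (List.range i) tr Z) : Known (List.range (i + 1)) tr Z := by
  rcases h with ⟨v, hv, rfl⟩ | ⟨p, hp, rfl⟩
  · left
    refine ⟨v, ?_, rfl⟩
    rw [List.mem_range] at hv ⊢
    omega
  · right
    exact ⟨p, hp, (uni_succ (htr p hp).1 (htr p hp).2).symm⟩

/-- a tree for `0, ..., i-1` extended by the new vertex `i` is valid for `m = 2 k`. For increasing
`p.1, p.2 ⊆ List.range i` the sets `uni (List.range i) p.1 p.2` and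
`uni (List.range (i + 1)) p.1 p.2` are equal, so `Known (List.range i) tr Z` implies
`Known (List.range (i + 1)) tr Z`. Show `Valid a (List.range (i + 1)) (2 * k) (tr.take j)` by
induction on `j ≤ tr.length`. The last join `(List.range i, [i])`: at most two classes in the
first part (label `a u i`), one in the second. -/
theorem valid_extend {a : ℕ → ℕ → Bool} {k i : ℕ} (hk : 1 ≤ k) (hi : 1 ≤ i)
    {tr : List (List ℕ × List ℕ)}
    (h : KTree a (List.range i) k tr (List.range i)) :
    Valid a (List.range (i + 1)) (2 * k) (tr ++ [(List.range i, [i])]) := by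
  obtain ⟨hR, hT⟩ := h
  have hsub : ∀ p ∈ tr, p.1 ⊆ List.range i ∧ p.2 ⊆ List.range i := by
    intro p hp
    obtain ⟨j, hj, rfl⟩ := List.getElem_of_mem hp
    obtain ⟨h1, h2, -⟩ := hT j hj
    exact ⟨(h1.pairwise (range_pw i)).2, (h2.pairwise (range_pw i)).2⟩
  have hval : ∀ j, j ≤ tr.length → Valid a (List.range (i + 1)) (2 * k) (tr.take j) := by
    intro j
    induction j with
    | zero => intro _; rw [List.take_zero]; exact Valid.nil
    | succ j ih =>
      intro hj
      have hj' : j < tr.length := hj
      have h0 := ih hj'.le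
      obtain ⟨h1, h2, h3, h4, h5, -⟩ := hT j hj'
      have hsub' : ∀ p ∈ tr.take j, p.1 ⊆ List.range i ∧ p.2 ⊆ List.range i :=
        fun p hp => hsub p (List.mem_of_mem_take hp)
      rw [← List.take_append_getElem hj']
      exact Valid.snoc h0 (known_succ hsub' h1) (known_succ hsub' h2) h3
        (reps_le_two_mul hk (h1.pairwise (range_pw i)).1 (h1.pairwise (range_pw i)).2 h4)
        (reps_le_two_mul hk (h2.pairwise (range_pw i)).1 (h2.pairwise (range_pw i)).2 h5)
  have hall := hval tr.length le_rfl
  rw [List.take_length] at hall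
  refine Valid.snoc hall (known_succ hsub hR) (Or.inl ⟨i, by simp, rfl⟩) ?_ ?_ ?_
  · intro v hv
    rw [List.mem_range] at hv
    simp only [List.mem_singleton]
    omega
  · refine le_trans (reps_length_le a (List.range (i + 1)) (k := 2)
      (fun u => if a u i = true then (1 : Fin 2) else 0) ?_ List.nodup_range) (by omega)
    intro u hu v hv huv
    have hi : a u i = a v i := by
      cases hau : a u i <;> cases hav : a v i <;> simp [hau, hav] at huv ⊢
    rw [same_iff]
    intro w hw hwY
    rw [List.mem_range] at hw hwY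
    have : w = i := by omega
    rw [this]; exact hi
  · have h1 := (reps_sublist a (List.range (i + 1)) [i]).length_le
    simp only [List.length_singleton] at h1
    omega

end NLC
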