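import Pool.Agent.Lib.MP_8b2ae4_lc.E2b
import Pool.Agent.Lib.MP_8b2ae4_lc.E3b
import Pool.Agent.Lib.MP_8b2ae4_lc.E3c

/-! # Correctness of the algorithm -/

set_option autoImplicit false

namespace NLC

open Pool.Agent.MSR

/-- heredity: `Con.inter` with `S = {v | v ∈ List.range i}` -/
theorem con_pred {a : ℕ → ℕ → Bool} {k i : ℕ} (hi : 1 ≤ i)
    (h : Con (sys (adN a (List.range (i + 1)))) k {v | v ∈ List.range (i + 1)}) :
    Con (sys (adN a (List.range i))) k {v | v ∈ List.range i} := by
  have hXS : {v | v ∈ List.range (i + 1)} ∩ {v | v ∈ List.range i} = {v | v ∈ List.range i} := by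
    ext v
    simp only [Set.mem_inter_iff, Set.mem_ofPred_eq, List.mem_range]
    omega
  have hne : ({v | v ∈ List.range (i + 1)} ∩ {v | v ∈ List.range i}).Nonempty := by
    refine ⟨0, ?_, ?_⟩
    · simp only [Set.mem_ofPred_eq, List.mem_range]; omega
    · simp only [Set.mem_ofPred_eq, List.mem_range]; omega
  have := Con.inter (F := sys (adN a (List.range i))) (S := {v | v ∈ List.range i}) h ?_ hne
  · rwa [hXS] at this
  · intro Z _ u hu v hv hE w hw
    have hui : u < i := List.mem_range.1 hu.2
    have hvi : v < i := List.mem_range.1 hv.2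
    unfold adN
    by_cases hwi : w < i
    · have hwZ : w ∉ Z := fun hZ => hw ⟨hZ, List.mem_range.2 hwi⟩
      have h1 := hE w hwZ
      unfold adN at h1
      simp only [List.mem_range] at h1 ⊢
      constructor
      · rintro ⟨_, _, h2⟩
        exact ⟨hvi, hwi, (h1.1 ⟨by omega, by omega, h2⟩).2.2⟩
      · rintro ⟨_, _, h2⟩
        exact ⟨hui, hwi, (h1.2 ⟨by omega, by omega, h2⟩).2.2⟩
    · simp only [List.mem_range]
      constructor
      · rintro ⟨_, h2, _⟩
        exact absurd h2 hwi
      · rintro ⟨_, h2, _⟩
        exact absurd h2 hwi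

/-- the oracle of the main loop is correct -/
private theorem orc_oracle {a : ℕ → ℕ → Bool} {k : ℕ} (hk : 1 ≤ k) (A : Auto k (2 * k))
    (hm : 0 < 2 * k) (ha : ∀ u v, a u v = a v u) (ha' : ∀ u, a u u = false) {i : ℕ} (hi : 1 ≤ i)
    {tr : List (List ℕ × List ℕ)} (h : KTree a (List.range i) k tr (List.range i)) :
    Oracle a (List.range (i + 1)) k
      (orc a (List.range (i + 1)) (A.lf hm) (tab hm A.δ) A.acc
        (tr ++ [(List.range i, [i])])) := by
  intro X A₁ A₂ hX hA₁ hA₂ hd
  exact orc_iff A hm ha ha' (List.pairwise_lt_range) hX hA₁ hA₂ hd (valid_extend hk hi h)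
    (uni_last i)

/-- the invariant of the main loop. Induction on `j`; `j = 0`: one vertex. Step: with
`U = List.range (j + 2)` the answer of `orc … U [] []` is `PN a U k U [] []` (`orc_iff`,
`valid_extend`, `uni_last`), i.e. `Con` of all vertices (`PN_iff_con`); if it is `true` then
`build_spec` (the oracle is correct by `orc_iff`); if the old flag is `false` use `con_pred`. -/
theorem main_invariant {a : ℕ → ℕ → Bool} {k : ℕ} (hk : 1 ≤ k) (A : Auto k (2 * k))
    (hm : 0 < 2 * k) (ha : ∀ u v, a u v = a v u) (ha' : ∀ u, a u u = false) (j : ℕ) :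
    ((mstep a (A.lf hm) (tab hm A.δ) A.acc)^[j] (true, 1, [])).2.1 = j + 1 ∧
    (((mstep a (A.lf hm) (tab hm A.δ) A.acc)^[j] (true, 1, [])).1 = true ↔
      Con (sys (adN a (List.range (j + 1)))) k {v | v ∈ List.range (j + 1)}) ∧
    (((mstep a (A.lf hm) (tab hm A.δ) A.acc)^[j] (true, 1, [])).1 = true →
      KTree a (List.range (j + 1)) k
        ((mstep a (A.lf hm) (tab hm A.δ) A.acc)^[j] (true, 1, [])).2.2 (List.range (j + 1))) := by
  induction j with
  | zero =>
    have h1 : {v | v ∈ List.range (0 + 1)} = {0} := by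
      ext v
      simp
    refine ⟨rfl, ?_, ?_⟩
    · rw [h1]
      exact ⟨fun _ => Con.single 0, fun _ => rfl⟩
    · intro _
      refine ⟨Or.inl ⟨0, by simp, by simp⟩, ?_⟩
      intro i hi
      exact absurd hi (by simp)
  | succ j ih =>
    rw [Function.iterate_succ_apply']
    set s := (mstep a (A.lf hm) (tab hm A.δ) A.acc)^[j] (true, 1, []) with hs
    clear_value s
    obtain ⟨f, i, tr⟩ := s
    obtain ⟨h1, h2, h3⟩ := ih
    simp only at h1 h2 h3
    subst h1
    cases f with
    | false =>
      have hn : ¬ Con (sys (adN a (List.range (j + 1 + 1)))) k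
          {v | v ∈ List.range (j + 1 + 1)} := by
        intro hc
        have := h2.2 (con_pred (by omega) hc)
        simp at this
      refine ⟨rfl, ?_, ?_⟩
      · constructor
        · intro h
          exact absurd h (by simp [mstep])
        · intro h
          exact absurd h hn
      · intro h
        exact absurd h (by simp [mstep])
    | true =>
      have hK := h3 rfl
      have hor := orc_oracle hk A hm ha ha' (i := j + 1) (by omega) hK
      have hPN := hor (List.range (j + 1 + 1)) [] [] (List.Subset.refl _) (List.nil_subset _)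
        (List.nil_subset _) (by simp)
      rw [PN_iff_con (by simp) List.nodup_range] at hPN
      cases ho : orc a (List.range (j + 1 + 1)) (A.lf hm) (tab hm A.δ) A.acc
          (tr ++ [(List.range (j + 1), [j + 1])]) (List.range (j + 1 + 1)) [] [] with
      | false =>
        have hst : mstep a (A.lf hm) (tab hm A.δ) A.acc (true, j + 1, tr) =
            (false, j + 1 + 1, tr) := by
          simp only [mstep, ho, Bool.and_false, cond_false]
        rw [hst]
        rw [ho] at hPN
        refine ⟨rfl, hPN, ?_⟩
        intro h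
        exact absurd h (by simp)
      | true =>
        have hst : mstep a (A.lf hm) (tab hm A.δ) A.acc (true, j + 1, tr) =
            (true, j + 1 + 1, build (List.range (j + 1 + 1))
              (orc a (List.range (j + 1 + 1)) (A.lf hm) (tab hm A.δ) A.acc
                (tr ++ [(List.range (j + 1), [j + 1])]))) := by
          simp only [mstep, ho, Bool.and_true, cond_true]
        rw [hst]
        rw [ho] at hPN
        refine ⟨rfl, hPN, ?_⟩
        intro _
        exact build_spec hor (List.pairwise_lt_range) (hPN.1 rfl)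

/-- the algorithm is correct -/
theorem algo_iff {a : ℕ → ℕ → Bool} {k : ℕ} (hk : 1 ≤ k) (A : Auto k (2 * k))
    (hm : 0 < 2 * k) (ha : ∀ u v, a u v = a v u) (ha' : ∀ u, a u u = false) (n : ℕ) :
    algo a (A.lf hm) (tab hm A.δ) A.acc n = true ↔
      0 < n ∧ Con (sys (adN a (List.range n))) k {v | v ∈ List.range n} := by
  unfold algo
  rw [Bool.and_eq_true]
  rcases Nat.eq_zero_or_pos n with hn | hn
  · subst hn
    constructor
    · rintro ⟨h, _⟩
      exact absurd h (by simp [ltb])
    · rintro ⟨h, _⟩
      exact absurd h (by omega)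
  · obtain ⟨j, rfl⟩ : ∃ j, n = j + 1 := ⟨n - 1, by omega⟩
    have h1 : ltb 0 (j + 1) = true := by simp [ltb]
    rw [Nat.add_sub_cancel, (main_invariant hk A hm ha ha' j).2.1]
    exact ⟨fun h => ⟨by omega, h.2⟩, fun h => ⟨h1, h.2⟩⟩

end NLC
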