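import Pool.Agent.Lib.MP_17a834_lc.Msr.Ops

/-! # Equality tests for lists -/

set_option autoImplicit false

namespace NLC

open Pool.Agent.MSR

attribute [local fun_prop] PT.eq PT.mem

/-- `decide (a = b) = (bif a then b else !b)` -/
instance : EqPT Bool where
  eq := by
    have : PT (fun p : Bool × Bool => bif p.1 then p.2 else !p.2) := by fun_prop
    refine this.of_eq (fun p => ?_)
    obtain ⟨a, b⟩ := p
    cases a <;> cases b <;> rfl

/-- the lists disagree at the place `i` -/
def F0_dis {β : Type} [DecidableEq β] (p : (List β × List β) × ℕ) : Bool :=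
  lcase (p.1.1.drop p.2) false fun b _ => lcase (p.1.2.drop p.2) false fun c _ => !decide (b = c)

theorem F0_dis_pt {β : Type} [En β] [DecidableEq β] [EqPT β] : PT (F0_dis (β := β)) := by
  have h1 : PT (fun p : (List β × List β) × ℕ => p.1.1.drop p.2) := by fun_prop
  refine PT.lcase (g := fun p b _ => lcase (p.1.2.drop p.2) false fun c _ => !decide (b = c)) h1
    (PT.const _) ?_
  have h2 : PT (fun q : ((List β × List β) × ℕ) × β × List β => q.1.1.2.drop q.1.2) := by fun_prop
  refine PT.lcase (g := fun (q : ((List β × List β) × ℕ) × β × List β) c _ => !decide (q.2.1 = c)) h2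
    (PT.const _) ?_
  refine PT.not (PT.eq ?_ ?_)
  · fun_prop
  · fun_prop

theorem F0_dis_iff {β : Type} [DecidableEq β] (l m : List β) (i : ℕ) (h1 : i < l.length)
    (h2 : i < m.length) : F0_dis ((l, m), i) = true ↔ l[i] ≠ m[i] := by
  unfold F0_dis
  show lcase (l.drop i) false (fun b _ => lcase (m.drop i) false fun c _ => !decide (b = c)) = true ↔ _
  rw [List.drop_eq_getElem_cons h1, List.drop_eq_getElem_cons h2]
  show (!decide (l[i] = m[i])) = true ↔ _
  rw [Bool.not_eq_true', decide_eq_false_iff_not]

/-- `l = m` iff they have the same length and `l.drop i`, `m.drop i` have the same head for all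
`i < l.length` (`List.range l.length`, `PT.any`, `PT.drop`, `PT.lcase`) -/
instance {β : Type} [En β] [DecidableEq β] [EqPT β] : EqPT (List β) where
  eq := by
    have h1 : PT (fun p : List β × List β => decide (p.1.length = p.2.length)) :=
      PT.eq (PT.length (PT.fst PT.id')) (PT.length (PT.snd PT.id'))
    have h2 : PT (fun p : List β × List β => (List.range p.1.length).any fun i => F0_dis (p, i)) := by
      refine PT.any (p := fun (p : List β × List β) i => F0_dis (p, i)) (PT.range (PT.length (PT.fst PT.id'))) ?_
      exact F0_dis_pt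
    refine (PT.and h1 (PT.not h2)).of_eq (fun p => ?_)
    obtain ⟨l, m⟩ := p
    show decide (l = m) =
      (decide (l.length = m.length) && !((List.range l.length).any fun i => F0_dis ((l, m), i)))
    rw [eq_comm, Bool.eq_iff_iff, Bool.and_eq_true, decide_eq_true_iff, decide_eq_true_iff, Bool.not_eq_true',
      List.any_eq_false]
    constructor
    · rintro ⟨h3, h4⟩
      refine List.ext_getElem h3 fun i hi hi' => ?_
      by_contra hne
      exact h4 i (List.mem_range.2 hi) ((F0_dis_iff l m i hi hi').2 hne)
    · rintro rfl
      refine ⟨rfl, fun i hi h5 => ?_⟩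
      have hi' := List.mem_range.1 hi
      exact (F0_dis_iff l l i hi' hi').1 h5 rfl

end NLC
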