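import Pool.Agent.Lib.MP_8b2ae4_lc.A1a

/-! # From NLC expressions to constructible sets -/

set_option autoImplicit false

namespace NLC

variable {k : ℕ}

/-- (1.2), first direction. Induction on `e` (for all `f`). Vertex: `Set.range f` is a singleton.
Relabelling: equal labels before imply equal labels after. Composition: the two parts are embedded
by `f ∘ Sum.inl`, `f ∘ Sum.inr` (induction hypothesis: if `u, v` have the same label in the first
part then they have the same neighbours outside `Set.range f` by `hlab`, and the same neighbours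
in the second part by `hadj` and the definition of `NExpr.adj`); the labelling of the join sends
`f (inl u)` to `e₁.lab u` and `f (inr v)` to `e₂.lab v` (e.g. `Function.extend f`, `hf`); for `u` in
the first and `v` in the second part with the same label use `hlab`. -/
theorem con_of_expr (hk : 1 ≤ k) (e : NExpr k) {V : Type} (adj : V → V → Prop) (f : e.V → V)
    (hf : Function.Injective f) (hadj : ∀ u v, adj (f u) (f v) ↔ e.adj u v)
    (hlab : ∀ u v, e.lab u = e.lab v → sys adj (Set.range f) (f u) (f v)) :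
    Con (sys adj) k (Set.range f) := by
  induction e with
  | vertex a =>
    have h : Set.range f = {f (() : Unit)} := by
      ext x
      constructor
      · rintro ⟨u, rfl⟩
        rfl
      · rintro hx
        exact ⟨(() : Unit), hx.symm⟩
    rw [h]
    exact Con.single _
  | relabel R e ih =>
    exact ih f hf hadj fun u v h => hlab u v (congrArg R h)
  | comp S e₁ e₂ ih₁ ih₂ =>
    have hf' : ∀ x y : e₁.V ⊕ e₂.V, f x = f y → x = y := fun x y h => hf h
    have hr : Set.range f = Set.range (fun u : e₁.V => f (Sum.inl u)) ∪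
        Set.range (fun u : e₂.V => f (Sum.inr u)) := by
      ext x
      constructor
      · rintro ⟨u, rfl⟩
        rcases u with u | u
        · exact Or.inl ⟨u, rfl⟩
        · exact Or.inr ⟨u, rfl⟩
      · rintro (⟨u, rfl⟩ | ⟨u, rfl⟩)
        · exact ⟨Sum.inl u, rfl⟩
        · exact ⟨Sum.inr u, rfl⟩
    have h1 : ∀ u v : e₁.V, e₁.lab u = e₁.lab v →
        sys adj (Set.range (fun u : e₁.V => f (Sum.inl u))) (f (Sum.inl u)) (f (Sum.inl v)) := by
      intro u v h w hw
      by_cases hw' : w ∈ Set.range f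
      · rw [hr] at hw'
        rcases hw' with hw' | ⟨z, rfl⟩
        · exact absurd hw' hw
        · have e1 := hadj (Sum.inl u) (Sum.inr z)
          have e2 := hadj (Sum.inl v) (Sum.inr z)
          have e3 : (NExpr.comp S e₁ e₂).adj (Sum.inl u) (Sum.inr z) ↔
              (NExpr.comp S e₁ e₂).adj (Sum.inl v) (Sum.inr z) := by
            show (e₁.lab u, e₂.lab z) ∈ S ↔ (e₁.lab v, e₂.lab z) ∈ S
            rw [h]
          exact e1.trans (e3.trans e2.symm)
      · exact hlab (Sum.inl u) (Sum.inl v) h w hw'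
    have h2 : ∀ u v : e₂.V, e₂.lab u = e₂.lab v →
        sys adj (Set.range (fun u : e₂.V => f (Sum.inr u))) (f (Sum.inr u)) (f (Sum.inr v)) := by
      intro u v h w hw
      by_cases hw' : w ∈ Set.range f
      · rw [hr] at hw'
        rcases hw' with ⟨z, rfl⟩ | hw'
        · have e1 := hadj (Sum.inr u) (Sum.inl z)
          have e2 := hadj (Sum.inr v) (Sum.inl z)
          have e3 : (NExpr.comp S e₁ e₂).adj (Sum.inr u) (Sum.inl z) ↔
              (NExpr.comp S e₁ e₂).adj (Sum.inr v) (Sum.inl z) := by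
            show (e₁.lab z, e₂.lab u) ∈ S ↔ (e₁.lab z, e₂.lab v) ∈ S
            rw [h]
          exact e1.trans (e3.trans e2.symm)
        · exact absurd hw' hw
      · exact hlab (Sum.inr u) (Sum.inr v) h w hw'
    have c1 : Con (sys adj) k (Set.range (fun u : e₁.V => f (Sum.inl u))) :=
      ih₁ (fun u : e₁.V => f (Sum.inl u)) (fun u v h => Sum.inl.inj (hf' _ _ h))
        (fun u v => hadj (Sum.inl u) (Sum.inl v)) h1
    have c2 : Con (sys adj) k (Set.range (fun u : e₂.V => f (Sum.inr u))) :=
      ih₂ (fun u : e₂.V => f (Sum.inr u)) (fun u v h => Sum.inr.inj (hf' _ _ h))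
        (fun u v => hadj (Sum.inr u) (Sum.inr v)) h2
    have hl : ∀ u, Function.extend f (NExpr.comp S e₁ e₂).lab (fun _ => (⟨0, hk⟩ : Fin k)) (f u) =
        (NExpr.comp S e₁ e₂).lab u := fun u => hf.extend_apply _ _ u
    have hl1 : ∀ u : e₁.V, Function.extend f (NExpr.comp S e₁ e₂).lab
        (fun _ => (⟨0, hk⟩ : Fin k)) (f (Sum.inl u)) = e₁.lab u := fun u => hl (Sum.inl u)
    have hl2 : ∀ u : e₂.V, Function.extend f (NExpr.comp S e₁ e₂).lab
        (fun _ => (⟨0, hk⟩ : Fin k)) (f (Sum.inr u)) = e₂.lab u := fun u => hl (Sum.inr u)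
    rw [hr]
    refine Con.join c1 c2 ?_ ⟨Function.extend f (NExpr.comp S e₁ e₂).lab
      (fun _ => (⟨0, hk⟩ : Fin k)), ?_, ?_, ?_⟩
    · rw [Set.disjoint_left]
      rintro x ⟨u, rfl⟩ ⟨v, h⟩
      exact absurd (hf' _ _ h) (by simp)
    · rintro _ ⟨u, rfl⟩ _ ⟨v, rfl⟩ h
      simp only [hl1] at h
      exact h1 u v h
    · rintro _ ⟨u, rfl⟩ _ ⟨v, rfl⟩ h
      simp only [hl2] at h
      exact h2 u v h
    · rintro _ ⟨u, rfl⟩ _ ⟨v, rfl⟩ h
      simp only [hl1, hl2] at h
      rw [← hr]
      exact hlab (Sum.inl u) (Sum.inr v) h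

end NLC
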