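import Pool.Agent.Lib.MP_8b2ae4_lc.A1a

/-! # From constructible sets to NLC expressions -/

set_option autoImplicit false

namespace NLC

variable {k : ℕ}

/-- normalised labels of a set: constant on classes, different on different classes -/
private theorem exists_norm_h4 (hk : 1 ≤ k) {V : Type} (adj : V → V → Prop) (X : Set V)
    (l : V → Fin k) (hl : ∀ u ∈ X, ∀ v ∈ X, l u = l v → sys adj X u v) :
    ∃ q : V → Fin k, (∀ u ∈ X, ∀ v ∈ X, sys adj X u v → q u = q v) ∧
      (∀ u ∈ X, ∃ v ∈ X, sys adj X u v ∧ q u = l v) ∧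
      ∀ u ∈ X, ∀ v ∈ X, q u = q v → sys adj X u v := by
  classical
  let F : Set V → Fin k := fun R =>
    if h : ∃ v ∈ X, row adj X v = R then l (Classical.choose h) else ⟨0, hk⟩
  have h2 : ∀ u ∈ X, ∃ v ∈ X, sys adj X u v ∧ F (row adj X u) = l v := by
    intro u hu
    have h : ∃ v ∈ X, row adj X v = row adj X u := ⟨u, hu, rfl⟩
    have hs := Classical.choose_spec h
    refine ⟨Classical.choose h, hs.1, sys_iff_row.2 hs.2.symm, ?_⟩
    show (if h : ∃ v ∈ X, row adj X v = row adj X u then l (Classical.choose h) else ⟨0, hk⟩) = _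
    rw [dif_pos h]
  refine ⟨fun u => F (row adj X u), ?_, h2, ?_⟩
  · intro u _ v _ huv
    show F (row adj X u) = F (row adj X v)
    rw [sys_iff_row.1 huv]
  · intro u hu v hv huv
    obtain ⟨u', hu', h3, h4⟩ := h2 u hu
    obtain ⟨v', hv', h5, h6⟩ := h2 v hv
    have huv' : F (row adj X u) = F (row adj X v) := huv
    rw [h4, h6] at huv'
    exact sys_trans h3 (sys_trans (hl u' hu' v' hv' huv') (sys_symm h5))

/-- (1.2), second direction. Induction on `h` (for all `q`). Singleton `{v}`: `NExpr.vertex (q v)`.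
Join `X ∪ Y` with labelling `l`: for `u ∈ X` let `q₁ u` be the least label `l v` with `v ∈ X`,
`sys adj X u v` (constant on classes, different on different classes); the same for `q₂` on `Y`.
Let `e₁`, `f₁` and `e₂`, `f₂` be the expressions for `(X, q₁)`, `(Y, q₂)` (`q₁`, `q₂` total
functions, arbitrary outside). Put
`S = {(a, b) | ∃ u ∈ X, ∃ v ∈ Y, q₁ u = a ∧ q₂ v = b ∧ adj u v}`; for `u ∈ X`, `v ∈ Y`:
`(q₁ u, q₂ v) ∈ S ↔ adj u v` (adjacency depends only on the classes). Then relabel with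
`R a = q u` for any `u ∈ X ∪ Y` with current label `a` (`q₁ u = a` or `q₂ u = a`): well defined
because equal current labels imply `sys adj (X ∪ Y) u v` by the three conditions of the join, and
`hq`. Take `e = relabel R (comp S e₁ e₂)`, `f = Sum.elim f₁ f₂`. -/
theorem expr_of_con (hk : 1 ≤ k) {V : Type} (adj : V → V → Prop) (hs : ∀ u v, adj u v → adj v u)
    (hi : ∀ u, ¬ adj u u) {X : Set V} (h : Con (sys adj) k X) (q : V → Fin k)
    (hq : ∀ u ∈ X, ∀ v ∈ X, sys adj X u v → q u = q v) :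
    ∃ (e : NExpr k) (f : e.V → V), Function.Injective f ∧ Set.range f = X ∧
      (∀ u v, adj (f u) (f v) ↔ e.adj u v) ∧ ∀ u, e.lab u = q (f u) := by
  classical
  induction h generalizing q with
  | single v =>
    refine ⟨NExpr.vertex (q v), fun _ => v, ?_, ?_, ?_, ?_⟩
    · intro a b _
      cases a
      cases b
      rfl
    · ext w
      simp only [Set.mem_range, Set.mem_singleton_iff]
      constructor
      · rintro ⟨_, h⟩
        exact h.symm
      · intro h
        exact ⟨(), h.symm⟩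
    · intro _ _
      exact iff_of_false (hi v) (fun h => h)
    · intro _
      rfl
  | @join X Y hX hY hd hJ ihX ihY =>
    obtain ⟨l, ha, hb, hc⟩ := hJ.all
    obtain ⟨q1, hq1, hn1, hm1⟩ := exists_norm_h4 hk adj X l ha
    obtain ⟨q2, hq2, hn2, hm2⟩ := exists_norm_h4 hk adj Y l hb
    obtain ⟨e1, f1, i1, r1, a1, l1⟩ := ihX q1 hq1
    obtain ⟨e2, f2, i2, r2, a2, l2⟩ := ihY q2 hq2
    have hf1 : ∀ u, f1 u ∈ X := fun u => by rw [← r1]; exact ⟨u, rfl⟩
    have hf2 : ∀ u, f2 u ∈ Y := fun u => by rw [← r2]; exact ⟨u, rfl⟩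
    have hXY : ∀ u ∈ X, u ∉ Y := fun u hu hu' => Set.disjoint_left.1 hd hu hu'
    let S : Set (Fin k × Fin k) := {p | ∃ u ∈ X, ∃ v ∈ Y, q1 u = p.1 ∧ q2 v = p.2 ∧ adj u v}
    have hS : ∀ u ∈ X, ∀ v ∈ Y, (q1 u, q2 v) ∈ S ↔ adj u v := by
      intro u hu v hv
      constructor
      · rintro ⟨u', hu', v', hv', h1, h2, h3⟩
        have h4 := hm1 u' hu' u hu h1
        have h5 := hm2 v' hv' v hv h2
        have h6 : adj u v' := (h4 v' (fun h => hXY v' h hv')).1 h3
        have h7 : adj v u := (h5 u (hXY u hu)).1 (hs _ _ h6)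
        exact hs _ _ h7
      · intro h
        exact ⟨u, hu, v, hv, rfl, rfl, h⟩
    let cur : V → Fin k := fun u => if u ∈ X then q1 u else q2 u
    have hcur1 : ∀ u ∈ X, cur u = q1 u := fun u hu => if_pos hu
    have hcur2 : ∀ u ∈ Y, cur u = q2 u := fun u hu => if_neg (fun h => hXY u h hu)
    have hw : ∀ u ∈ X ∪ Y, ∃ w ∈ X ∪ Y, sys adj (X ∪ Y) u w ∧ cur u = l w := by
      intro u hu
      rcases hu with hu | hu
      · obtain ⟨w, hw1, hw2, hw3⟩ := hn1 u hu
        exact ⟨w, Or.inl hw1, sys_mono Set.subset_union_left hw2, (hcur1 u hu).trans hw3⟩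
      · obtain ⟨w, hw1, hw2, hw3⟩ := hn2 u hu
        exact ⟨w, Or.inr hw1, sys_mono Set.subset_union_right hw2, (hcur2 u hu).trans hw3⟩
    have hcc : ∀ u ∈ X ∪ Y, ∀ v ∈ X ∪ Y, cur u = cur v → sys adj (X ∪ Y) u v := by
      intro u hu v hv huv
      obtain ⟨u', hu', h3, h4⟩ := hw u hu
      obtain ⟨v', hv', h5, h6⟩ := hw v hv
      rw [h4, h6] at huv
      exact sys_trans h3 (sys_trans (hc u' hu' v' hv' huv) (sys_symm h5))
    let R : Fin k → Fin k := fun a =>
      if h : ∃ u ∈ X ∪ Y, cur u = a then q (Classical.choose h) else a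
    have hR : ∀ u ∈ X ∪ Y, R (cur u) = q u := by
      intro u hu
      have h : ∃ v ∈ X ∪ Y, cur v = cur u := ⟨u, hu, rfl⟩
      have hsp := Classical.choose_spec h
      show (if h : ∃ v ∈ X ∪ Y, cur v = cur u then q (Classical.choose h) else cur u) = _
      rw [dif_pos h]
      exact hq _ hsp.1 u hu (hcc _ hsp.1 u hu hsp.2)
    refine ⟨NExpr.relabel R (NExpr.comp S e1 e2), (Sum.elim f1 f2 : e1.V ⊕ e2.V → V), ?_, ?_, ?_, ?_⟩
    · rintro (u | u) (v | v) huv
      · exact congrArg Sum.inl (i1 huv)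
      · have h1 : f1 u = f2 v := huv
        exact absurd (hf2 v) (hXY _ (h1 ▸ hf1 u))
      · have h1 : f2 u = f1 v := huv
        exact absurd (hf2 u) (hXY _ (h1.symm ▸ hf1 v))
      · exact congrArg Sum.inr (i2 huv)
    · show Set.range (Sum.elim f1 f2) = X ∪ Y
      rw [Set.Sum.elim_range, r1, r2]
    · rintro (u | u) (v | v)
      · exact a1 u v
      · show adj (f1 u) (f2 v) ↔ (e1.lab u, e2.lab v) ∈ S
        rw [l1, l2]
        exact (hS _ (hf1 u) _ (hf2 v)).symm
      · show adj (f2 u) (f1 v) ↔ (e1.lab v, e2.lab u) ∈ S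
        rw [l1, l2]
        exact ⟨fun h => (hS _ (hf1 v) _ (hf2 u)).2 (hs _ _ h),
          fun h => hs _ _ ((hS _ (hf1 v) _ (hf2 u)).1 h)⟩
      · exact a2 u v
    · rintro (u | u)
      · show R (e1.lab u) = q (f1 u)
        rw [l1, ← hcur1 _ (hf1 u)]
        exact hR _ (Or.inl (hf1 u))
      · show R (e2.lab u) = q (f2 u)
        rw [l2, ← hcur2 _ (hf2 u)]
        exact hR _ (Or.inr (hf2 u))

end NLC
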