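import Pool.Agent.Lib.MP_8b2ae4_lc.F1a
import Pool.Agent.Lib.MP_8b2ae4_lc.F1b

/-! # NLC-width and constructible sets -/

set_option autoImplicit false

namespace NLC

variable {k : ℕ}

/-- `con_of_expr` for `f` = the inverse of the isomorphism (`Set.range f = Set.univ`, so `hlab` is
trivial); `expr_of_con` for `X = Set.univ`, `q` constant -/
theorem isNLC_iff (hk : 1 ≤ k) {V : Type} (G : SimpleGraph V) :
    IsNLC k G ↔ Con (sys G.Adj) k Set.univ := by
  constructor
  · rintro ⟨e, ⟨φ⟩⟩
    have hr : Set.range (fun u : e.V => φ.symm u) = Set.univ := by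
      rw [Set.eq_univ_iff_forall]
      exact fun v => ⟨φ v, φ.symm_apply_apply v⟩
    have h := con_of_expr hk e G.Adj (fun u : e.V => φ.symm u) φ.symm.injective
      (fun u v => φ.symm.map_adj_iff) (fun u v _ w hw => absurd (hr ▸ Set.mem_univ w) hw)
    rwa [hr] at h
  · intro h
    obtain ⟨e, f, hf, hr, hadj, -⟩ := expr_of_con hk G.Adj (fun u v h => h.symm)
      (fun u h => G.loopless.irrefl u h) h (fun _ => ⟨0, hk⟩) (fun _ _ _ _ _ => rfl)
    have hs : Function.Surjective f := Set.range_eq_univ.1 hr
    have φ : e.graph ≃g G :=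
      { toEquiv := Equiv.ofBijective f ⟨hf, hs⟩
        map_rel_iff' := fun {u v} => hadj u v }
    exact ⟨e, ⟨φ.symm⟩⟩

/-- there is no expression with labels in `Fin 0` -/
theorem isNLC_zero {V : Type} (G : SimpleGraph V) : ¬ IsNLC 0 G := by
  rintro ⟨e, -⟩
  induction e with
  | vertex a => exact a.elim0
  | relabel R e ih => exact ih
  | comp S e₁ e₂ ih₁ _ => exact ih₁

/-- all nonempty sets of vertices are constructible with pairwise different labels -/
private theorem con_card {n : ℕ} (G : SimpleGraph (Fin n)) (s : Finset (Fin n))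
    (hs : s.Nonempty) : Con (sys G.Adj) n (s : Set (Fin n)) := by
  induction hs using Finset.Nonempty.cons_induction with
  | singleton a =>
    rw [Finset.coe_singleton]
    exact Con.single a
  | cons a s ha _ ih =>
    rw [Finset.coe_cons, Set.insert_eq]
    refine Con.join (Con.single a) ih ?_ ⟨id, ?_, ?_, ?_⟩
    · rw [Set.disjoint_singleton_left]
      exact fun h => ha (Finset.mem_coe.1 h)
    · intro u _ v _ h
      have h' : u = v := h
      rw [h']
      exact fun w _ => Iff.rfl
    · intro u _ v _ h
      have h' : u = v := h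
      rw [h']
      exact fun w _ => Iff.rfl
    · intro u _ v _ h
      have h' : u = v := h
      rw [h']
      exact fun w _ => Iff.rfl

/-- width `n` always suffices: all nonempty sets are constructible (add the vertices one by one,
all labels different) -/
theorem isNLC_card {n : ℕ} (hn : 1 ≤ n) (G : SimpleGraph (Fin n)) : IsNLC n G := by
  rw [isNLC_iff hn, ← Finset.coe_univ]
  exact con_card G Finset.univ ⟨⟨0, hn⟩, Finset.mem_univ _⟩

private theorem con_succ {V : Type} {E : Sys V} {X : Set V} (h : Con E k X) :
    Con E (k + 1) X := by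
  induction h with
  | single v => exact Con.single v
  | join _ _ hd hj h1 h2 =>
    obtain ⟨l, a, b, c⟩ := hj
    exact Con.join h1 h2 hd ⟨fun v => (l v).castSucc,
      fun u hu v hv h => a u hu v hv (Fin.castSucc_injective k h),
      fun u hu v hv h => b u hu v hv (Fin.castSucc_injective k h),
      fun u hu v hv h => c u hu v hv (Fin.castSucc_injective k h)⟩

/-- replace every label `a` of the expression by `a.castSucc` (relabelling:
extend `R` to `Fin (k + 1)`), or `isNLC_iff` and composing labellings with `Fin.castSucc` -/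
theorem isNLC_mono {V : Type} {G : SimpleGraph V} (h : IsNLC k G) : IsNLC (k + 1) G := by
  rcases Nat.eq_zero_or_pos k with h0 | h0
  · subst h0
    exact absurd h (isNLC_zero G)
  · rw [isNLC_iff (by omega)]
    exact con_succ ((isNLC_iff h0 G).1 h)

/-- `Nat.sInf_mem`, `Nat.sInf_le` -/
theorem nlcWidth_le_iff {n : ℕ} (hn : 1 ≤ n) (G : SimpleGraph (Fin n)) :
    nlcWidth G ≤ k ↔ IsNLC k G := by
  constructor
  · intro h
    have h1 : IsNLC (nlcWidth G) G := Nat.sInf_mem (s := {k | IsNLC k G}) ⟨n, isNLC_card hn G⟩
    induction h with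
    | refl => exact h1
    | step _ ih => exact isNLC_mono ih
  · intro h
    exact Nat.sInf_le h

end NLC
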