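import Pool.Agent.Lib.MP_8b2ae4_lc.F0

/-! # Finite tables -/

set_option autoImplicit false

namespace NLC

open Pool.Agent.MSR

attribute [local fun_prop] PT.eq PT.mem

variable {α β : Type} [En α] [En β]

/-- a finite table -/
def table {K γ : Type} [DecidableEq K] (keys : List K) (F : K → γ) (d : γ) (x : K) : γ :=
  keys.foldr (fun κ r => bif decide (x = κ) then F κ else r) d

private theorem table_cons {K γ : Type} [DecidableEq K] (κ : K) (keys : List K) (F : K → γ) (d : γ)
    (x : K) : table (κ :: keys) F d x = bif decide (x = κ) then F κ else table keys F d x := rfl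

theorem table_eq {K γ : Type} [DecidableEq K] (keys : List K) (F : K → γ) (d : γ) {x : K}
    (h : x ∈ keys) : table keys F d x = F x := by
  induction keys with
  | nil => exact absurd h List.not_mem_nil
  | cons κ ks ih =>
    rw [table_cons]
    by_cases hx : x = κ
    · subst hx
      simp only [decide_true, cond_true]
    · rw [decide_eq_false hx, cond_false]
      exact ih ((List.mem_cons.1 h).resolve_left hx)

private theorem table_not_mem {K γ : Type} [DecidableEq K] (keys : List K) (F : K → γ) (d : γ)
    {x : K} (h : x ∉ keys) : table keys F d x = d := by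
  induction keys with
  | nil => rfl
  | cons κ ks ih =>
    rw [table_cons]
    have hx : x ≠ κ := fun e => h (List.mem_cons.2 (Or.inl e))
    rw [decide_eq_false hx, cond_false]
    exact ih (fun e => h (List.mem_cons.2 (Or.inr e)))

/-- the value of a table is a value of `F` at a key or the default value -/
theorem table_mem {K γ : Type} [DecidableEq K] (keys : List K) (F : K → γ) (d : γ) (x : K) :
    (∃ κ ∈ keys, table keys F d x = F κ) ∨ table keys F d x = d := by
  by_cases h : x ∈ keys
  · exact Or.inl ⟨x, h, table_eq keys F d h⟩
  · exact Or.inr (table_not_mem keys F d h)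

/-- induction on `keys` (`PT.cond`, `PT.eq`, `PT.const`) -/
theorem pt_table {K γ : Type} [En K] [DecidableEq K] [EqPT K] [En γ] (keys : List K) (F : K → γ)
    (d : γ) {x : α → K} (hx : PT x) : PT (fun b => table keys F d (x b)) := by
  induction keys with
  | nil => exact PT.const d
  | cons κ ks ih =>
    exact PT.cond (PT.eq hx (PT.const κ)) (PT.const (F κ)) ih

/-- `i % m = (fun x => bif leb m x then x - m else x)^[i] i` for `0 < m` (for `m = 0` it is `i`):
`PT.iter` -/
theorem pt_mod (m : ℕ) : PT (fun i : ℕ => i % m) := by
  rcases Nat.eq_zero_or_pos m with rfl | hm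
  · exact PT.id'.of_eq (fun i => Nat.mod_zero i)
  have hle : ∀ k x : ℕ, (fun x => bif leb m x then x - m else x)^[k] x ≤ x := by
    intro k
    induction k with
    | zero => intro x; exact le_rfl
    | succ k ih =>
      intro x
      rw [Function.iterate_succ_apply]
      refine (ih _).trans ?_
      by_cases h : m ≤ x
      · simp only [leb, h, decide_true, cond_true]; omega
      · simp only [leb, h, decide_false, cond_false]; exact le_rfl
  have heq : ∀ k x : ℕ, x < (k + 1) * m →
      (fun x => bif leb m x then x - m else x)^[k] x = x % m := by
    intro k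
    induction k with
    | zero =>
      intro x hx
      rw [Nat.zero_add, Nat.one_mul] at hx
      exact (Nat.mod_eq_of_lt hx).symm
    | succ k ih =>
      intro x hx
      rw [Function.iterate_succ_apply]
      by_cases h : m ≤ x
      · simp only [leb, h, decide_true, cond_true]
        have h1 : x - m < (k + 1) * m := by
          rw [Nat.add_mul (k + 1) 1 m, Nat.one_mul] at hx; omega
        have h2 := ih (x - m) h1
        simp only [leb] at h2
        rw [h2]
        exact (Nat.mod_eq_sub_mod h).symm
      · simp only [leb, h, decide_false, cond_false]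
        have h1 : x < (k + 1) * m := by
          rw [Nat.add_mul, Nat.one_mul]; omega
        have h2 := ih x h1
        simp only [leb] at h2
        exact h2
  have h1 : PT (fun i : ℕ => (fun x => bif leb m x then x - m else x)^[i] i) := by
    refine PT.iter (α := ℕ) (β := ℕ) (n := fun i => i) (f := fun i => i)
      (g := fun _ x => bif leb m x then x - m else x) PT.id' PT.id' (by fun_prop)
      ⟨fun n => n, PB.id, ?_⟩
    intro a k _
    rw [sz_nat, sz_nat]
    exact hle k a
  refine h1.of_eq (fun i => ?_)
  refine (heq i i ?_).symm
  calc i < i + 1 := Nat.lt_succ_self i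
    _ = (i + 1) * 1 := (Nat.mul_one _).symm
    _ ≤ (i + 1) * m := Nat.mul_le_mul_left _ hm

/-- a function on the numbers which is constant from `n` on (`pt_table` for the keys
`List.range n`) -/
theorem pt_finite (F : ℕ → β) (n : ℕ) (d : β) (hF : ∀ i, n ≤ i → F i = d) {x : α → ℕ}
    (hx : PT x) : PT (fun b => F (x b)) := by
  refine (pt_table (List.range n) F d hx).of_eq (fun b => ?_)
  by_cases h : x b < n
  · exact (table_eq _ F d (List.mem_range.2 h)).symm
  · rw [table_not_mem _ F d (fun e => h (List.mem_range.1 e))]
    exact hF _ (not_lt.1 h)

end NLC
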