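import Pool.Agent.Lib.MP_8b2ae4_lc.F0
import Pool.Agent.Lib.MP_8b2ae4_lc.AlgoDefs

/-! # Polynomial time: the elementary functions -/

set_option autoImplicit false

namespace NLC

open Pool.Agent.MSR

attribute [local fun_prop] PT.eq PT.mem

variable {α β : Type} [En α] [En β]

/-- as `FVS424.pt_ad` in `outputs/live/Pool/Agent/Lib/MP_424cb6_lc/PTAlgo.lean` -/
@[fun_prop]
theorem pt_ad {M : α → List (List Bool)} {u w : α → ℕ} (hM : PT M) (hu : PT u) (hw : PT w) :
    PT (fun b => ad (M b) (u b) (w b)) := by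
  unfold ad
  have h0 : PT (fun _ : α => ([] : List Bool)) := PT.const []
  have h1 : PT (fun _ : α => false) := PT.const false
  exact PT.getD hw (PT.getD hu hM h0) h1

@[fun_prop]
theorem pt_same {M : α → List (List Bool)} {U X : α → List ℕ} {u v : α → ℕ} (hM : PT M)
    (hU : PT U) (hX : PT X) (hu : PT u) (hv : PT v) :
    PT (fun b => same (ad (M b)) (U b) (X b) (u b) (v b)) := by
  unfold same
  fun_prop

@[fun_prop]
theorem pt_reps {M : α → List (List Bool)} {U X : α → List ℕ} (hM : PT M)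
    (hU : PT U) (hX : PT X) : PT (fun b => reps (ad (M b)) (U b) (X b)) := by
  unfold reps
  fun_prop

@[fun_prop]
theorem pt_idx {M : α → List (List Bool)} {U X : α → List ℕ} {u : α → ℕ} (hM : PT M)
    (hU : PT U) (hX : PT X) (hu : PT u) :
    PT (fun b => idx (ad (M b)) (U b) (X b) (u b)) := by
  unfold idx
  fun_prop

@[fun_prop]
theorem pt_uni {U X Y : α → List ℕ} (hU : PT U) (hX : PT X) (hY : PT Y) :
    PT (fun b => uni (U b) (X b) (Y b)) := by
  unfold uni
  fun_prop

@[fun_prop]
theorem pt_look {env : α → List (List ℕ × ℕ)} {X : α → List ℕ} (he : PT env) (hX : PT X) :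
    PT (fun b => look (env b) (X b)) := by
  unfold look
  fun_prop

@[fun_prop]
theorem pt_att {X A₁ A₂ : α → List ℕ} {v : α → ℕ} (hX : PT X) (h1 : PT A₁) (h2 : PT A₂)
    (hv : PT v) : PT (fun b => att (X b) (A₁ b) (A₂ b) (v b)) := by
  unfold att
  fun_prop

end NLC
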