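import Pool.Agent.Lib.MP_8b2ae4_lc.D1a

/-! # Composition of labelled graphs: definition -/

set_option autoImplicit false

namespace NLC

/-- the disjoint union of two labelled graphs with additional edges `M` and new labels
`r₁`, `r₂` -/
def op {m : ℕ} (M : Fin m → Fin m → Bool) (r₁ r₂ : Fin m → Fin m) (L₁ L₂ : Side m) : Side m where
  V := L₁.V ⊕ L₂.V
  fin := inferInstance
  adj := gadj (fun a b => M a b = true) L₁ L₂
  symm := gadj_symm _ _ _
  lab := Sum.elim (fun u => r₁ (L₁.lab u)) (fun u => r₂ (L₂.lab u))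
  att := gatt L₁ L₂

/-- isomorphic labelled graphs -/
def Iso {m : ℕ} (L L' : Side m) : Prop :=
  ∃ f : L.V ≃ L'.V, (∀ u v, L.adj u v ↔ L'.adj (f u) (f v)) ∧ (∀ u, L'.lab (f u) = L.lab u) ∧
    ∀ u, L'.att (f u) = L.att u

end NLC
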