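import Pool.Agent.Lib.MP_8b2ae4_lc.AlgoDefs
import Pool.Agent.Lib.MP_8b2ae4_lc.OpDefs

/-! # The labelled graph of a set of vertices: definitions -/

set_option autoImplicit false

namespace NLC

open Pool.Agent.MSR

/-- labels as elements of `Fin m` -/
def toF {m : ℕ} (hm : 0 < m) (i : ℕ) : Fin m := ⟨i % m, Nat.mod_lt i hm⟩

/-- attributes as elements of `Fin 4` -/
def toA (i : ℕ) : Fin 4 := ⟨i % 4, Nat.mod_lt i (by norm_num)⟩

/-- the labelled graph of the set `Z`: labels are the numbers of the classes -/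
def sideOf (a : ℕ → ℕ → Bool) (U : List ℕ) {m : ℕ} (hm : 0 < m) (X A₁ A₂ : List ℕ)
    (Z : List ℕ) : Side m where
  V := {v : ℕ // v ∈ Z}
  fin := inferInstance
  adj := fun u v => a u v = true ∨ a v u = true
  symm := fun _ _ h => h.symm
  lab := fun u => toF hm (idx a U Z u)
  att := fun u => toA (att X A₁ A₂ u)

/-- the table of an automaton -/
def tab {m : ℕ} (hm : 0 < m) (δ : (Fin m → Fin m → Bool) → (Fin m → Fin m) → (Fin m → Fin m) →
    ℕ → ℕ → ℕ) : Tab := fun c r₁ r₂ s₁ s₂ =>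
  δ (fun i j => (c.getD i []).getD j false) (fun i => toF hm (r₁.getD i 0))
    (fun i => toF hm (r₂.getD i 0)) s₁ s₂

/-- `Z` is a single vertex of `U` or the union of a join in `tr` -/
def Known (U : List ℕ) (tr : List (List ℕ × List ℕ)) (Z : List ℕ) : Prop :=
  (∃ v ∈ U, Z = [v]) ∨ ∃ p ∈ tr, Z = uni U p.1 p.2

/-- `tr` is a bottom-up list of joins of increasing lists with at most `m` classes -/
inductive Valid (a : ℕ → ℕ → Bool) (U : List ℕ) (m : ℕ) : List (List ℕ × List ℕ) → Prop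
  | nil : Valid a U m []
  | snoc {tr : List (List ℕ × List ℕ)} {Y Z : List ℕ} (h : Valid a U m tr) (hY : Known U tr Y)
      (hZ : Known U tr Z) (hd : ∀ v ∈ Y, v ∉ Z) (hYm : (reps a U Y).length ≤ m)
      (hZm : (reps a U Z).length ≤ m) : Valid a U m (tr ++ [(Y, Z)])

/-- an automaton as in `exists_automaton` -/
structure Auto (k m : ℕ) where
  Q : ℕ
  st : Side m → ℕ
  δ : (Fin m → Fin m → Bool) → (Fin m → Fin m) → (Fin m → Fin m) → ℕ → ℕ → ℕ
  acc : ℕ → Bool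
  st_lt : ∀ L, st L < Q
  δ_lt : ∀ M r₁ r₂ x y, δ M r₁ r₂ x y < Q
  st_op : ∀ M r₁ r₂ L₁ L₂, st (op M r₁ r₂ L₁ L₂) = δ M r₁ r₂ (st L₁) (st L₂)
  st_iso : ∀ L L', Iso L L' → st L = st L'
  acc_iff : ∀ L, acc (st L) = true ↔ PI k L.adj L.att

/-- the labelled graph with one vertex of attribute `i` -/
def single {m : ℕ} (hm : 0 < m) (i : ℕ) : Side m where
  V := Unit
  fin := inferInstance
  adj := fun _ _ => False
  symm := fun _ _ h => h
  lab := fun _ => toF hm 0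
  att := fun _ => toA i

/-- the leaf states of an automaton -/
def Auto.lf {k m : ℕ} (A : Auto k m) (hm : 0 < m) (i : ℕ) : ℕ := A.st (single hm i)

/-- the graph on `U` as a relation on all numbers -/
def adN (a : ℕ → ℕ → Bool) (U : List ℕ) (u v : ℕ) : Prop := u ∈ U ∧ v ∈ U ∧ a u v = true

/-- the property decided by the oracle, in terms of sets of numbers -/
def PN (a : ℕ → ℕ → Bool) (U : List ℕ) (k : ℕ) (X A₁ A₂ : List ℕ) : Prop :=
  ∃ X₁ X₂ : Set ℕ, Disjoint X₁ X₂ ∧ X₁ ∪ X₂ = {v | v ∈ X} ∧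
    (∀ v ∈ A₁, v ∉ X₂) ∧ (∀ v ∈ A₂, v ∉ X₁) ∧
    Con (sys (adN a U)) k X₁ ∧ Con (sys (adN a U)) k X₂ ∧ JoinOK (sys (adN a U)) k X₁ X₂

/-- an oracle for `PN` -/
def Oracle (a : ℕ → ℕ → Bool) (U : List ℕ) (k : ℕ) (o : List ℕ → List ℕ → List ℕ → Bool) : Prop :=
  ∀ X A₁ A₂ : List ℕ, X ⊆ U → A₁ ⊆ X → A₂ ⊆ X → (∀ v ∈ A₁, v ∉ A₂) →
    (o X A₁ A₂ = true ↔ PN a U k X A₁ A₂)

/-- a tree all whose node sets are constructible; `R` is the root set -/
def KTree (a : ℕ → ℕ → Bool) (U : List ℕ) (k : ℕ) (tr : List (List ℕ × List ℕ))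
    (R : List ℕ) : Prop :=
  Known U tr R ∧ ∀ (i : ℕ) (h : i < tr.length), Known U (tr.take i) (tr[i]).1 ∧
    Known U (tr.take i) (tr[i]).2 ∧ (∀ v ∈ (tr[i]).1, v ∉ (tr[i]).2) ∧
    Con (sys (adN a U)) k {v | v ∈ (tr[i]).1} ∧ Con (sys (adN a U)) k {v | v ∈ (tr[i]).2} ∧
    Con (sys (adN a U)) k {v | v ∈ uni U (tr[i]).1 (tr[i]).2}

end NLC
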