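import Pool.Agent.Lib.MP_8b2ae4_lc.F2a
import Pool.Agent.Lib.MP_8b2ae4_lc.SideDefs

/-! # The table of an automaton is computable -/

set_option autoImplicit false

namespace NLC

open Pool.Agent.MSR

attribute [local fun_prop] PT.eq PT.mem

/-- arguments of a table -/
abbrev F3a_K : Type := List (List Bool) × List ℕ × List ℕ × ℕ × ℕ

/-- normal form of a matrix -/
def F3a_mat (m : ℕ) (c : List (List Bool)) : List (List Bool) :=
  (List.range m).map (fun i => (List.range m).map (fun j => (c.getD i []).getD j false))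

/-- normal form of a relabelling -/
def F3a_row (m : ℕ) (r : List ℕ) : List ℕ := (List.range m).map (fun i => (r.getD i 0) % m)

/-- normal form -/
def F3a_nf (m : ℕ) (q : F3a_K) : F3a_K :=
  (F3a_mat m q.1, F3a_row m q.2.1, F3a_row m q.2.2.1, q.2.2.2.1, q.2.2.2.2)

theorem F3a_pt_mat {α : Type} [En α] (m : ℕ) {c : α → List (List Bool)} (hc : PT c) :
    PT (fun a => F3a_mat m (c a)) := by
  have h : PT (fun p : (α × ℕ) × ℕ => ((c p.1.1).getD p.1.2 []).getD p.2 false) :=
    PT.getD (PT.snd PT.id')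
      (PT.getD (PT.snd (PT.fst PT.id')) (hc.comp (PT.fst (PT.fst PT.id'))) (PT.const _))
      (PT.const _)
  have h' : PT (fun p : α × ℕ => (List.range m).map (fun j => ((c p.1).getD p.2 []).getD j false)) :=
    PT.map (PT.const (List.range m)) h
  exact PT.map (PT.const (List.range m)) h'

theorem F3a_pt_row {α : Type} [En α] (m : ℕ) {r : α → List ℕ} (hr : PT r) :
    PT (fun a => F3a_row m (r a)) := by
  have h : PT (fun p : α × ℕ => ((r p.1).getD p.2 0) % m) :=
    (pt_mod m).comp (PT.getD (PT.snd PT.id') (hr.comp (PT.fst PT.id')) (PT.const _))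
  exact PT.map (PT.const (List.range m)) h

theorem F3a_pt_nf (m : ℕ) : PT (F3a_nf m) :=
  PT.pair (F3a_pt_mat m (PT.fst PT.id')) (PT.pair (F3a_pt_row m (PT.fst (PT.snd PT.id')))
    (PT.pair (F3a_pt_row m (PT.fst (PT.snd (PT.snd PT.id'))))
      (PT.pair (PT.fst (PT.snd (PT.snd (PT.snd PT.id'))))
        (PT.snd (PT.snd (PT.snd (PT.snd PT.id')))))))

theorem F3a_getD {γ : Type} {m : ℕ} (f : ℕ → γ) (d : γ) {i : ℕ} (h : i < m) :
    ((List.range m).map f).getD i d = f i := by
  rw [List.getD_eq_getElem _ _ (by simpa using h)]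
  simp

theorem F3a_map {γ : Type} {m : ℕ} (f : ℕ → γ) :
    (List.range m).map f = List.ofFn (fun i : Fin m => f i) := by
  apply List.ext_getElem
  · simp
  · intro i h1 h2
    simp

/-- the table has the same value on the normal form -/
theorem F3a_tab {m : ℕ} (hm : 0 < m)
    (δ : (Fin m → Fin m → Bool) → (Fin m → Fin m) → (Fin m → Fin m) → ℕ → ℕ → ℕ)
    (c : List (List Bool)) (r₁ r₂ : List ℕ) (x y : ℕ) :
    tab hm δ (F3a_mat m c) (F3a_row m r₁) (F3a_row m r₂) x y = tab hm δ c r₁ r₂ x y := by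
  have h1 : (fun (i j : Fin m) => ((F3a_mat m c).getD i []).getD j false) =
      (fun (i j : Fin m) => (c.getD i []).getD j false) := by
    funext i j
    unfold F3a_mat
    rw [F3a_getD _ _ i.2, F3a_getD _ _ j.2]
  have h2 : ∀ r : List ℕ, (fun i : Fin m => toF hm ((F3a_row m r).getD i 0)) =
      (fun i : Fin m => toF hm (r.getD i 0)) := by
    intro r
    funext i
    unfold F3a_row
    rw [F3a_getD _ _ i.2]
    apply Fin.ext
    show r.getD i 0 % m % m = r.getD i 0 % m
    rw [Nat.mod_mod]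
  unfold tab
  rw [h1, h2, h2]

/-- a normal form from functions -/
def F3a_g {m Q : ℕ}
    (p : (Fin m → Fin m → Bool) × (Fin m → Fin m) × (Fin m → Fin m) × Fin Q × Fin Q) : F3a_K :=
  (List.ofFn (fun i => List.ofFn (p.1 i)), List.ofFn (fun i => (p.2.1 i : ℕ)),
    List.ofFn (fun i => (p.2.2.1 i : ℕ)), p.2.2.2.1, p.2.2.2.2)

theorem F3a_nf_eq {m Q : ℕ} (hm : 0 < m) (c : List (List Bool)) (r₁ r₂ : List ℕ) (x y : Fin Q) :
    F3a_nf m (c, r₁, r₂, x, y) =
      F3a_g (fun i j => (c.getD i []).getD j false, fun i => toF hm (r₁.getD i 0),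
        fun i => toF hm (r₂.getD i 0), x, y) := by
  unfold F3a_nf F3a_g F3a_mat F3a_row
  simp only [F3a_map]
  rfl

/-- the table of an automaton is computable. Normal form of an argument `(c, r₁, r₂, x, y)`:
`c' = (List.range m).map (fun i => (List.range m).map (fun j => (c.getD i []).getD j false))`,
`rᵢ' = (List.range m).map (fun i => (rᵢ.getD i 0) % m)`. `tab hm A.δ` has the same value on the
normal form. The set of all normal forms with `x, y < A.Q` is finite: it is the range of a function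
on `(Fin m → Fin m → Bool) × (Fin m → Fin m) × (Fin m → Fin m) × Fin A.Q × Fin A.Q`. Take a list
`keys` with these elements, `T` = `table keys (tab …) 0` of the normal form; `pt_table`,
`table_eq`, `table_mem`, `pt_mod`, `PT.map`, `PT.getD`. -/
theorem pt_tab {k m : ℕ} (A : Auto k m) (hm : 0 < m) :
    ∃ T : Tab, PT (fun q : List (List Bool) × List ℕ × List ℕ × ℕ × ℕ =>
        T q.1 q.2.1 q.2.2.1 q.2.2.2.1 q.2.2.2.2) ∧
      (∀ c r₁ r₂ x y, T c r₁ r₂ x y < A.Q ∨ T c r₁ r₂ x y = 0) ∧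
      ∀ c r₁ r₂ x y, x < A.Q → y < A.Q → T c r₁ r₂ x y = tab hm A.δ c r₁ r₂ x y := by
  classical
  set keys : List F3a_K := (Finset.univ : Finset ((Fin m → Fin m → Bool) × (Fin m → Fin m) ×
    (Fin m → Fin m) × Fin A.Q × Fin A.Q)).toList.map F3a_g with hk
  refine ⟨fun c r₁ r₂ x y => table keys
    (fun q => tab hm A.δ q.1 q.2.1 q.2.2.1 q.2.2.2.1 q.2.2.2.2) 0 (F3a_nf m (c, r₁, r₂, x, y)),
    ?_, ?_, ?_⟩
  · exact pt_table keys _ 0 (F3a_pt_nf m)
  · intro c r₁ r₂ x y
    rcases table_mem keys (fun q => tab hm A.δ q.1 q.2.1 q.2.2.1 q.2.2.2.1 q.2.2.2.2) 0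
      (F3a_nf m (c, r₁, r₂, x, y)) with ⟨κ, _, h⟩ | h
    · left
      show table keys _ 0 _ < A.Q
      rw [h]
      exact A.δ_lt _ _ _ _ _
    · right
      exact h
  · intro c r₁ r₂ x y hx hy
    have hmem : F3a_nf m (c, r₁, r₂, x, y) ∈ keys := by
      rw [hk, List.mem_map]
      exact ⟨_, Finset.mem_toList.2 (Finset.mem_univ _),
        (F3a_nf_eq hm c r₁ r₂ (⟨x, hx⟩ : Fin A.Q) (⟨y, hy⟩ : Fin A.Q)).symm⟩
    show table keys _ 0 _ = _
    rw [table_eq keys _ 0 hmem]
    exact F3a_tab hm A.δ c r₁ r₂ x y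

end NLC
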