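import Pool.Agent.Lib.MP_8b2ae4_lc.F2b

/-! # The run is computable in polynomial time -/

set_option autoImplicit false

namespace NLC

open Pool.Agent.MSR

attribute [local fun_prop] PT.eq PT.mem

variable {α β : Type} [En α] [En β]

theorem f3b_sz_filter (l : List ℕ) (p : ℕ → Bool) : sz (l.filter p) ≤ sz l := by
  induction l with
  | nil => simp [sz_nil]
  | cons b l ih =>
    rw [List.filter_cons]
    split
    · rw [sz_cons, sz_cons]
      omega
    · rw [sz_cons]
      omega

/-- the run is computable, for every computable table with bounded values: `PT.foldl_add`; one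
step adds an entry `(uni U p.1 p.2, value ≤ Q)` of size `≤ 2 * sz U + 1 + Q`
(`uni U p.1 p.2` is a sublist of `U`). -/
theorem pt_run {T : Tab} {Q : ℕ} (hT : PT (fun q : List (List Bool) × List ℕ × List ℕ × ℕ × ℕ =>
        T q.1 q.2.1 q.2.2.1 q.2.2.2.1 q.2.2.2.2)) (hTQ : ∀ c r₁ r₂ x y, T c r₁ r₂ x y ≤ Q)
    {lf : ℕ → ℕ} (hlf : PT lf) {M : α → List (List Bool)}
    {U X A₁ A₂ : α → List ℕ} {tr : α → List (List ℕ × List ℕ)} (hM : PT M) (hU : PT U)
    (htr : PT tr) (hX : PT X) (h1 : PT A₁) (h2 : PT A₂) :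
    PT (fun b => run (ad (M b)) (U b) lf T (tr b) (X b) (A₁ b) (A₂ b)) := by
  have hfold : PT (fun b => (tr b).foldl
      (rstep (ad (M b)) (U b) lf T (X b) (A₁ b) (A₂ b)) []) := by
    apply PT.foldl_add htr (PT.const [])
    · -- one step
      have k1 : PT (fun p : α × List (List ℕ × ℕ) × (List ℕ × List ℕ) => p.1) := PT.fst PT.id'
      have kM := hM.comp k1
      have kU := hU.comp k1
      have kX := hX.comp k1
      have kA := h1.comp k1
      have kB := h2.comp k1
      have ke : PT (fun p : α × List (List ℕ × ℕ) × (List ℕ × List ℕ) => p.2.1) :=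
        PT.fst (PT.snd PT.id')
      have kx : PT (fun p : α × List (List ℕ × ℕ) × (List ℕ × List ℕ) => p.2.2.1) :=
        PT.fst (PT.snd (PT.snd PT.id'))
      have ky : PT (fun p : α × List (List ℕ × ℕ) × (List ℕ × List ℕ) => p.2.2.2) :=
        PT.snd (PT.snd (PT.snd PT.id'))
      have ku : PT (fun p : α × List (List ℕ × ℕ) × (List ℕ × List ℕ) =>
          uni (U p.1) p.2.2.1 p.2.2.2) := pt_uni kU kx ky
      have st : ∀ {Z : α × List (List ℕ × ℕ) × (List ℕ × List ℕ) → List ℕ}, PT Z →
          PT (fun p => stOf lf (X p.1) (A₁ p.1) (A₂ p.1) p.2.1 (Z p)) := by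
        intro Z hZ
        refine PT.cond (PT.leb (PT.length hZ) (PT.const 1)) ?_ (pt_look ke hZ)
        exact hlf.comp (pt_att kX kA kB (PT.headD hZ (PT.const 0)))
      have kr1 := pt_reps kM kU kx
      have kr2 := pt_reps kM kU ky
      have ki1 : PT (fun p : α × List (List ℕ × ℕ) × (List ℕ × List ℕ) =>
          (reps (ad (M p.1)) (U p.1) p.2.2.1).map
            (idx (ad (M p.1)) (U p.1) (uni (U p.1) p.2.2.1 p.2.2.2))) := by
        refine PT.map kr1 ?_
        exact pt_idx (kM.comp (PT.fst PT.id')) (kU.comp (PT.fst PT.id')) (ku.comp (PT.fst PT.id'))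
          (PT.snd PT.id')
      have ki2 : PT (fun p : α × List (List ℕ × ℕ) × (List ℕ × List ℕ) =>
          (reps (ad (M p.1)) (U p.1) p.2.2.2).map
            (idx (ad (M p.1)) (U p.1) (uni (U p.1) p.2.2.1 p.2.2.2))) := by
        refine PT.map kr2 ?_
        exact pt_idx (kM.comp (PT.fst PT.id')) (kU.comp (PT.fst PT.id')) (ku.comp (PT.fst PT.id'))
          (PT.snd PT.id')
      have kc : PT (fun p : α × List (List ℕ × ℕ) × (List ℕ × List ℕ) =>
          (reps (ad (M p.1)) (U p.1) p.2.2.1).map (fun u =>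
            (reps (ad (M p.1)) (U p.1) p.2.2.2).map (fun v => ad (M p.1) u v))) := by
        refine PT.map kr1 ?_
        refine PT.map (kr2.comp (PT.fst PT.id')) ?_
        exact pt_ad (kM.comp (PT.fst (PT.fst PT.id'))) (PT.snd (PT.fst PT.id')) (PT.snd PT.id')
      have kT := hT.comp (PT.pair kc (PT.pair ki1 (PT.pair ki2 (PT.pair (st kx) (st ky)))))
      exact PT.cons (PT.pair ku kT) ke
    · obtain ⟨e, he⟩ := hU.bound
      refine ⟨fun n => 2 * (2 * (n + 2) ^ e + 1 + Q) + 1, (((PB.const 2).mul ((((PB.const 2).mul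
        ((PB.id.add (PB.const 2)).pow e)).add (PB.const 1)).add (PB.const Q))).add (PB.const 1)), ?_⟩
      intro b env p _
      have e1 : sz (uni (U b) p.1 p.2) ≤ (sz b + 2) ^ e := (f3b_sz_filter _ _).trans (he b)
      unfold rstep
      rw [sz_cons, sz_pair, sz_nat]
      have e2 := hTQ ((reps (ad (M b)) (U b) p.1).map (fun u =>
          (reps (ad (M b)) (U b) p.2).map (fun v => ad (M b) u v)))
        ((reps (ad (M b)) (U b) p.1).map (idx (ad (M b)) (U b) (uni (U b) p.1 p.2)))
        ((reps (ad (M b)) (U b) p.2).map (idx (ad (M b)) (U b) (uni (U b) p.1 p.2)))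
        (stOf lf (X b) (A₁ b) (A₂ b) env p.1) (stOf lf (X b) (A₁ b) (A₂ b) env p.2)
      simp only
      omega
  exact PT.snd (PT.headD hfold (PT.const ([], 0)))

end NLC
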