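import Pool.Agent.Lib.MP_8b2ae4_lc.AlgoDefs

/-! # Splitting is computable in polynomial time -/

set_option autoImplicit false

namespace NLC

open Pool.Agent.MSR

attribute [local fun_prop] PT.eq PT.mem

variable {α β : Type} [En α] [En β]

/-- splitting is computable: `PT.foldl_add` for the fold in `spl`; one step adds one element of `X`
to one of the two lists; then two filters. -/
theorem pt_spl {o : α → List ℕ → List ℕ → List ℕ → Bool}
    (ho : PT (fun q : α × List ℕ × List ℕ × List ℕ => o q.1 q.2.1 q.2.2.1 q.2.2.2))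
    {X : α → List ℕ} (hX : PT X) : PT (fun b => spl (o b) (X b)) := by
  have hfold : PT (fun b => (X b).foldl (sstep (o b) (X b)) (([], []) : List ℕ × List ℕ)) := by
    apply PT.foldl_add hX (PT.const _)
    · have h1 : PT (fun p : α × (List ℕ × List ℕ) × ℕ => X p.1) := hX.comp (PT.fst PT.id')
      have h2 : PT (fun p : α × (List ℕ × List ℕ) × ℕ =>
          ((p.1, X p.1, p.2.2 :: p.2.1.1, p.2.1.2) : α × List ℕ × List ℕ × List ℕ)) :=
        PT.pair (PT.fst PT.id') (PT.pair h1 (by fun_prop))
      have h3 := ho.comp h2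
      exact PT.cond h3 (by fun_prop) (by fun_prop)
    · obtain ⟨e, he⟩ := hX.bound
      refine ⟨fun n => 4 * (n + 2) ^ e + 2, ((PB.const 4).mul ((PB.id.add (PB.const 2)).pow e)).add
        (PB.const 2), ?_⟩
      intro a c b hb
      have h1 := sz_mem hb
      have h2 := he a
      unfold sstep
      cases o a (X a) (b :: c.1) c.2
      · simp only [cond_false]
        rw [sz_pair, sz_cons, sz_pair]
        omega
      · simp only [cond_true]
        rw [sz_pair, sz_cons, sz_pair]
        omega
  have hm1 : PT (fun p : α × ℕ => decide (p.2 ∈ ((X p.1).foldl (sstep (o p.1) (X p.1)) ([], [])).1)) :=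
    PT.mem (PT.snd PT.id') (PT.fst (hfold.comp (PT.fst PT.id')))
  exact PT.pair (PT.filter hX hm1) (PT.filter hX (PT.not hm1))

end NLC
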