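import Pool.Agent.Lib.MP_8b2ae4_lc.F3c

/-! # Building a tree is computable in polynomial time -/

set_option autoImplicit false

namespace NLC

open Pool.Agent.MSR

attribute [local fun_prop] PT.eq PT.mem

variable {α β : Type} [En α] [En β]

theorem F3d_filter (p : ℕ → Bool) (l : List ℕ) : sz (l.filter p) ≤ sz l := by
  induction l with
  | nil => exact le_rfl
  | cons a l ih =>
    rw [List.filter_cons]
    split
    · rw [sz_cons, sz_cons]; omega
    · rw [sz_cons]; omega

theorem F3d_spl (o : List ℕ → List ℕ → List ℕ → Bool) (X : List ℕ) :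
    sz (spl o X).1 ≤ sz X ∧ sz (spl o X).2 ≤ sz X :=
  ⟨F3d_filter _ _, F3d_filter _ _⟩

theorem F3d_inv (U : List ℕ) (o : List ℕ → List ℕ → List ℕ → Bool) (j : ℕ) :
    (∀ X ∈ ((grow o)^[j] ([U], [])).1, sz X ≤ sz U) ∧
    sz ((grow o)^[j] ([U], [])).1 ≤ (j + 1) * (2 * sz U + 1) ∧
      sz ((grow o)^[j] ([U], [])).2 ≤ j * (6 * sz U + 3) := by
  induction j with
  | zero =>
    refine ⟨?_, ?_, ?_⟩
    · intro X hX
      have : X = U := by simpa using hX
      rw [this]
    · rw [Function.iterate_zero, id_eq, sz_cons, sz_nil]; omega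
    · rw [Function.iterate_zero, id_eq, sz_nil]; omega
  | succ j ih =>
    rw [Function.iterate_succ_apply']
    generalize (grow o)^[j] ([U], []) = s at ih
    obtain ⟨h1, h2, h3⟩ := ih
    have e1 : (j + 1 + 1) * (2 * sz U + 1) = (j + 1) * (2 * sz U + 1) + (2 * sz U + 1) := by ring
    have e2 : (j + 1) * (6 * sz U + 3) = j * (6 * sz U + 3) + (6 * sz U + 3) := by ring
    obtain ⟨s1, s2⟩ := s
    cases s1 with
    | nil =>
      refine ⟨h1, ?_, ?_⟩
      · change sz ([] : List (List ℕ)) ≤ _
        rw [sz_nil]; omega
      · change sz s2 ≤ _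
        simp only at h3
        omega
    | cons X rest =>
      have hX : sz X ≤ sz U := h1 X List.mem_cons_self
      have hrest : ∀ Y ∈ rest, sz Y ≤ sz U := fun Y hY => h1 Y (List.mem_cons_of_mem _ hY)
      simp only [sz_cons] at h2
      simp only at h3
      obtain ⟨hs1, hs2⟩ := F3d_spl o X
      have hg : grow o (X :: rest, s2) = bif leb X.length 1 then (rest, s2) else
        ((spl o X).1 :: (spl o X).2 :: rest, spl o X :: s2) := rfl
      rw [hg]
      cases leb X.length 1 with
      | true =>
        rw [cond_true]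
        refine ⟨hrest, ?_, ?_⟩
        · simp only; omega
        · simp only; omega
      | false =>
        rw [cond_false]
        refine ⟨?_, ?_, ?_⟩
        · intro Y hY
          simp only [List.mem_cons] at hY
          rcases hY with rfl | rfl | hY
          · omega
          · omega
          · exact hrest Y hY
        · simp only [sz_cons]; omega
        · simp only [sz_cons]
          have : sz (spl o X) = 2 * sz (spl o X).1 + 1 + sz (spl o X).2 := sz_pair _ _
          omega

/-- the state after `j` steps of the construction: all lists which occur are sublists of `U`; the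
list of sets to be split has at most `j + 1` elements, so its size is at most
`(j + 1) * (2 * sz U + 1)`, and there are at most `j` joins, so the size is at most
`j * (6 * sz U + 3)` -/
theorem grow_size (U : List ℕ) (o : List ℕ → List ℕ → List ℕ → Bool) (j : ℕ) :
    sz ((grow o)^[j] ([U], [])).1 ≤ (j + 1) * (2 * sz U + 1) ∧
      sz ((grow o)^[j] ([U], [])).2 ≤ j * (6 * sz U + 3) :=
  (F3d_inv U o j).2

/-- the size of the tree found -/
theorem sz_build_le (U : List ℕ) (o : List ℕ → List ℕ → List ℕ → Bool) :
    sz (build U o) ≤ 2 * U.length * (6 * sz U + 3) :=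
  (grow_size U o _).2

/-- building a tree is computable: `PT.iter` with the bound of `grow_size`
(`U.length ≤ sz U`); one step: `PT.lcase`, `pt_spl` -/
theorem pt_build {o : α → List ℕ → List ℕ → List ℕ → Bool}
    (ho : PT (fun q : α × List ℕ × List ℕ × List ℕ => o q.1 q.2.1 q.2.2.1 q.2.2.2))
    {U : α → List ℕ} (hU : PT U) : PT (fun b => build (U b) (o b)) := by
  have hit : PT (fun b => (grow (o b))^[2 * (U b).length] ([U b], [])) := by
    apply PT.iter (g := fun b => grow (o b))
    · fun_prop
    · exact PT.pair (PT.cons hU (PT.const [])) (PT.const [])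
    · -- one step
      have h1 : PT (fun r : (α × List (List ℕ) × List (List ℕ × List ℕ)) × List ℕ × List (List ℕ) =>
          spl (o r.1.1) r.2.1) := by
        refine pt_spl (o := fun r : (α × List (List ℕ) × List (List ℕ × List ℕ)) ×
          List ℕ × List (List ℕ) => o r.1.1) ?_ (by fun_prop)
        have h2 : PT (fun q : ((α × List (List ℕ) × List (List ℕ × List ℕ)) ×
            List ℕ × List (List ℕ)) × List ℕ × List ℕ × List ℕ =>
            ((q.1.1.1, q.2.1, q.2.2.1, q.2.2.2) : α × List ℕ × List ℕ × List ℕ)) := by fun_prop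
        exact ho.comp h2
      apply PT.lcase (l := fun p : α × List (List ℕ) × List (List ℕ × List ℕ) => p.2.1)
        (f := fun p => p.2)
        (g := fun p X rest => bif leb X.length 1 then (rest, p.2.2) else
          ((spl (o p.1) X).1 :: (spl (o p.1) X).2 :: rest, spl (o p.1) X :: p.2.2))
      · fun_prop
      · fun_prop
      · apply PT.cond
        · fun_prop
        · fun_prop
        · exact PT.pair (PT.cons (PT.fst h1) (PT.cons (PT.snd h1) (by fun_prop)))
            (PT.cons h1 (by fun_prop))
    · obtain ⟨d, hd⟩ := hU.bound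
      refine ⟨fun m => 2 * ((2 * (m + 2) ^ d + 1) * (2 * (m + 2) ^ d + 1)) + 1 +
        (2 * (m + 2) ^ d) * (6 * (m + 2) ^ d + 3), ?_, ?_⟩
      · have hE : PB (fun m => (m + 2) ^ d) := (PB.id.add (PB.const 2)).pow d
        have h2E : PB (fun m => 2 * (m + 2) ^ d) := (PB.const 2).mul hE
        have h6E : PB (fun m => 6 * (m + 2) ^ d) := (PB.const 6).mul hE
        exact (((PB.const 2).mul ((h2E.add (PB.const 1)).mul (h2E.add (PB.const 1)))).add
          (PB.const 1)).add (h2E.mul (h6E.add (PB.const 3)))
      · intro a k hk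
        have h1 := grow_size (U a) (o a) k
        have h2 := hd a
        have h3 := length_le_sz (U a)
        have h4 : sz ((grow (o a))^[k] ([U a], [])) = 2 * sz ((grow (o a))^[k] ([U a], [])).1 + 1 +
          sz ((grow (o a))^[k] ([U a], [])).2 := sz_pair _ _
        rw [h4]
        have hk' : k ≤ 2 * (sz a + 2) ^ d := by omega
        have h5 : (k + 1) * (2 * sz (U a) + 1) ≤ (2 * (sz a + 2) ^ d + 1) * (2 * (sz a + 2) ^ d + 1) :=
          Nat.mul_le_mul (by omega) (by omega)
        have h6 : k * (6 * sz (U a) + 3) ≤ (2 * (sz a + 2) ^ d) * (6 * (sz a + 2) ^ d + 3) :=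
          Nat.mul_le_mul (by omega) (by omega)
        simp only
        omega
  exact PT.snd hit

end NLC
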