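import Pool.Agent.Lib.MP_8b2ae4_lc.F3b
import Pool.Agent.Lib.MP_8b2ae4_lc.F3d

/-! # The algorithm runs in polynomial time -/

set_option autoImplicit false

namespace NLC

open Pool.Agent.MSR

attribute [local fun_prop] PT.eq PT.mem

variable {α β : Type} [En α] [En β]

/-- the bound for the size of the tree -/
private def F3eB (m : ℕ) : ℕ := 2 * m * (6 * (m * (2 * m + 1)) + 3)

private theorem F3eB_mono {m n : ℕ} (h : m ≤ n) : F3eB m ≤ F3eB n := by
  unfold F3eB
  exact Nat.mul_le_mul (by omega)
    (Nat.add_le_add_right (Nat.mul_le_mul_left 6 (Nat.mul_le_mul h (by omega))) 3)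

private theorem F3eB_pb : PB F3eB := by
  have h1 : PB (fun m => 2 * m) := (PB.const 2).mul PB.id
  have h2 : PB (fun m => m * (2 * m + 1)) := PB.id.mul (h1.add (PB.const 1))
  exact h1.mul (((PB.const 6).mul h2).add (PB.const 3))

private theorem F3e_inv (a : ℕ → ℕ → Bool) (lf : ℕ → ℕ) (T : Tab) (acc : ℕ → Bool) (j : ℕ) :
    ((mstep a lf T acc)^[j] (true, 1, [])).2.1 = j + 1 ∧
      sz ((mstep a lf T acc)^[j] (true, 1, [])).2.2 ≤ F3eB (j + 1) := by
  induction j with
  | zero => exact ⟨rfl, Nat.zero_le _⟩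
  | succ j ih =>
    rw [Function.iterate_succ_apply']
    obtain ⟨h1, h2⟩ := ih
    generalize (mstep a lf T acc)^[j] (true, 1, []) = s at h1 h2 ⊢
    unfold mstep
    cases (s.1 && orc a (List.range (s.2.1 + 1)) lf T acc
      (s.2.2 ++ [(List.range s.2.1, [s.2.1])]) (List.range (s.2.1 + 1)) [] []) with
    | true =>
      rw [cond_true]
      refine ⟨by rw [h1], ?_⟩
      refine (sz_build_le _ _).trans ?_
      rw [List.length_range, h1]
      have h3 := sz_range (j + 1 + 1)
      exact Nat.mul_le_mul_left _ (Nat.add_le_add_right (Nat.mul_le_mul_left 6 h3) 3)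
    | false =>
      rw [cond_false]
      exact ⟨by rw [h1], h2.trans (F3eB_mono (by omega))⟩

private theorem F3e_orc {T : Tab} {Q : ℕ}
    (hT : PT (fun q : List (List Bool) × List ℕ × List ℕ × ℕ × ℕ =>
        T q.1 q.2.1 q.2.2.1 q.2.2.2.1 q.2.2.2.2)) (hTQ : ∀ c r₁ r₂ x y, T c r₁ r₂ x y ≤ Q)
    {lf : ℕ → ℕ} (hlf : PT lf) {acc : ℕ → Bool} (hacc : PT acc) {M : α → List (List Bool)}
    {U X A₁ A₂ : α → List ℕ} {tr : α → List (List ℕ × List ℕ)} (hM : PT M) (hU : PT U)
    (htr : PT tr) (hX : PT X) (h1 : PT A₁) (h2 : PT A₂) :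
    PT (fun b => orc (ad (M b)) (U b) lf T acc (tr b) (X b) (A₁ b) (A₂ b)) :=
  hacc.comp (pt_run hT hTQ hlf hM hU htr hX h1 h2)

/-- the algorithm is computable: `PT.iter` for `mstep`. Size of the state after `j ≤ n - 1` steps:
the second component is `j + 1`; the third one is `[]` or `build (List.range (i + 1)) _` with
`i + 1 ≤ n`, so its size is bounded by `sz_build_le`, `sz_range`. One step: `pt_run` for the
oracle, `pt_build` for `α` = the pairs `(M, state)`. -/
theorem pt_algo {T : Tab} {Q : ℕ} (hT : PT (fun q : List (List Bool) × List ℕ × List ℕ × ℕ × ℕ =>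
        T q.1 q.2.1 q.2.2.1 q.2.2.2.1 q.2.2.2.2)) (hTQ : ∀ c r₁ r₂ x y, T c r₁ r₂ x y ≤ Q)
    {lf : ℕ → ℕ} (hlf : PT lf) {acc : ℕ → Bool} (hacc : PT acc) :
    PT (fun M : List (List Bool) => algo (ad M) lf T acc M.length) := by
  have hit : PT (fun M : List (List Bool) =>
      (mstep (ad M) lf T acc)^[M.length - 1] ((true, 1, []) : Bool × ℕ × List (List ℕ × List ℕ))) := by
    apply PT.iter (g := fun M => mstep (ad M) lf T acc)
    · fun_prop
    · fun_prop
    · -- one step
      have hr : PT (fun p : List (List Bool) × Bool × ℕ × List (List ℕ × List ℕ) =>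
          List.range (p.2.2.1 + 1)) := by fun_prop
      have htr : PT (fun p : List (List Bool) × Bool × ℕ × List (List ℕ × List ℕ) =>
          p.2.2.2 ++ [(List.range p.2.2.1, [p.2.2.1])]) := by fun_prop
      have hb : PT (fun p : List (List Bool) × Bool × ℕ × List (List ℕ × List ℕ) =>
          build (List.range (p.2.2.1 + 1)) (orc (ad p.1) (List.range (p.2.2.1 + 1)) lf T acc
            (p.2.2.2 ++ [(List.range p.2.2.1, [p.2.2.1])]))) := by
        refine pt_build (o := fun p : List (List Bool) × Bool × ℕ × List (List ℕ × List ℕ) =>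
          orc (ad p.1) (List.range (p.2.2.1 + 1)) lf T acc
            (p.2.2.2 ++ [(List.range p.2.2.1, [p.2.2.1])])) ?_ hr
        exact F3e_orc hT hTQ hlf hacc
          (M := fun q : (List (List Bool) × Bool × ℕ × List (List ℕ × List ℕ)) ×
            List ℕ × List ℕ × List ℕ => q.1.1)
          (by fun_prop) (hr.comp (PT.fst PT.id')) (htr.comp (PT.fst PT.id'))
          (by fun_prop) (by fun_prop) (by fun_prop)
      have ho : PT (fun p : List (List Bool) × Bool × ℕ × List (List ℕ × List ℕ) =>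
          orc (ad p.1) (List.range (p.2.2.1 + 1)) lf T acc
            (p.2.2.2 ++ [(List.range p.2.2.1, [p.2.2.1])]) (List.range (p.2.2.1 + 1)) [] []) :=
        F3e_orc hT hTQ hlf hacc (PT.fst PT.id') hr htr hr (PT.const []) (PT.const [])
      refine PT.cond (PT.and (PT.fst (PT.snd PT.id')) ho) ?_ ?_
      · exact PT.pair (PT.const true) (PT.pair (by fun_prop) hb)
      · fun_prop
    · refine ⟨fun m => 2 * 1 + 1 + (2 * (m + 1) + 1 + F3eB (m + 1)), ?_, ?_⟩
      · have h1 : PB (fun m => m + 1) := PB.id.add (PB.const 1)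
        have h2 : PB (fun m => 2 * (m + 1) + 1) := ((PB.const 2).mul h1).add (PB.const 1)
        have h3 : PB (fun m => F3eB (m + 1)) := by
          have h1' : PB (fun m => 2 * (m + 1)) := (PB.const 2).mul h1
          have h2' : PB (fun m => (m + 1) * (2 * (m + 1) + 1)) := h1.mul (h1'.add (PB.const 1))
          exact h1'.mul (((PB.const 6).mul h2').add (PB.const 3))
        exact (PB.const _).add (h2.add h3)
      · intro M k hk
        obtain ⟨h1, h2⟩ := F3e_inv (ad M) lf T acc k
        have h3 := length_le_sz M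
        have h4 : sz ((mstep (ad M) lf T acc)^[k] (true, 1, [])) =
            2 * sz ((mstep (ad M) lf T acc)^[k] (true, 1, [])).1 + 1 +
              (2 * sz ((mstep (ad M) lf T acc)^[k] (true, 1, [])).2.1 + 1 +
                sz ((mstep (ad M) lf T acc)^[k] (true, 1, [])).2.2) := by
          rw [← sz_pair, ← sz_pair]
        rw [h4, sz_bool, h1, sz_nat]
        have h5 : F3eB (k + 1) ≤ F3eB (sz M + 1) := F3eB_mono (by omega)
        have h6 : k ≤ sz M := by omega
        show _ ≤ 2 * 1 + 1 + (2 * (sz M + 1) + 1 + F3eB (sz M + 1))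
        omega
  exact PT.and (by fun_prop) (PT.fst hit)

end NLC
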