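import Pool.Agent.Lib.MP_8b2ae4_lc.AlgoDefs

/-! # The algorithm only uses small values of the table -/

set_option autoImplicit false

namespace NLC

open Pool.Agent.MSR

private theorem look_lt {Q : ℕ} (hQ : 0 < Q) {env : List (List ℕ × ℕ)} (henv : ∀ p ∈ env, p.2 < Q)
    (X : List ℕ) : look env X < Q := by
  unfold look
  cases hc : env.filter (fun p => decide (p.1 = X)) with
  | nil => simpa using hQ
  | cons p l =>
    have hp : p ∈ env.filter (fun p => decide (p.1 = X)) := by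
      rw [hc]; exact List.mem_cons_self
    exact henv p (List.mem_filter.1 hp).1

private theorem stOf_lt {lf : ℕ → ℕ} {Q : ℕ} (hlf : ∀ i, lf i < Q) (X A₁ A₂ : List ℕ)
    {env : List (List ℕ × ℕ)} (henv : ∀ p ∈ env, p.2 < Q) (Z : List ℕ) :
    stOf lf X A₁ A₂ env Z < Q := by
  unfold stOf
  cases leb Z.length 1 with
  | true => exact hlf _
  | false => exact look_lt (Nat.zero_lt_of_lt (hlf 0)) henv Z

private theorem fold_congr {a : ℕ → ℕ → Bool} {U : List ℕ} {lf : ℕ → ℕ} {T T' : Tab} {Q : ℕ}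
    (hlf : ∀ i, lf i < Q) (hT' : ∀ c r₁ r₂ x y, T' c r₁ r₂ x y < Q)
    (h : ∀ c r₁ r₂ x y, x < Q → y < Q → T c r₁ r₂ x y = T' c r₁ r₂ x y)
    (X A₁ A₂ : List ℕ) (tr : List (List ℕ × List ℕ)) :
    ∀ env : List (List ℕ × ℕ), (∀ p ∈ env, p.2 < Q) →
      tr.foldl (rstep a U lf T X A₁ A₂) env = tr.foldl (rstep a U lf T' X A₁ A₂) env ∧
      ∀ p ∈ tr.foldl (rstep a U lf T' X A₁ A₂) env, p.2 < Q := by
  induction tr with
  | nil => intro env henv; exact ⟨rfl, henv⟩
  | cons q tr ih =>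
    intro env henv
    have h1 : rstep a U lf T X A₁ A₂ env q = rstep a U lf T' X A₁ A₂ env q := by
      unfold rstep
      rw [h _ _ _ _ _ (stOf_lt hlf X A₁ A₂ henv q.1) (stOf_lt hlf X A₁ A₂ henv q.2)]
    have h2 : ∀ p ∈ rstep a U lf T' X A₁ A₂ env q, p.2 < Q := by
      intro p hp
      rcases List.mem_cons.1 hp with rfl | hp
      · exact hT' _ _ _ _ _
      · exact henv p hp
    have h3 := ih (rstep a U lf T' X A₁ A₂ env q) h2
    rw [List.foldl_cons, List.foldl_cons, h1]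
    exact h3

/-- the run only sees the values of the table on states `< Q`: by induction on `tr` (from the
right) the two environments are equal and all states in them are `< Q`; `stOf` is `< Q`
(`look` of a missing set is `0 < Q`) -/
theorem run_congr {a : ℕ → ℕ → Bool} {U : List ℕ} {lf : ℕ → ℕ} {T T' : Tab} {Q : ℕ}
    (hlf : ∀ i, lf i < Q) (hT' : ∀ c r₁ r₂ x y, T' c r₁ r₂ x y < Q)
    (h : ∀ c r₁ r₂ x y, x < Q → y < Q → T c r₁ r₂ x y = T' c r₁ r₂ x y)
    (tr : List (List ℕ × List ℕ)) (X A₁ A₂ : List ℕ) :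
    run a U lf T tr X A₁ A₂ = run a U lf T' tr X A₁ A₂ ∧ run a U lf T' tr X A₁ A₂ < Q := by
  have h1 := fold_congr (a := a) (U := U) hlf hT' h X A₁ A₂ tr [] (by intro p hp; cases hp)
  refine ⟨by unfold run; rw [h1.1], ?_⟩
  unfold run
  cases hc : tr.foldl (rstep a U lf T' X A₁ A₂) [] with
  | nil => exact Nat.zero_lt_of_lt (hlf 0)
  | cons p l =>
    have := h1.2 p (by rw [hc]; exact List.mem_cons_self)
    exact this

/-- the algorithm only sees the values of the table and of `acc` on states `< Q` -/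
theorem algo_congr {a : ℕ → ℕ → Bool} {lf : ℕ → ℕ} {T T' : Tab} {acc acc' : ℕ → Bool} {Q : ℕ}
    (hlf : ∀ i, lf i < Q) (hT' : ∀ c r₁ r₂ x y, T' c r₁ r₂ x y < Q)
    (h : ∀ c r₁ r₂ x y, x < Q → y < Q → T c r₁ r₂ x y = T' c r₁ r₂ x y)
    (hacc : ∀ x, x < Q → acc x = acc' x) (n : ℕ) :
    algo a lf T acc n = algo a lf T' acc' n := by
  have h1 : ∀ U tr X A₁ A₂, orc a U lf T acc tr X A₁ A₂ = orc a U lf T' acc' tr X A₁ A₂ := by
    intro U tr X A₁ A₂
    have h2 := run_congr (a := a) (U := U) hlf hT' h tr X A₁ A₂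
    unfold orc
    rw [h2.1, hacc _ h2.2]
  have h2 : ∀ U tr, orc a U lf T acc tr = orc a U lf T' acc' tr := by
    intro U tr
    funext X A₁ A₂
    exact h1 U tr X A₁ A₂
  have h3 : mstep a lf T acc = mstep a lf T' acc' := by
    funext s
    unfold mstep
    rw [h1, h2]
  unfold algo
  rw [h3]

end NLC
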