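import Pool.Prelude.Def_H_3587d628
import Pool.Agent.Lib.MP_17a834_lc.Msr.Ops
import Pool.Agent.Lib.MP_8b2ae4_lc.SideDefs
import Pool.Agent.Lib.MP_8b2ae4_lc.A1b

/-! # Adjacency matrices and the encoding -/

set_option autoImplicit false

namespace NLC

open Pool.Agent.MSR N68a2faeb N487b59b3 Turing Turing.TM2 Cmd En

theorem ad_adjMat {n : ℕ} (G : SimpleGraph (Fin n)) [DecidableRel G.Adj] (i j : ℕ) :
    ad (adjMat G) i j = true ↔ ∃ (hi : i < n) (hj : j < n), G.Adj ⟨i, hi⟩ ⟨j, hj⟩ := by
  unfold ad adjMat
  by_cases hi : i < n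
  · have e1 : (List.ofFn fun i : Fin n => List.ofFn fun j : Fin n => decide (G.Adj i j)).getD i [] =
        List.ofFn fun j : Fin n => decide (G.Adj ⟨i, hi⟩ j) := by
      rw [List.getD_eq_getElem _ _ (by rw [List.length_ofFn]; exact hi), List.getElem_ofFn]
    rw [e1]
    by_cases hj : j < n
    · rw [List.getD_eq_getElem _ _ (by rw [List.length_ofFn]; exact hj), List.getElem_ofFn,
        decide_eq_true_iff]
      exact ⟨fun h => ⟨hi, hj, h⟩, fun ⟨_, _, h⟩ => h⟩
    · rw [List.getD_eq_default _ _ (by rw [List.length_ofFn]; exact not_lt.mp hj)]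
      exact ⟨fun h => absurd h (by decide), fun ⟨_, h, _⟩ => absurd h hj⟩
  · rw [List.getD_eq_default _ [] (by rw [List.length_ofFn]; exact not_lt.mp hi)]
    exact ⟨fun h => absurd h (by simp), fun ⟨h, _, _⟩ => absurd h hi⟩

private theorem adN_val {n : ℕ} (G : SimpleGraph (Fin n)) [DecidableRel G.Adj] (u v : Fin n) :
    adN (ad (adjMat G)) (List.range n) u.val v.val ↔ G.Adj u v := by
  unfold adN
  rw [ad_adjMat]
  exact ⟨fun ⟨_, _, _, _, h⟩ => h,
    fun h => ⟨List.mem_range.mpr u.isLt, List.mem_range.mpr v.isLt, u.isLt, v.isLt, h⟩⟩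

theorem adjMat_length {n : ℕ} (G : SimpleGraph (Fin n)) [DecidableRel G.Adj] :
    (adjMat G).length = n := by
  simp [adjMat]

/-- from numbers to `Fin n` (`Con.image`, `Con.preimage` for `Fin.val`) -/
theorem con_fin {n k : ℕ} (hn : 0 < n) (G : SimpleGraph (Fin n)) [DecidableRel G.Adj] :
    Con (sys (adN (ad (adjMat G)) (List.range n))) k {v | v ∈ List.range n} ↔
      Con (sys G.Adj) k Set.univ := by
  constructor
  · intro h
    have h1 := Con.preimage (F := sys G.Adj) (Fin.val : Fin n → ℕ) Fin.val_injective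
      (fun Z _ u v _ _ hE w hw => by
        have h2 := hE w.val hw
        rw [adN_val, adN_val] at h2
        exact h2) h ⟨⟨0, hn⟩, List.mem_range.mpr hn⟩
    have e : (Fin.val : Fin n → ℕ) ⁻¹' {v | v ∈ List.range n} = Set.univ :=
      Set.eq_univ_of_forall fun v => List.mem_range.mpr v.isLt
    rw [e] at h1
    exact h1
  · intro h
    have h1 := Con.image (F := sys (adN (ad (adjMat G)) (List.range n))) (Fin.val : Fin n → ℕ)
      Fin.val_injective
      (fun Z u _ v _ hE w hw => by
        by_cases hwn : w < n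
        · have hw' : (⟨w, hwn⟩ : Fin n) ∉ Z := fun hZ => hw ⟨⟨w, hwn⟩, hZ, rfl⟩
          have h2 := hE ⟨w, hwn⟩ hw'
          rw [← adN_val G, ← adN_val G] at h2
          exact h2
        · exact ⟨fun h2 => absurd (List.mem_range.mp h2.2.1) hwn,
            fun h2 => absurd (List.mem_range.mp h2.2.1) hwn⟩) h
    have e : (Fin.val : Fin n → ℕ) '' Set.univ = {v | v ∈ List.range n} := by
      ext v
      constructor
      · rintro ⟨w, _, rfl⟩
        exact List.mem_range.mpr w.isLt
      · intro hv
        exact ⟨⟨v, List.mem_range.mp hv⟩, trivial, rfl⟩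
    rw [e] at h1
    exact h1

/-- a string family computable in polynomial time gives `IsPolyTime` -/
theorem isPolyTime_of_CT {α β : Type} [N487b59b3 α] [N487b59b3 β] (f : α → β)
    (hf : CT (fun a : α => bitEncode a) (fun a => bitEncode (f a))) : IsPolyTime f := by
  obtain ⟨K, i1, i2, i, o, c, d, h⟩ := hf
  refine ⟨{ tm := machine c i o, inputAlphabet := Equiv.refl Bool,
            outputAlphabet := Equiv.refl Bool, time := (Polynomial.X + 2) ^ d + 1,
            outputsFun := fun a => ?_ }⟩
  refine ⟨⟨Classical.choose (h a) + 1, ?_⟩, ?_⟩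
  · have h1 := (Classical.choose_spec (h a)).2.outputs
    have e1 : List.map (Equiv.refl Bool).invFun
        ((N487b59b3.toEncoding (α := α)).encode a) = bitEncode a := List.map_id _
    have e2 : List.map (Equiv.refl Bool).invFun
        ((N487b59b3.toEncoding (α := β)).encode (f a)) = bitEncode (f a) := List.map_id _
    exact (congrArg (fun s => (flip bind (Turing.FinTM2.step (machine c i o)))^[Classical.choose (h a) + 1]
      (some (Turing.initList (machine c i o) s))) e1).trans (h1.trans
        (congrArg (fun s => some (Turing.haltList (machine c i o) s)) e2.symm))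
  · have h2 := (Classical.choose_spec (h a)).1
    have e1 : ((N487b59b3.toEncoding (α := α)).encode a).length = (bitEncode a).length := rfl
    simp only [Polynomial.eval_add, Polynomial.eval_pow, Polynomial.eval_X, Polynomial.eval_ofNat,
      Polynomial.eval_one, e1]
    exact Nat.add_le_add_right h2 1

end NLC
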