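import Pool.Agent.Lib.MP_8b2ae4_lc.D5c
import Pool.Agent.Lib.MP_8b2ae4_lc.E3d
import Pool.Agent.Lib.MP_8b2ae4_lc.F1c
import Pool.Agent.Lib.MP_8b2ae4_lc.F3a
import Pool.Agent.Lib.MP_8b2ae4_lc.F3e
import Pool.Agent.Lib.MP_8b2ae4_lc.G1
import Pool.Agent.Lib.MP_8b2ae4_lc.G2

/-! # The main theorem -/

set_option autoImplicit false

namespace NLC

open Pool.Agent.MSR N68a2faeb N487b59b3 Turing Turing.TM2 Cmd En

/-- **Main theorem** -/
theorem main (k : ℕ) :
    ∃ f : List (List Bool) → Bool, IsPolyTime f ∧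
      ∀ (n : ℕ) (G : SimpleGraph (Fin n)) [DecidableRel G.Adj],
        (f (adjMat G) = true ↔ IsNLC k G) := by
  rcases Nat.eq_zero_or_pos k with rfl | hk
  · refine ⟨fun _ => false, ?_, ?_⟩
    · apply isPolyTime_of_CT
      exact (PT.const false : PT (fun _ : List (List Bool) => false))
    · intro n G _
      simp [isNLC_zero]
  have hm : 0 < 2 * k := by omega
  obtain ⟨Q, st, δ, acc, h1, h2, h3, h4, h5⟩ := exists_automaton k (2 * k) hk
  obtain ⟨A, hAQ⟩ : ∃ A : Auto k (2 * k), A.Q = Q := ⟨⟨Q, st, δ, acc, h1, h2, h3, h4, h5⟩, rfl⟩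
  have hQ : 0 < A.Q := lt_of_le_of_lt (Nat.zero_le _) (A.δ_lt (fun _ _ => false) id id 0 0)
  obtain ⟨T, hT, hTQ, hTe⟩ := pt_tab A hm
  have hlf : PT (A.lf hm) := by
    have h4 : ∀ i, A.lf hm i = A.lf hm (i % 4) := by
      intro i
      simp only [Auto.lf, single, toA, Nat.mod_mod]
    have h5 : PT (fun i : ℕ => table (List.range 4) (A.lf hm) 0 (i % 4)) :=
      pt_table _ _ _ (pt_mod 4)
    refine h5.of_eq (fun i => ?_)
    rw [table_eq _ _ _ (List.mem_range.2 (Nat.mod_lt _ (by norm_num))), h4]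
  have hacc : PT (fun i => bif ltb i A.Q then A.acc i else false) :=
    pt_finite (fun i => bif ltb i A.Q then A.acc i else false) A.Q false (fun i hi => by
      have : ¬ i < A.Q := by omega
      simp [ltb, this]) PT.id'
  refine ⟨fun M => algo (ad M) (A.lf hm) T (fun i => bif ltb i A.Q then A.acc i else false)
    M.length, ?_, ?_⟩
  · apply isPolyTime_of_CT
    exact pt_algo (Q := A.Q) hT (fun c r₁ r₂ x y => by rcases hTQ c r₁ r₂ x y with h | h <;> omega)
      hlf hacc
  · intro n G _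
    have hsy : ∀ u v, ad (adjMat G) u v = ad (adjMat G) v u := by
      intro u v
      rw [Bool.eq_iff_iff, ad_adjMat, ad_adjMat]
      constructor
      · rintro ⟨h, h', e⟩; exact ⟨h', h, e.symm⟩
      · rintro ⟨h, h', e⟩; exact ⟨h', h, e.symm⟩
    have hir : ∀ u, ad (adjMat G) u u = false := by
      intro u
      rw [← Bool.not_eq_true, ad_adjMat]
      rintro ⟨h, h', e⟩
      exact G.irrefl e
    show algo (ad (adjMat G)) (A.lf hm) T (fun i => bif ltb i A.Q then A.acc i else false)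
      (adjMat G).length = true ↔ _
    have hcg : algo (ad (adjMat G)) (A.lf hm) T (fun i => bif ltb i A.Q then A.acc i else false) n =
        algo (ad (adjMat G)) (A.lf hm) (tab hm A.δ) A.acc n := by
      apply algo_congr (Q := A.Q)
      · exact fun i => A.st_lt _
      · exact fun c r₁ r₂ x y => A.δ_lt _ _ _ _ _
      · exact hTe
      · intro x hx
        simp [ltb, hx]
    rw [adjMat_length, hcg, algo_iff hk A hm hsy hir, isNLC_iff hk]
    constructor
    · rintro ⟨hn, h⟩
      exact (con_fin hn G).1 h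
    · intro h
      have hn : 0 < n := by
        obtain ⟨v, _⟩ := h.nonempty
        exact lt_of_le_of_lt (Nat.zero_le _) v.2
      exact ⟨hn, (con_fin hn G).2 h⟩

/-- the main theorem in terms of the NLC-width -/
theorem main_width (k : ℕ) :
    ∃ f : List (List Bool) → Bool, IsPolyTime f ∧
      ∀ (n : ℕ) (G : SimpleGraph (Fin n)) [DecidableRel G.Adj], 1 ≤ n →
        (f (adjMat G) = true ↔ nlcWidth G ≤ k) := by
  obtain ⟨f, hf, h⟩ := main k
  exact ⟨f, hf, fun n G _ hn => by rw [h, nlcWidth_le_iff hn]⟩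

end NLC
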